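import Mathlib

/-!
# Area mean value inequality
-/

set_option autoImplicit false

namespace Pool.Agent.Helper57.Dir

open Filter MeasureTheory Metric Real Set Topology

/-- circle mean value inequality for the square of the norm -/
lemma circle_mean (h : ℂ → ℂ) (w : ℂ) (r : ℝ) (hr : 0 < r)
    (hh : DiffContOnCl ℂ h (ball w r)) :
    2 * π * ‖h w‖ ^ 2 ≤ ∫ θ in (-π)..π, ‖h (w + r * (cos θ + sin θ * Complex.I))‖ ^ 2 := by
  have h1 : DiffContOnCl ℂ (fun z => h z ^ 2) (ball w |r|) := by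
    rw [abs_of_pos hr]
    have : DiffContOnCl ℂ (fun z => h z • h z) (ball w r) := hh.smul hh
    simpa [pow_two] using this
  have h2 := h1.circleAverage
  have hcont : Continuous (fun θ : ℝ => h (circleMap w r θ)) := by
    have hc : ContinuousOn h (closedBall w r) := by
      have := hh.continuousOn
      rwa [closure_ball w hr.ne'] at this
    refine hc.comp_continuous (continuous_circleMap w r) fun θ => ?_
    exact circleMap_mem_closedBall w hr.le θ
  have h3 : ‖h w‖ ^ 2 ≤ (2 * π)⁻¹ * ∫ θ in (0:ℝ)..2 * π, ‖h (circleMap w r θ)‖ ^ 2 := by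
    have : ‖h w ^ 2‖ ≤ (2 * π)⁻¹ * ∫ θ in (0:ℝ)..2 * π, ‖(h (circleMap w r θ)) ^ 2‖ := by
      rw [← h2, circleAverage_def, norm_smul, Real.norm_of_nonneg (by positivity)]
      gcongr
      exact intervalIntegral.norm_integral_le_integral_norm (by positivity)
    simpa [norm_pow] using this
  have h4 : ∫ θ in (0:ℝ)..2 * π, ‖h (circleMap w r θ)‖ ^ 2 =
      ∫ θ in (-π)..π, ‖h (w + r * (cos θ + sin θ * Complex.I))‖ ^ 2 := by
    have hper : Function.Periodic (fun θ : ℝ => ‖h (circleMap w r θ)‖ ^ 2) (2 * π) := by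
      intro θ
      simp only
      rw [periodic_circleMap]
    have := hper.intervalIntegral_add_eq 0 (-π)
    rw [zero_add] at this
    have e : -π + 2 * π = π := by ring
    rw [e] at this
    rw [this]
    congr 1
    ext θ
    simp only [circleMap]
    rw [Complex.exp_mul_I]
    push_cast
    rfl
  rw [h4] at h3
  have hpi : 0 < 2 * π := by positivity
  calc 2 * π * ‖h w‖ ^ 2 ≤ 2 * π * ((2 * π)⁻¹ *
        ∫ θ in (-π)..π, ‖h (w + r * (cos θ + sin θ * Complex.I))‖ ^ 2) := by gcongr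
    _ = _ := by rw [← mul_assoc, mul_inv_cancel₀ hpi.ne', one_mul]

/-- **Area mean value inequality** for `‖h‖ ^ 2`, `h` holomorphic on a disc. -/
theorem area_mean (h : ℂ → ℂ) (w : ℂ) (ρ : ℝ) (hρ : 0 < ρ)
    (hh : DifferentiableOn ℂ h (ball w ρ)) :
    ENNReal.ofReal (π * ρ ^ 2 * ‖h w‖ ^ 2) ≤ ∫⁻ z in ball w ρ, ENNReal.ofReal (‖h z‖ ^ 2) := by
  set F : ℂ → ENNReal := fun z => ENNReal.ofReal (‖h z‖ ^ 2) with hF
  have e1 : ∫⁻ z in ball w ρ, F z = ∫⁻ z, (ball (0:ℂ) ρ).indicator (fun z => F (w + z)) z := by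
    rw [← lintegral_indicator measurableSet_ball]
    rw [← lintegral_add_left_eq_self (fun z => (ball w ρ).indicator F z) w]
    congr 1
    ext z
    simp only [indicator]
    congr 1
    simp [mem_ball, dist_eq_norm]
  rw [e1, ← Complex.lintegral_comp_polarCoord_symm]
  rw [show (polarCoord.target : Set (ℝ × ℝ)) = Ioi (0:ℝ) ×ˢ Ioo (-π) π from rfl]
  have hsub : (Ioo 0 ρ ×ˢ Ioo (-π) π : Set (ℝ × ℝ)) ⊆ Ioi (0:ℝ) ×ˢ Ioo (-π) π := by
    intro p hp
    exact ⟨hp.1.1, hp.2⟩
  refine le_trans ?_ (lintegral_mono_set hsub)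
  set G : ℝ × ℝ → ENNReal := fun p => ENNReal.ofReal p.1 *
    F (w + p.1 * (cos p.2 + sin p.2 * Complex.I)) with hG
  have hnorm : ∀ p : ℝ × ℝ, ‖(p.1 : ℂ) * (cos p.2 + sin p.2 * Complex.I)‖ = |p.1| := by
    intro p
    rw [norm_mul, Complex.norm_real, Real.norm_eq_abs]
    have : ‖((cos p.2 : ℝ) : ℂ) + (sin p.2 : ℝ) * Complex.I‖ = 1 := by
      push_cast
      exact Complex.norm_cos_add_sin_mul_I p.2
    rw [this, mul_one]
  have e2 : ∫⁻ p in (Ioo 0 ρ ×ˢ Ioo (-π) π : Set (ℝ × ℝ)), ENNReal.ofReal p.1 •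
      (ball (0:ℂ) ρ).indicator (fun z => F (w + z)) (Complex.polarCoord.symm p) =
      ∫⁻ p in (Ioo 0 ρ ×ˢ Ioo (-π) π : Set (ℝ × ℝ)), G p := by
    refine setLIntegral_congr_fun (measurableSet_Ioo.prod measurableSet_Ioo) fun p hp => ?_
    simp only [hG, smul_eq_mul, Complex.polarCoord_symm_apply]
    congr 1
    rw [indicator_of_mem]
    rw [mem_ball_zero_iff, hnorm, abs_of_pos hp.1.1]
    exact hp.1.2
  rw [e2]
  have hmaps : ∀ p ∈ (Ioo 0 ρ ×ˢ Ioo (-π) π : Set (ℝ × ℝ)),
      w + (p.1 : ℂ) * (cos p.2 + sin p.2 * Complex.I) ∈ ball w ρ := by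
    intro p hp
    rw [mem_ball, dist_eq_norm]
    have : w + (p.1 : ℂ) * (cos p.2 + sin p.2 * Complex.I) - w =
      (p.1 : ℂ) * (cos p.2 + sin p.2 * Complex.I) := by ring
    rw [this, hnorm, abs_of_pos hp.1.1]
    exact hp.1.2
  have hGm : AEMeasurable G (volume.restrict (Ioo 0 ρ ×ˢ Ioo (-π) π)) := by
    have hG' : G = (fun p : ℝ × ℝ => ENNReal.ofReal p.1) *
      (fun p : ℝ × ℝ => F (w + p.1 * (cos p.2 + sin p.2 * Complex.I))) := rfl
    rw [hG']
    apply AEMeasurable.mul
    · fun_prop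
    · apply AEMeasurable.ennreal_ofReal
      apply AEMeasurable.pow_const
      apply AEMeasurable.norm
      have hc : ContinuousOn (fun p : ℝ × ℝ => h (w + p.1 * (cos p.2 + sin p.2 * Complex.I)))
          (Ioo 0 ρ ×ˢ Ioo (-π) π) := by
        refine hh.continuousOn.comp ?_ hmaps
        fun_prop
      exact hc.aemeasurable (measurableSet_Ioo.prod measurableSet_Ioo)
  rw [Measure.volume_eq_prod, ← Measure.prod_restrict] at hGm ⊢
  rw [lintegral_prod _ hGm]
  have hinner : ∀ r ∈ Ioo 0 ρ, ENNReal.ofReal r * ENNReal.ofReal (2 * π * ‖h w‖ ^ 2) ≤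
      ∫⁻ θ in Ioo (-π) π, G (r, θ) := by
    intro r hr
    simp only [hG]
    rw [lintegral_const_mul' _ _ ENNReal.ofReal_ne_top]
    gcongr
    have hdc : DiffContOnCl ℂ h (ball w r) := by
      apply DifferentiableOn.diffContOnCl
      rw [closure_ball w hr.1.ne']
      exact hh.mono (closedBall_subset_ball hr.2)
    refine (ENNReal.ofReal_le_ofReal (circle_mean h w r hr.1 hdc)).trans (le_of_eq ?_)
    rw [intervalIntegral.integral_of_le (by linarith [pi_pos]), integral_Ioc_eq_integral_Ioo]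
    have hcont : Continuous (fun θ : ℝ => h (w + r * (cos θ + sin θ * Complex.I))) := by
      have hc : ContinuousOn h (closedBall w r) := by
        have := hdc.continuousOn
        rwa [closure_ball w hr.1.ne'] at this
      refine hc.comp_continuous (by fun_prop) fun θ => ?_
      rw [mem_closedBall, dist_eq_norm]
      have : w + (r : ℂ) * (cos θ + sin θ * Complex.I) - w =
        (r : ℂ) * (cos θ + sin θ * Complex.I) := by ring
      rw [this]
      have h5 := hnorm (r, θ)
      simp only at h5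
      rw [h5, abs_of_pos hr.1]
    rw [ofReal_integral_eq_lintegral_ofReal]
    · have : IntegrableOn (fun θ : ℝ => ‖h (w + r * (cos θ + sin θ * Complex.I))‖ ^ 2)
          (Icc (-π) π) := (hcont.norm.pow 2).continuousOn.integrableOn_Icc
      exact this.mono_set Ioo_subset_Icc_self
    · exact Eventually.of_forall fun θ => by positivity
  calc ENNReal.ofReal (π * ρ ^ 2 * ‖h w‖ ^ 2)
      = ∫⁻ r in Ioo 0 ρ, ENNReal.ofReal r * ENNReal.ofReal (2 * π * ‖h w‖ ^ 2) := by
        rw [lintegral_mul_const' _ _ ENNReal.ofReal_ne_top]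
        have : ∫⁻ r in Ioo 0 ρ, ENNReal.ofReal r = ENNReal.ofReal (ρ ^ 2 / 2) := by
          rw [← ofReal_integral_eq_lintegral_ofReal]
          · rw [← integral_Ioc_eq_integral_Ioo, ← intervalIntegral.integral_of_le hρ.le]
            rw [integral_id]
            simp
          · have : IntegrableOn (fun r : ℝ => r) (Icc 0 ρ) :=
              continuous_id.continuousOn.integrableOn_Icc
            exact this.mono_set Ioo_subset_Icc_self
          · filter_upwards [ae_restrict_mem measurableSet_Ioo] with r hr using hr.1.le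
        rw [this, ← ENNReal.ofReal_mul (by positivity)]
        congr 1
        ring
    _ ≤ ∫⁻ r in Ioo 0 ρ, ∫⁻ θ in Ioo (-π) π, G (r, θ) :=
        setLIntegral_mono' measurableSet_Ioo hinner

end Pool.Agent.Helper57.Dir
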