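import Pool.Agent.Helper57.Dir.Main1

/-!
# The uniqueness estimate
-/

set_option autoImplicit false

namespace Pool.Agent.Helper57.Dir

open Filter MeasureTheory Metric Real Set Topology

section

variable {f : ℂ → ℂ}

lemma PV_integrable_prod (hf : DifferentiableOn ℂ f (ball 0 1)) {ρ : ℝ} (h0 : 0 ≤ ρ) (h1 : ρ < 1)
    {y : ℝ} (hy : 0 < y) :
    Integrable (Function.uncurry fun θ x : ℝ => PK ρ θ x / (2 * π) * ‖pull f ⟨x, y⟩‖ ^ 2)
      ((volume.restrict (Ioo 0 (2 * π))).prod (volume.restrict (Ioo 0 (2 * π)))) := by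
  have hc := continuous_slice (pull_diff hf) hy
  have hcont : Continuous (Function.uncurry fun θ x : ℝ =>
      PK ρ θ x / (2 * π) * ‖pull f ⟨x, y⟩‖ ^ 2) := by
    have h2 : Continuous (fun p : ℝ × ℝ => ‖pull f ⟨p.2, y⟩‖ ^ 2) :=
      (hc.comp continuous_snd).norm.pow 2
    exact ((PK_cont h0 h1).div_const _).mul h2
  rw [Measure.prod_restrict]
  have hint : IntegrableOn (Function.uncurry fun θ x : ℝ =>
      PK ρ θ x / (2 * π) * ‖pull f ⟨x, y⟩‖ ^ 2) (Icc 0 (2 * π) ×ˢ Icc 0 (2 * π))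
      ((volume : Measure ℝ).prod volume) :=
    hcont.continuousOn.integrableOn_compact (isCompact_Icc.prod isCompact_Icc)
  exact hint.mono_set (prod_mono Ioo_subset_Icc_self Ioo_subset_Icc_self)

lemma PV_integrable (hf : DifferentiableOn ℂ f (ball 0 1)) {ρ : ℝ} (h0 : 0 ≤ ρ) (h1 : ρ < 1)
    {y : ℝ} (hy : 0 < y) : IntegrableOn (fun θ => PV f ρ y θ) (Ioo 0 (2 * π)) :=
  (PV_integrable_prod hf h0 h1 hy).integral_prod_left

lemma PV_integral (hf : DifferentiableOn ℂ f (ball 0 1)) {ρ : ℝ} (h0 : 0 ≤ ρ) (h1 : ρ < 1)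
    {y : ℝ} (hy : 0 < y) : ∫ θ in Ioo 0 (2 * π), PV f ρ y θ = Ms (pull f) y := by
  unfold PV
  rw [integral_integral_swap (PV_integrable_prod hf h0 h1 hy)]
  unfold Ms
  refine setIntegral_congr_fun measurableSet_Ioo fun x _ => ?_
  rw [integral_mul_const]
  have : ∫ θ in Ioo 0 (2 * π), PK ρ θ x / (2 * π) = 1 := by
    simp_rw [PK_symm ρ _ x]
    exact P_int_one h0 h1 x
  rw [this, one_mul]

lemma X_le_V' (hf : DifferentiableOn ℂ f (ball 0 1)) {p : ℂ} (hp : p ∈ ball (0:ℂ) 1)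
    (hfp : f p ≠ 0) {θ y δ : ℝ} (hy : 0 < y) (hδ : 0 < δ) (hδ1 : δ ≤ 1) :
    ‖pull f ⟨θ, y + δ⟩‖ ^ 2 ≤ PV f (Real.exp (-δ)) y θ := by
  obtain ⟨hρ0, hρ1, -, -⟩ := exp_neg_facts hδ hδ1
  by_cases hne : pull f ⟨θ, y + δ⟩ = 0
  · rw [hne]
    simp only [norm_zero]
    have hVn : 0 ≤ PV f (Real.exp (-δ)) y θ := by
      apply integral_nonneg
      intro x
      have := PK_nonneg hρ0.le hρ1 θ x
      positivity
    norm_num
    exact hVn
  · exact (X_le_V hf hp hfp hy hδ hδ1 hne).2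

/-- `L²` smallness on the arc. -/
lemma X_small (hf : DifferentiableOn ℂ f (ball 0 1))
    (hI : IntegrableOn (fun w => ‖deriv (pull f) w‖ ^ 2) Om)
    {p : ℂ} (hp : p ∈ ball (0:ℂ) 1) (hfp : f p ≠ 0)
    {s δ : ℝ} {m : ℕ} (hs : 0 < s) (hs1 : s ≤ 1) (hm : 0 < m) (hδ : δ = s / m) (hδ1 : δ ≤ 1 / 2)
    {k : ℕ} (hk : 200 ≤ k) (hk2 : 1 / 2 ^ k ≤ Real.sqrt δ)
    {l : ℝ} (hl : l = 200 * δ / k / 4 ^ k)
    (hlim : ∀ i : ℕ, i < m → ∀ j : ℕ, j < 4 ^ k → ∀ κ ∈ KC,
      Tendsto (fun y : ℝ => pull f ⟨i * δ + j * l + l * κ, y⟩) (𝓝[>] 0) (𝓝 0)) :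
    ∫ θ in Ioo 0 s, ‖pull f ⟨θ, l / 2 + δ⟩‖ ^ 2 ≤
      Real.sqrt δ * (2 * Ms (pull f) 1 + 4 * en (pull f) Om + 409600 * (en (pull f) Om + 1)) := by
  have hmr : (0 : ℝ) < m := by exact_mod_cast hm
  have hδ0 : 0 < δ := by rw [hδ]; positivity
  have hkr : (200 : ℝ) ≤ k := by exact_mod_cast hk
  have hk0 : (0 : ℝ) < k := by linarith
  have hl0 : 0 < l := by rw [hl]; positivity
  have hy : 0 < l / 2 := by positivity
  obtain ⟨hρ0, hρ1, hρ2, hρ3⟩ := exp_neg_facts hδ0 (by linarith)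
  have hlδ : l ≤ δ := by
    rw [hl]
    have h1 : 200 * δ / k ≤ δ := by
      rw [div_le_iff₀ hk0]; nlinarith
    have h2 : (1:ℝ) ≤ 4 ^ k := one_le_pow₀ (by norm_num)
    calc 200 * δ / k / 4 ^ k ≤ 200 * δ / k / 1 := by gcongr
      _ ≤ δ := by rw [div_one]; exact h1
  have hpi := Real.pi_gt_three
  set D0 := en (pull f) Om with hD0
  have hD0n : 0 ≤ D0 := en_nonneg _ _
  set X : ℝ → ℝ := fun θ => ‖pull f ⟨θ, l / 2 + δ⟩‖ ^ 2 with hX
  set V : ℝ → ℝ := fun θ => PV f (Real.exp (-δ)) (l / 2) θ with hV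
  have hXV : ∀ θ, X θ ≤ V θ := fun θ => X_le_V' hf hp hfp hy hδ0 (by linarith)
  set ε := 409600 * (D0 + 1) / 2 ^ k with hε
  have hdich : ∀ θ ∈ Ioo 0 s, X θ ≤ (V θ - X θ) + ε := by
    intro θ hθ
    set i := ⌊θ / δ⌋₊ with hi
    have h1 : (i : ℝ) ≤ θ / δ := Nat.floor_le (by have := hθ.1; positivity)
    have h2 : θ / δ < i + 1 := Nat.lt_floor_add_one _
    rw [le_div_iff₀ hδ0] at h1
    rw [div_lt_iff₀ hδ0] at h2
    have him : i < m := by
      have h3 : (i : ℝ) * δ < m * δ := by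
        have : (m : ℝ) * δ = s := by rw [hδ]; field_simp
        rw [this]
        exact lt_of_le_of_lt h1 hθ.2
      have h4 : (i : ℝ) < m := lt_of_mul_lt_mul_right h3 hδ0.le
      exact_mod_cast h4
    have hdi := dichotomy hf hI hp hfp hδ0 (by linarith) hk hl (b := i * δ) (θ := θ)
      (by positivity) (by
        have := hθ.2
        linarith) h1 (by linarith) (fun j hj κ hκ => hlim i him j hj κ hκ)
    exact hdi.1
  have hsub : Ioo 0 s ⊆ Ioo 0 (2 * π) := fun x hx => ⟨hx.1, by linarith [hx.2]⟩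
  have hXint : IntegrableOn X (Ioo 0 (2 * π)) := slice_int (pull_diff hf) (by positivity) _ _
  have hVint : IntegrableOn V (Ioo 0 (2 * π)) := PV_integrable hf hρ0.le hρ1 hy
  have hcint : IntegrableOn (fun _ : ℝ => ε) (Ioo 0 s) := integrableOn_const (by simp)
  have h1 : ∫ θ in Ioo 0 s, X θ ≤ (∫ θ in Ioo 0 s, (V θ - X θ)) + s * ε := by
    have h2 : ∫ θ in Ioo 0 s, X θ ≤ ∫ θ in Ioo 0 s, ((V θ - X θ) + ε) :=
      setIntegral_mono_on (hXint.mono_set hsub) (((hVint.sub hXint).mono_set hsub).add hcint)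
        measurableSet_Ioo hdich
    have h3 : ∫ θ in Ioo 0 s, ((V θ - X θ) + ε) = (∫ θ in Ioo 0 s, (V θ - X θ)) + s * ε := by
      have h4 : IntegrableOn (fun θ => V θ - X θ) (Ioo 0 s) := (hVint.sub hXint).mono_set hsub
      rw [integral_add h4 hcint, setIntegral_const, smul_eq_mul, Real.volume_real_Ioo_of_le hs.le,
        sub_zero]
    rwa [h3] at h2
  have h2 : ∫ θ in Ioo 0 s, (V θ - X θ) ≤ ∫ θ in Ioo 0 (2 * π), (V θ - X θ) := by
    refine setIntegral_mono_set (hVint.sub hXint) ?_ hsub.eventuallyLE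
    exact Eventually.of_forall fun θ => sub_nonneg.2 (hXV θ)
  have h3 : ∫ θ in Ioo 0 (2 * π), (V θ - X θ) = Ms (pull f) (l / 2) - Ms (pull f) (l / 2 + δ) := by
    rw [integral_sub hVint hXint, PV_integral hf hρ0.le hρ1 hy]
    rfl
  have hsq : 0 < Real.sqrt δ := Real.sqrt_pos.2 hδ0
  have hsq2 : Real.sqrt δ * Real.sqrt δ = δ := Real.mul_self_sqrt hδ0.le
  have hsq1 : Real.sqrt δ ≤ 1 := by
    rw [Real.sqrt_le_one]; linarith
  have h4 := Ms_diff (pull_diff hf) hI hy (by linarith : l / 2 ≤ l / 2 + δ) hsq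
  have h5 := Ms_bound (pull_diff hf) hI (y := l / 2 + δ) (by positivity) (by linarith)
  rw [← hD0] at h4 h5
  have e1 : l / 2 + δ - l / 2 = δ := by ring
  rw [e1] at h4
  have h6 : (1 + 1 / Real.sqrt δ) * (δ * D0) ≤ 2 * Real.sqrt δ * D0 := by
    have e2 : (1 + 1 / Real.sqrt δ) * (δ * D0) = (δ + Real.sqrt δ) * D0 := by
      have : 1 / Real.sqrt δ * δ = Real.sqrt δ := by
        rw [one_div, inv_mul_eq_iff_eq_mul₀ hsq.ne']
        exact hsq2.symm
      calc (1 + 1 / Real.sqrt δ) * (δ * D0) = (δ + 1 / Real.sqrt δ * δ) * D0 := by ring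
        _ = _ := by rw [this]
    rw [e2]
    have : δ ≤ Real.sqrt δ := by nlinarith
    nlinarith
  have h7 : Ms (pull f) (l / 2) - Ms (pull f) (l / 2 + δ) ≤
      Real.sqrt δ * (2 * Ms (pull f) 1 + 2 * D0) + 2 * Real.sqrt δ * D0 := by
    have h8 : Real.sqrt δ * Ms (pull f) (l / 2 + δ) ≤ Real.sqrt δ * (2 * Ms (pull f) 1 + 2 * D0) :=
      mul_le_mul_of_nonneg_left h5 hsq.le
    linarith
  have h8 : s * ε ≤ Real.sqrt δ * (409600 * (D0 + 1)) := by
    have h9 : ε = 409600 * (D0 + 1) * (1 / 2 ^ k) := by rw [hε]; ring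
    have h10 : 0 ≤ ε := by rw [hε]; positivity
    calc s * ε ≤ 1 * ε := by gcongr
      _ = 409600 * (D0 + 1) * (1 / 2 ^ k) := by rw [one_mul, h9]
      _ ≤ 409600 * (D0 + 1) * Real.sqrt δ := by gcongr
      _ = _ := by ring
  calc ∫ θ in Ioo 0 s, ‖pull f ⟨θ, l / 2 + δ⟩‖ ^ 2 ≤
      (Ms (pull f) (l / 2) - Ms (pull f) (l / 2 + δ)) + s * ε := by
        rw [← h3]
        exact h1.trans (by linarith)
    _ ≤ _ := by linarith

/-- The kernel bounds. -/
lemma ker_bounds {p : ℂ} (hp : ‖p‖ < 1) {R : ℝ} (hR1 : R ≤ 1) (hR : (1 + ‖p‖) / 2 ≤ R) {z : ℂ}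
    (hz : ‖z‖ = R) :
    (1 - ‖p‖) / 4 ≤ ker p z ∧ ker p z ≤ 4 / (1 - ‖p‖) := by
  have hpn := norm_nonneg p
  have hpR : ‖p‖ < R := by linarith
  have hzs : z ∈ sphere (0:ℂ) R := by simpa using hz
  have hpb : p ∈ ball (0:ℂ) R := by simpa using hpR
  have h1 := re_herglotzRieszKernel_le hzs hpb
  have h2 := le_re_herglotzRieszKernel hzs hpb
  have e : ker p z = ((z - 0 + (p - 0)) / ((z - 0) - (p - 0))).re := by
    rw [ker]; rfl
  rw [← e, sub_zero p] at h1 h2
  constructor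
  · refine le_trans ?_ h2
    rw [div_le_div_iff₀ (by norm_num) (by linarith)]
    nlinarith
  · refine h1.trans ?_
    rw [div_le_div_iff₀ (by linarith) (by linarith)]
    nlinarith

/-- **Main uniqueness estimate.** -/
theorem uniq_bound (hf : DifferentiableOn ℂ f (ball 0 1))
    (hI : IntegrableOn (fun w => ‖deriv (pull f) w‖ ^ 2) Om)
    {p : ℂ} (hp : ‖p‖ < 1) (hfp : f p ≠ 0) :
    ∃ C : ℝ, ∀ (s δ : ℝ) (m : ℕ), 0 < s → s ≤ 1 → 0 < m → δ = s / m → δ ≤ (1 - ‖p‖) / 4 →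
      ∀ (k : ℕ), 200 ≤ k → 1 / 2 ^ k ≤ Real.sqrt δ →
      ∀ l : ℝ, l = 200 * δ / k / 4 ^ k →
      (∀ i : ℕ, i < m → ∀ j : ℕ, j < 4 ^ k → ∀ κ ∈ KC,
        Tendsto (fun y : ℝ => pull f ⟨i * δ + j * l + l * κ, y⟩) (𝓝[>] 0) (𝓝 0)) →
      s * Real.log (1 / δ) ≤ C := by
  set D0 := en (pull f) Om with hD0
  have hD0n : 0 ≤ D0 := en_nonneg _ _
  set B := 2 * Ms (pull f) 1 + 2 * D0 with hB
  have hBn : 0 ≤ B := by
    have := Ms_nonneg (g := pull f) 1
    positivity
  set C1 := 2 * Ms (pull f) 1 + 4 * D0 + 409600 * (D0 + 1) with hC1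
  have hC1n : 0 ≤ C1 := by
    have := Ms_nonneg (g := pull f) 1
    positivity
  set cp := (1 - ‖p‖) / 4 with hcp
  have hcp0 : 0 < cp := by rw [hcp]; linarith
  refine ⟨(4 / cp) * ((1 / cp) * C1 + (1 / cp) * B - 4 * π * Real.log ‖f p‖), ?_⟩
  intro s δ m hs hs1 hm hδ hδp k hk hk2 l hl hlim
  have hmr : (0 : ℝ) < m := by exact_mod_cast hm
  have hδ0 : 0 < δ := by rw [hδ]; positivity
  have hpn := norm_nonneg p
  have hδ4 : δ ≤ 1 / 4 := by
    refine hδp.trans ?_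
    rw [hcp]; linarith
  have hkr : (200 : ℝ) ≤ k := by exact_mod_cast hk
  have hk0 : (0 : ℝ) < k := by linarith
  have hl0 : 0 < l := by rw [hl]; positivity
  have hlδ : l ≤ δ := by
    rw [hl]
    have h1 : 200 * δ / k ≤ δ := by
      rw [div_le_iff₀ hk0]; nlinarith
    have h2 : (1:ℝ) ≤ 4 ^ k := one_le_pow₀ (by norm_num)
    calc 200 * δ / k / 4 ^ k ≤ 200 * δ / k / 1 := by gcongr
      _ ≤ δ := by rw [div_one]; exact h1
  have hpi := Real.pi_gt_three
  have hpball : p ∈ ball (0:ℂ) 1 := by simpa using hp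
  have hsmall := X_small hf hI hpball hfp hs hs1 hm hδ (by linarith) hk hk2 hl hlim
  rw [← hD0, ← hC1] at hsmall
  set y1 := l / 2 + δ with hy1
  have hy10 : 0 < y1 := by positivity
  set R := Real.exp (-y1) with hR
  have hR0 : 0 < R := Real.exp_pos _
  have hR1 : R < 1 := by
    rw [hR, ← Real.exp_zero]; exact Real.exp_lt_exp.2 (by linarith)
  have hRp : (1 + ‖p‖) / 2 ≤ R := by
    have h1 := Real.add_one_le_exp (-y1)
    rw [← hR] at h1
    rw [hcp] at hδp
    linarith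
  have hfan : AnalyticOnNhd ℂ f (closedBall 0 R) := by
    intro z hz
    apply hf.analyticAt
    apply isOpen_ball.mem_nhds
    exact closedBall_subset_ball hR1 hz
  have hw : p ∈ ball (0 : ℂ) R := by
    rw [mem_ball_zero_iff]; linarith
  have hPJ := poissonJensen_le hR0 hfan hw hfp
  set K : ℝ → ℝ := fun x => ker p (circleMap 0 R x) with hK
  have hKb : ∀ x, cp ≤ K x ∧ K x ≤ 1 / cp := by
    intro x
    have h1 := ker_bounds hp hR1.le hRp (z := circleMap 0 R x) (by simp [abs_of_pos hR0])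
    refine ⟨h1.1, h1.2.trans (le_of_eq ?_)⟩
    rw [hcp]
    field_simp
  have hK0 : ∀ x, 0 ≤ K x := fun x => hcp0.le.trans (hKb x).1
  have hKc : Continuous K := by
    have h1 := ker_continuousOn hw
    apply h1.comp_continuous (continuous_circleMap 0 R)
    intro x
    exact circleMap_mem_sphere' 0 R x
  have hKi : ∀ S : Set ℝ, S ⊆ Ioo 0 (2 * π) → IntegrableOn K S := by
    intro S hS
    have : IntegrableOn K (Icc 0 (2 * π)) := hKc.continuousOn.integrableOn_Icc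
    exact this.mono_set (hS.trans Ioo_subset_Icc_self)
  set X : ℝ → ℝ := fun x => ‖pull f ⟨x, y1⟩‖ ^ 2 with hX
  have hXn : ∀ x, 0 ≤ X x := fun x => by positivity
  have hXc : Continuous X := (continuous_slice (pull_diff hf) hy10).norm.pow 2
  have hXi : ∀ S : Set ℝ, S ⊆ Ioo 0 (2 * π) → IntegrableOn X S := by
    intro S hS
    have : IntegrableOn X (Icc 0 (2 * π)) := hXc.continuousOn.integrableOn_Icc
    exact this.mono_set (hS.trans Ioo_subset_Icc_self)
  have hKXi : ∀ S : Set ℝ, S ⊆ Ioo 0 (2 * π) → IntegrableOn (fun x => K x * X x) S := by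
    intro S hS
    have : IntegrableOn (fun x => K x * X x) (Icc 0 (2 * π)) :=
      (hKc.mul hXc).continuousOn.integrableOn_Icc
    exact this.mono_set (hS.trans Ioo_subset_Icc_self)
  have hfx : ∀ x : ℝ, f (circleMap 0 R x) = pull f ⟨x, y1⟩ := by
    intro x
    rw [pull, phi_eq]
  have hci : CircleIntegrable (fun z => Real.log ‖f z‖) 0 R := by
    apply MeromorphicOn.circleIntegrable_log_norm
    rw [abs_of_pos hR0]
    exact (hfan.mono sphere_subset_closedBall).meromorphicOn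
  have hci2 : CircleIntegrable (ker p * fun z => Real.log ‖f z‖) 0 R :=
    hci.continuousOn_smul (ker_continuousOn hw)
  have e1 : ∀ x : ℝ, (ker p * fun z => Real.log ‖f z‖) (circleMap 0 R x) =
      K x * Real.log (X x) / 2 := by
    intro x
    simp only [Pi.mul_apply, hK, hX]
    rw [hfx]
    have e9 : Real.log (‖pull f ⟨x, y1⟩‖ ^ 2) = 2 * Real.log ‖pull f ⟨x, y1⟩‖ := by
      rw [Real.log_pow]; norm_num
    rw [e9]
    ring
  have hLi : IntegrableOn (fun x => K x * Real.log (X x)) (Ioo 0 (2 * π)) := by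
    have h1 := hci2
    unfold CircleIntegrable at h1
    simp_rw [e1] at h1
    rw [intervalIntegrable_iff_integrableOn_Ioc_of_le (by positivity)] at h1
    have h2 := (h1.mono_set Ioo_subset_Ioc_self).const_mul 2
    refine h2.congr (Eventually.of_forall fun x => ?_)
    simp only
    ring
  have hPJ2 : 4 * π * Real.log ‖f p‖ ≤ ∫ x in Ioo 0 (2 * π), K x * Real.log (X x) := by
    rw [circleAverage_def] at hPJ
    simp_rw [e1] at hPJ
    rw [intervalIntegral.integral_of_le (by positivity), integral_Ioc_eq_integral_Ioo,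
      integral_div, smul_eq_mul] at hPJ
    have hpi2 : (0:ℝ) < 2 * π := by positivity
    have := mul_le_mul_of_nonneg_left hPJ hpi2.le
    rw [← mul_assoc, mul_inv_cancel₀ hpi2.ne', one_mul] at this
    linarith
  have hG : ∀ᵐ x : ℝ, 0 < X x := by
    filter_upwards [ae_ne hf hpball hfp hy10] with x hx
    simp only [hX]
    positivity
  have hsub1 : Ioo 0 s ⊆ Ioo 0 (2 * π) := fun x hx => ⟨hx.1, by linarith [hx.2]⟩
  set S2 := Ioo 0 (2 * π) \ Ioo 0 s with hS2
  have hsub2 : S2 ⊆ Ioo 0 (2 * π) := fun x hx => hx.1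
  have hsplit : ∫ x in Ioo 0 (2 * π), K x * Real.log (X x) =
      (∫ x in Ioo 0 s, K x * Real.log (X x)) + ∫ x in S2, K x * Real.log (X x) := by
    have h1 := integral_inter_add_sdiff (measurableSet_Ioo (a := (0:ℝ)) (b := s)) hLi
    rw [inter_eq_self_of_subset_right hsub1] at h1
    exact h1.symm
  -- choice of the constant
  set c := Real.sqrt (Real.sqrt δ) with hc
  have hc0 : 0 < c := by positivity
  have hcc : c * c = Real.sqrt δ := Real.mul_self_sqrt (Real.sqrt_nonneg _)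
  have hlogc : Real.log c = -(1 / 4) * Real.log (1 / δ) := by
    rw [hc, Real.log_sqrt (Real.sqrt_nonneg _), Real.log_sqrt hδ0.le, one_div δ, Real.log_inv]
    ring
  have hlogδ : 0 ≤ Real.log (1 / δ) := by
    apply Real.log_nonneg
    rw [le_div_iff₀ hδ0]; linarith
  have hlogc0 : Real.log c ≤ 0 := by rw [hlogc]; linarith
  have hc1 : c ≤ 1 := by
    by_contra hcon
    push Not at hcon
    have := Real.log_pos hcon
    linarith
  have hA := logavg_le (S := Ioo 0 s) hK0 (hKi _ hsub1) (hKXi _ hsub1) (hLi.mono_set hsub1) hG hc0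
  have hA2 : ∫ x in Ioo 0 s, K x * Real.log (X x) ≤ cp * s * Real.log c + (1 / cp) * C1 := by
    have h1 : cp * s ≤ ∫ x in Ioo 0 s, K x := by
      have h2 : ∫ x in Ioo 0 s, cp ≤ ∫ x in Ioo 0 s, K x :=
        setIntegral_mono (integrableOn_const (by simp)) (hKi _ hsub1) fun x => (hKb x).1
      rw [setIntegral_const, smul_eq_mul, Real.volume_real_Ioo_of_le hs.le, sub_zero] at h2
      linarith
    have h2 : (Real.log c - 1) * (∫ x in Ioo 0 s, K x) ≤ (Real.log c - 1) * (cp * s) :=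
      mul_le_mul_of_nonpos_left h1 (by linarith)
    have h3 : ∫ x in Ioo 0 s, K x * X x ≤ (1 / cp) * (c * c * C1) := by
      have h4 : ∫ x in Ioo 0 s, K x * X x ≤ ∫ x in Ioo 0 s, (1 / cp) * X x :=
        setIntegral_mono (hKXi _ hsub1) ((hXi _ hsub1).const_mul _)
          fun x => mul_le_mul_of_nonneg_right (hKb x).2 (hXn x)
      rw [integral_const_mul] at h4
      rw [hcc]
      refine h4.trans ?_
      gcongr
    have h5 : (∫ x in Ioo 0 s, K x * X x) / c ≤ (1 / cp) * C1 := by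
      rw [div_le_iff₀ hc0]
      refine h3.trans ?_
      have h6 : c * c * C1 ≤ C1 * c := by nlinarith [mul_nonneg hc0.le hC1n]
      calc (1 / cp) * (c * c * C1) ≤ (1 / cp) * (C1 * c) := by gcongr
        _ = _ := by ring
    have h6 : 0 ≤ cp * s := by positivity
    nlinarith
  have hB2 := logavg_le (S := S2) hK0 (hKi _ hsub2) (hKXi _ hsub2) (hLi.mono_set hsub2) hG one_pos
  have hB3 : ∫ x in S2, K x * Real.log (X x) ≤ (1 / cp) * B := by
    have h1 : 0 ≤ ∫ x in S2, K x := integral_nonneg hK0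
    have h2 : ∫ x in S2, K x * X x ≤ (1 / cp) * B := by
      have h4 : ∫ x in S2, K x * X x ≤ ∫ x in S2, (1 / cp) * X x :=
        setIntegral_mono (hKXi _ hsub2) ((hXi _ hsub2).const_mul _)
          fun x => mul_le_mul_of_nonneg_right (hKb x).2 (hXn x)
      rw [integral_const_mul] at h4
      refine h4.trans ?_
      have h5 : ∫ x in S2, X x ≤ Ms (pull f) y1 :=
        setIntegral_mono_set (hXi _ subset_rfl) (Eventually.of_forall hXn) hsub2.eventuallyLE
      have h6 := Ms_bound (pull_diff hf) hI (y := y1) hy10 (by linarith)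
      rw [← hD0, ← hB] at h6
      have h7 : ∫ x in S2, X x ≤ B := h5.trans h6
      gcongr
    rw [Real.log_one, div_one] at hB2
    linarith
  have hfin : 4 * π * Real.log ‖f p‖ ≤ cp * s * Real.log c + (1 / cp) * C1 + (1 / cp) * B := by
    rw [hsplit] at hPJ2
    linarith
  rw [hlogc] at hfin
  have hfin2 : cp / 4 * (s * Real.log (1 / δ)) ≤ (1 / cp) * C1 + (1 / cp) * B -
      4 * π * Real.log ‖f p‖ := by nlinarith
  have h4cp : 0 < 4 / cp := by positivity
  calc s * Real.log (1 / δ) = (4 / cp) * (cp / 4 * (s * Real.log (1 / δ))) := by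
        field_simp
    _ ≤ _ := by gcongr

end

end Pool.Agent.Helper57.Dir
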