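import Pool.Agent.Helper57.Dir.Glob2
import Pool.Agent.Helper57.Dir.Main2

/-!
# Final assembly
-/

set_option autoImplicit false

namespace Pool.Agent.Helper57.Dir

open Filter MeasureTheory Metric Real Set Topology

/-- number of clusters at scale `n` -/
def mn (n : ℕ) : ℕ := 2 ^ (8 ^ n)

lemma mn_pos (n : ℕ) : 0 < mn n := by unfold mn; positivity

lemma radial_to_pull {f : ℂ → ℂ} {θ : ℝ}
    (h : Tendsto (fun r : ℝ => f (r * circleMap 0 1 θ)) (𝓝[<] 1) (𝓝 0)) :
    Tendsto (fun y : ℝ => pull f ⟨θ, y⟩) (𝓝[>] 0) (𝓝 0) := by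
  have h1 : Tendsto (fun y : ℝ => Real.exp (-y)) (𝓝[>] 0) (𝓝[<] 1) := by
    apply tendsto_nhdsWithin_iff.2
    constructor
    · have h2 : Continuous fun y : ℝ => Real.exp (-y) := by fun_prop
      have h3 := h2.tendsto 0
      simp only [neg_zero, Real.exp_zero] at h3
      exact h3.mono_left nhdsWithin_le_nhds
    · filter_upwards [self_mem_nhdsWithin] with y hy
      have hy' : 0 < y := hy
      rw [mem_Iio, ← Real.exp_zero]
      exact Real.exp_lt_exp.2 (by linarith)
  have h4 := h.comp h1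
  refine h4.congr fun y => ?_
  simp only [Function.comp_apply]
  rw [pull, phi_eq, circleMap_scale (Real.exp (-y)) θ]

lemma scale_tendsto : Tendsto (fun n => sn n * Real.log (1 / (sn n / mn n))) atTop atTop := by
  have h1 : ∀ n, (Real.log 2 / 4) * 4 ^ n ≤ sn n * Real.log (1 / (sn n / mn n)) := by
    intro n
    have hs := sn_pos n
    have hs1 := sn_le n
    have hm : (0:ℝ) < mn n := by exact_mod_cast mn_pos n
    have h2 : Real.log (mn n) ≤ Real.log (1 / (sn n / mn n)) := by
      apply Real.log_le_log hm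
      rw [one_div_div, le_div_iff₀ hs]
      nlinarith
    have h3 : Real.log (mn n) = 8 ^ n * Real.log 2 := by
      unfold mn
      push_cast
      rw [Real.log_pow]
      push_cast
      ring
    have h4 : (Real.log 2 / 4) * 4 ^ n = sn n * (8 ^ n * Real.log 2) := by
      unfold sn
      have : (4:ℝ) ^ n = (1 / 2) ^ n * 8 ^ n := by rw [← mul_pow]; norm_num
      rw [this]; ring
    rw [h4, ← h3]
    gcongr
  refine tendsto_atTop_mono h1 ?_
  apply Tendsto.const_mul_atTop
  · have := Real.log_pos (by norm_num : (1:ℝ) < 2)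
    positivity
  · exact tendsto_pow_atTop_atTop_of_one_lt (by norm_num)

lemma delta_tendsto : Tendsto (fun n => sn n / (mn n : ℝ)) atTop (𝓝 0) := by
  refine squeeze_zero (fun n => ?_) (fun n => ?_) sn_tendsto
  · have := sn_pos n
    positivity
  · have h1 := sn_pos n
    have h2 : (1:ℝ) ≤ mn n := by exact_mod_cast mn_pos n
    exact div_le_self h1.le h2

theorem final_main : ∃ E : Set ℂ, IsClosed E ∧ E ⊆ sphere 0 1 ∧
    (∀ f : ℂ → ℂ, DifferentiableOn ℂ f (ball 0 1) →
      IntegrableOn (fun z => ‖deriv f z‖ ^ 2) (ball 0 1) →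
      (∀ ζ ∈ E, Tendsto (fun r : ℝ => f (r * ζ)) (𝓝[<] 1) (𝓝 0)) → ∀ z ∈ ball (0:ℂ) 1, f z = 0) ∧
    ∃ u : ℂ → ℝ, Continuous u ∧ HasCompactSupport u ∧ (∀ z, 0 ≤ u z) ∧ MemW12 u ∧
      (∀ ζ ∈ E, u ζ = 0) ∧
      (∀ᵐ x ∂(volume.restrict (Ioc (-π) π)), 0 < u (circleMap 0 1 x)) ∧
      IntegrableOn (fun x => Real.log (u (circleMap 0 1 x))) (Ioc (-π) π) := by
  have hg := fun n : ℕ => group_exists (s := sn n) (δ := sn n / mn n) (m := mn n) (sn_pos n) (sn_le n)
    (mn_pos n) rfl (ε := (1 / 4) ^ n) (by positivity)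
  choose k hk200 hk2 F b hlip h01 hfar hzero hbm hbn hbe hsl hpos hlg using hg
  have D : GroupData F b := ⟨hlip, fun n z => (h01 n z).1, fun n z => (h01 n z).2, hfar, hbm, hbn, hbe,
    hsl, hpos, hlg⟩
  refine ⟨{ζ | ζ ∈ sphere (0:ℂ) 1 ∧ uu F ζ = 0}, ?_, fun ζ hζ => hζ.1, ?_, uu F, uu_continuous D,
    uu_compact, fun z => (uu_mem D z).1, uu_W12 D, fun ζ hζ => hζ.2, uu_pos D, uu_log D⟩
  · exact isClosed_sphere.inter (isClosed_eq (uu_continuous D) continuous_const)
  · intro f hf hint hrad p hp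
    by_contra hfp
    rw [mem_ball_zero_iff] at hp
    have hI : IntegrableOn (fun w => ‖deriv (pull f) w‖ ^ 2) Om := by
      refine ⟨?_, ?_⟩
      · have hd : DifferentiableOn ℂ (pull f) Om := fun w hw =>
          (hasDerivAt_pull hf hw.2.2).differentiableAt.differentiableWithinAt
        have hc : ContinuousOn (deriv (pull f)) Om := (hd.deriv isOpen_Om).continuousOn
        exact ((hc.norm.pow 2).aestronglyMeasurable isOpen_Om.measurableSet)
      · have h1 := pull_energy_le hf
        have h2 : ∫⁻ z in ball (0:ℂ) 1, ENNReal.ofReal (‖deriv f z‖ ^ 2) < ⊤ := by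
          have := hint.2
          unfold HasFiniteIntegral at this
          refine lt_of_le_of_lt (le_of_eq ?_) this
          congr 1
          ext z
          rw [Real.enorm_eq_ofReal (by positivity)]
        unfold HasFiniteIntegral
        refine lt_of_le_of_lt (le_of_eq ?_) (lt_of_le_of_lt h1 h2)
        congr 1
        ext z
        rw [Real.enorm_eq_ofReal (by positivity)]
    obtain ⟨C, hC⟩ := uniq_bound hf hI hp hfp
    have hcp : 0 < (1 - ‖p‖) / 4 := by linarith
    obtain ⟨n, hn1, hn2⟩ := ((scale_tendsto.eventually (eventually_gt_atTop C)).and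
      (delta_tendsto.eventually (gt_mem_nhds hcp))).exists
    have := hC (sn n) (sn n / mn n) (mn n) (sn_pos n) (by linarith [sn_le n]) (mn_pos n) rfl hn2.le (k n)
      (hk200 n) (hk2 n) _ rfl (by
        intro i hi j hj κ hκ
        apply radial_to_pull
        apply hrad
        refine ⟨by simp, ?_⟩
        exact uu_zero D (hzero n _ rfl i hi j hj κ hκ))
    linarith

end Pool.Agent.Helper57.Dir
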