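import Pool.Agent.Helper57.Dir.Real5
import Mathlib.Analysis.Calculus.Rademacher
import Mathlib.Analysis.Calculus.LineDeriv.Measurable

/-!
# Assembling the function: infinite products of group functions
-/

set_option autoImplicit false

namespace Pool.Agent.Helper57.Dir

open Filter MeasureTheory Metric Real Set Topology

/-- scales -/
noncomputable def sn (n : ℕ) : ℝ := (1 / 4) * (1 / 2) ^ n

lemma sn_pos (n : ℕ) : 0 < sn n := by unfold sn; positivity

lemma sn_anti {n N : ℕ} (h : N ≤ n) : sn n ≤ sn N := by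
  unfold sn
  gcongr ?_ * ?_
  exact pow_le_pow_of_le_one (by norm_num) (by norm_num) h

lemma sn_le (n : ℕ) : sn n ≤ 1 / 4 := by
  have := sn_anti (Nat.zero_le n)
  have h0 : sn 0 = 1 / 4 := by unfold sn; norm_num
  linarith

lemma sn_tendsto : Tendsto sn atTop (𝓝 0) := by
  have : Tendsto (fun n : ℕ => (1 / 4 : ℝ) * (1 / 2) ^ n) atTop (𝓝 (1 / 4 * 0)) :=
    (tendsto_pow_atTop_nhds_zero_of_lt_one (by norm_num) (by norm_num)).const_mul _
  rw [mul_zero] at this
  exact this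

structure GroupData (F b : ℕ → ℂ → ℝ) : Prop where
  lip : ∀ n, ∃ C, LipschitzWith C (F n)
  nn : ∀ n z, 0 ≤ F n z
  le1 : ∀ n z, F n z ≤ 1
  far : ∀ n z, 3 * sn n ≤ ‖z - 1‖ → F n z = 1 ∧ b n z = 0
  bm : ∀ n, Measurable (b n)
  bn : ∀ n z, 0 ≤ b n z
  be : ∀ n, ∫⁻ z, ENNReal.ofReal (b n z ^ 2) ≤ ENNReal.ofReal ((1 / 4) ^ n)
  sl : ∀ n z, SL (F n) z (b n z)
  pos : ∀ n, ∀ᵐ x ∂(volume.restrict (Ioc (-π) π)), 0 < F n (circleMap 0 1 x)
  lg : ∀ n, ∫⁻ x in Ioc (-π) π, ENNReal.ofReal (-Real.log (F n (circleMap 0 1 x))) ≤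
    ENNReal.ofReal (3000 * sn n)

/-- cutoff -/
noncomputable def psi (z : ℂ) : ℝ := max 0 (min 1 (3 - ‖z‖))

/-- slope of the cutoff -/
noncomputable def bpsi (z : ℂ) : ℝ := (closedBall (0:ℂ) 4).indicator (fun _ => 1) z

lemma psi_nonneg (z : ℂ) : 0 ≤ psi z := le_max_left _ _

lemma psi_le_one (z : ℂ) : psi z ≤ 1 := max_le zero_le_one (min_le_left _ _)

lemma psi_lip (z z' : ℂ) : |psi z' - psi z| ≤ 1 * ‖z' - z‖ := by
  unfold psi
  have h1 := abs_max_sub_max_le_max (0:ℝ) (min 1 (3 - ‖z'‖)) 0 (min 1 (3 - ‖z‖))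
  have h2 := abs_min_sub_min_le_max (1:ℝ) (3 - ‖z'‖) 1 (3 - ‖z‖)
  simp only [sub_self, abs_zero] at h1 h2
  rw [max_eq_right (a := (0:ℝ)) (b := |min 1 (3 - ‖z'‖) - min 1 (3 - ‖z‖)|) (abs_nonneg _)] at h1
  rw [max_eq_right (a := (0:ℝ)) (b := |3 - ‖z'‖ - (3 - ‖z‖)|) (abs_nonneg _)] at h2
  have h3 : |3 - ‖z'‖ - (3 - ‖z‖)| ≤ ‖z' - z‖ := by
    have e : 3 - ‖z'‖ - (3 - ‖z‖) = ‖z‖ - ‖z'‖ := by ring
    rw [e, abs_sub_comm]
    exact abs_norm_sub_norm_le z' z
  linarith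

lemma psi_zero {z : ℂ} (h : 3 ≤ ‖z‖) : psi z = 0 := by
  unfold psi
  apply max_eq_left
  exact (min_le_right _ _).trans (by linarith)

lemma psi_one {z : ℂ} (h : ‖z‖ ≤ 2) : psi z = 1 := by
  unfold psi
  rw [min_eq_left (by linarith), max_eq_right zero_le_one]

lemma bpsi_nonneg (z : ℂ) : 0 ≤ bpsi z := by
  unfold bpsi
  apply indicator_nonneg
  intro _ _
  norm_num

lemma psi_SL (z : ℂ) : SL psi z (bpsi z) := by
  by_cases h : z ∈ closedBall (0:ℂ) 4
  · have : bpsi z = 1 := by unfold bpsi; rw [indicator_of_mem h]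
    rw [this]
    exact SL.of_lip psi_lip
  · have h0 : bpsi z = 0 := by unfold bpsi; rw [indicator_of_notMem h]
    rw [h0]
    rw [mem_closedBall, dist_zero_right, not_le] at h
    have h1 : ∀ᶠ z' in 𝓝 z, 4 < ‖z'‖ := continuous_norm.continuousAt.eventually (lt_mem_nhds h)
    filter_upwards [h1] with z' hz'
    rw [psi_zero (by linarith), psi_zero (by linarith)]
    simp

noncomputable def chi0 (z : ℂ) : ℝ := psi z * tent 1 {1} z

noncomputable def b0 (z : ℂ) : ℝ := bpsi z + tb 1 {1} z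

lemma tent1_nonneg (z : ℂ) : 0 ≤ tent 1 {1} z := tent_nonneg one_pos _ _

lemma chi0_nonneg (z : ℂ) : 0 ≤ chi0 z := mul_nonneg (psi_nonneg z) (tent1_nonneg z)

lemma chi0_le_one (z : ℂ) : chi0 z ≤ 1 := mul_le_one₀ (psi_le_one z) (tent1_nonneg z) (tent_le_one _ _ _)

lemma b0_nonneg (z : ℂ) : 0 ≤ b0 z := add_nonneg (bpsi_nonneg z) (tb_nonneg one_pos _ _)

lemma chi0_SL (z : ℂ) : SL chi0 z (b0 z) :=
  SL.mul (psi_SL z) (tent_SL one_pos _ z) (fun z => ⟨psi_nonneg z, psi_le_one z⟩)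
    (fun z => ⟨tent1_nonneg z, tent_le_one _ _ _⟩)

lemma chi0_lip : ∃ C, LipschitzWith C chi0 := by
  have h1 : LipschitzWith 1 psi := by
    apply LipschitzWith.of_dist_le_mul
    intro z z'
    rw [Real.dist_eq, dist_eq_norm]
    simpa using psi_lip z' z
  exact ⟨_, lipschitz_mul h1 (tent_lipschitz one_pos _)
    (fun z => by rw [abs_of_nonneg (psi_nonneg z)]; exact psi_le_one z)
    (fun z => by rw [abs_of_nonneg (tent1_nonneg z)]; exact tent_le_one _ _ _)⟩

lemma chi0_le (z : ℂ) : chi0 z ≤ ‖z - 1‖ := by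
  unfold chi0
  calc psi z * tent 1 {1} z ≤ 1 * tent 1 {1} z := by
        gcongr
        · exact tent1_nonneg z
        · exact psi_le_one z
    _ = tent 1 {1} z := one_mul _
    _ ≤ infDist z {1} / 1 := min_le_right _ _
    _ = ‖z - 1‖ := by rw [infDist_singleton, dist_eq_norm, div_one]

lemma chi0_one : chi0 1 = 0 := by
  unfold chi0
  rw [tent_eq_zero (mem_singleton _), mul_zero]

section data

variable {F b : ℕ → ℂ → ℝ}

/-- partial products -/
noncomputable def uN (F : ℕ → ℂ → ℝ) (N : ℕ) (z : ℂ) : ℝ := chi0 z * ∏ n ∈ Finset.range N, F n z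

/-- partial slopes -/
noncomputable def bN (b : ℕ → ℂ → ℝ) (N : ℕ) (z : ℂ) : ℝ := b0 z + ∑ n ∈ Finset.range N, b n z

/-- full product -/
noncomputable def uu (F : ℕ → ℂ → ℝ) (z : ℂ) : ℝ := chi0 z * ∏ᶠ n, F n z

lemma uN_succ (F : ℕ → ℂ → ℝ) (N : ℕ) : uN F (N + 1) = fun z => uN F N z * F N z := by
  ext z
  unfold uN
  rw [Finset.prod_range_succ]
  ring

lemma bN_succ (b : ℕ → ℂ → ℝ) (N : ℕ) (z : ℂ) : bN b (N + 1) z = bN b N z + b N z := by
  unfold bN
  rw [Finset.sum_range_succ]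
  ring

lemma uN_mem (D : GroupData F b) (N : ℕ) (z : ℂ) : 0 ≤ uN F N z ∧ uN F N z ≤ 1 := by
  induction N with
  | zero =>
    unfold uN
    simp only [Finset.range_zero, Finset.prod_empty, mul_one]
    exact ⟨chi0_nonneg z, chi0_le_one z⟩
  | succ N ih =>
    rw [uN_succ]
    exact ⟨mul_nonneg ih.1 (D.nn N z), mul_le_one₀ ih.2 (D.nn N z) (D.le1 N z)⟩

lemma uN_SL (D : GroupData F b) (N : ℕ) (z : ℂ) : SL (uN F N) z (bN b N z) := by
  induction N with
  | zero =>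
    have h1 : uN F 0 = chi0 := by ext z; unfold uN; simp
    have h2 : bN b 0 z = b0 z := by unfold bN; simp
    rw [h1, h2]
    exact chi0_SL z
  | succ N ih =>
    rw [uN_succ, bN_succ]
    exact SL.mul ih (D.sl N z) (uN_mem D N) (fun z => ⟨D.nn N z, D.le1 N z⟩)

lemma uN_lip (D : GroupData F b) (N : ℕ) : ∃ C, LipschitzWith C (uN F N) := by
  induction N with
  | zero =>
    have h1 : uN F 0 = chi0 := by ext z; unfold uN; simp
    rw [h1]
    exact chi0_lip
  | succ N ih =>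
    obtain ⟨C, hC⟩ := ih
    obtain ⟨C', hC'⟩ := D.lip N
    rw [uN_succ]
    exact ⟨_, lipschitz_mul hC hC'
      (fun z => by rw [abs_of_nonneg (uN_mem D N z).1]; exact (uN_mem D N z).2)
      (fun z => by rw [abs_of_nonneg (D.nn N z)]; exact D.le1 N z)⟩

lemma bN_nonneg (D : GroupData F b) (N : ℕ) (z : ℂ) : 0 ≤ bN b N z :=
  add_nonneg (b0_nonneg z) (Finset.sum_nonneg fun n _ => D.bn n z)

lemma uu_eq (D : GroupData F b) {N : ℕ} {z : ℂ} (hz : 3 * sn N ≤ ‖z - 1‖) : uu F z = uN F N z := by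
  unfold uu uN
  rw [finprod_eq_prod_of_mulSupport_subset]
  intro n hn
  rw [Function.mem_mulSupport] at hn
  rw [Finset.coe_range, mem_Iio]
  by_contra hcon
  push Not at hcon
  apply hn
  have := sn_anti hcon
  exact (D.far n z (by linarith)).1

lemma exists_N {z : ℂ} (hz : z ≠ 1) : ∃ N : ℕ, 3 * sn N < ‖z - 1‖ := by
  have h1 : 0 < ‖z - 1‖ := norm_pos_iff.2 (sub_ne_zero.2 hz)
  have h2 := (sn_tendsto.const_mul 3)
  rw [mul_zero] at h2
  exact (h2.eventually (gt_mem_nhds h1)).exists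

lemma uu_one : uu F 1 = 0 := by
  unfold uu; rw [chi0_one, zero_mul]

lemma uu_mem (D : GroupData F b) (z : ℂ) : 0 ≤ uu F z ∧ uu F z ≤ 1 := by
  by_cases hz : z = 1
  · rw [hz, uu_one]; norm_num
  · obtain ⟨N, hN⟩ := exists_N hz
    rw [uu_eq D hN.le]
    exact uN_mem D N z

lemma uN_le_chi0 (D : GroupData F b) (N : ℕ) (z : ℂ) : uN F N z ≤ chi0 z := by
  induction N with
  | zero => unfold uN; simp
  | succ N ih =>
    rw [uN_succ]
    calc uN F N z * F N z ≤ uN F N z * 1 := by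
          gcongr
          · exact (uN_mem D N z).1
          · exact D.le1 N z
      _ = uN F N z := mul_one _
      _ ≤ _ := ih

lemma uu_le (D : GroupData F b) (z : ℂ) : uu F z ≤ ‖z - 1‖ := by
  by_cases hz : z = 1
  · rw [hz, uu_one]; simp
  · obtain ⟨N, hN⟩ := exists_N hz
    rw [uu_eq D hN.le]
    exact (uN_le_chi0 D N z).trans (chi0_le z)

lemma uu_eventually (D : GroupData F b) {z : ℂ} {N : ℕ} (hN : 3 * sn N < ‖z - 1‖) :
    uu F =ᶠ[𝓝 z] uN F N := by
  have h1 : ∀ᶠ z' in 𝓝 z, 3 * sn N < ‖z' - 1‖ := by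
    have : Continuous fun z' : ℂ => ‖z' - 1‖ := by fun_prop
    exact this.continuousAt.eventually (lt_mem_nhds hN)
  filter_upwards [h1] with z' hz'
  exact uu_eq D hz'.le

lemma uu_continuous (D : GroupData F b) : Continuous (uu F) := by
  rw [continuous_iff_continuousAt]
  intro z
  by_cases hz : z = 1
  · rw [hz]
    unfold ContinuousAt
    rw [uu_one]
    have h1 : Tendsto (fun z : ℂ => ‖z - 1‖) (𝓝 1) (𝓝 0) := by
      have : Continuous fun z' : ℂ => ‖z' - 1‖ := by fun_prop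
      have h2 := this.tendsto 1
      simpa using h2
    exact squeeze_zero (fun z => (uu_mem D z).1) (fun z => uu_le D z) h1
  · obtain ⟨N, hN⟩ := exists_N hz
    obtain ⟨C, hC⟩ := uN_lip D N
    exact (hC.continuous.continuousAt).congr (uu_eventually D hN).symm

lemma uu_compact : HasCompactSupport (uu F) := by
  apply HasCompactSupport.intro (isCompact_closedBall (0:ℂ) 3)
  intro z hz
  rw [mem_closedBall, dist_zero_right, not_le] at hz
  unfold uu chi0
  rw [psi_zero hz.le]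
  simp

lemma uu_zero (D : GroupData F b) {n : ℕ} {z : ℂ} (h : F n z = 0) : uu F z = 0 := by
  by_cases hz : z = 1
  · rw [hz, uu_one]
  · obtain ⟨N, hN⟩ := exists_N hz
    have h1 : 3 * sn (max N (n + 1)) ≤ ‖z - 1‖ := by
      have := sn_anti (le_max_left N (n + 1))
      linarith
    rw [uu_eq D h1]
    unfold uN
    rw [Finset.prod_eq_zero (Finset.mem_range.2 (lt_of_lt_of_le (Nat.lt_succ_self n) (le_max_right N (n + 1)))) h,
      mul_zero]

end data

end Pool.Agent.Helper57.Dir
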