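import Pool.Agent.Helper57.Dir.Glob

/-!
# Sobolev regularity and logarithmic integrability of the product
-/

set_option autoImplicit false

namespace Pool.Agent.Helper57.Dir

open Filter MeasureTheory Metric Real Set Topology
open scoped ContDiff

/-- `u : ℂ → ℝ` is in the Sobolev space `W_2^1(ℂ)`: it is square integrable over the plane and has
square integrable weak partial derivatives `g₁ = ∂u/∂x`, `g₂ = ∂u/∂y`. -/
def MemW12 (u : ℂ → ℝ) : Prop :=
  MemLp u 2 volume ∧ ∃ g₁ g₂ : ℂ → ℝ, MemLp g₁ 2 volume ∧ MemLp g₂ 2 volume ∧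
    ∀ φ : ℂ → ℝ, ContDiff ℝ ∞ φ → HasCompactSupport φ →
      (∫ z, u z * fderiv ℝ φ z 1 = -∫ z, g₁ z * φ z) ∧
      (∫ z, u z * fderiv ℝ φ z Complex.I = -∫ z, g₂ z * φ z)

variable {F b : ℕ → ℂ → ℝ}

lemma bpsi_measurable : Measurable bpsi := by
  unfold bpsi
  exact measurable_const.indicator measurableSet_closedBall

lemma b0_measurable : Measurable b0 := bpsi_measurable.add (tb_measurable _ _)

lemma b0_memLp : MemLp b0 2 volume := by
  have h1 : MemLp bpsi 2 volume := by
    have : MemLp (fun _ : ℂ => (1:ℝ)) 2 (volume.restrict (closedBall (0:ℂ) 4)) := by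
      have : IsFiniteMeasure (volume.restrict (closedBall (0:ℂ) 4)) :=
        ⟨by rw [Measure.restrict_apply_univ]; exact measure_closedBall_lt_top⟩
      exact memLp_const _
    exact (memLp_indicator_iff_restrict measurableSet_closedBall).2 this
  have h2 : MemLp (tb 1 {(1:ℂ)}) 2 volume := by
    have hm : MeasurableSet {z : ℂ | infDist z {(1:ℂ)} ≤ 1} :=
      (isClosed_le (continuous_infDist_pt _) continuous_const).measurableSet
    have : MemLp (fun _ : ℂ => (1 / 1:ℝ)) 2 (volume.restrict {z : ℂ | infDist z {(1:ℂ)} ≤ 1}) := by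
      have : IsFiniteMeasure (volume.restrict {z : ℂ | infDist z {(1:ℂ)} ≤ 1}) :=
        ⟨by
          rw [Measure.restrict_apply_univ]
          have e : {z : ℂ | infDist z {(1:ℂ)} ≤ 1} = closedBall 1 1 := by
            ext z
            simp [infDist_singleton]
          rw [e]
          exact measure_closedBall_lt_top⟩
      exact memLp_const _
    exact (memLp_indicator_iff_restrict hm).2 this
  exact h1.add h2

lemma b_eLpNorm (D : GroupData F b) (n : ℕ) : eLpNorm (b n) 2 volume ≤ ENNReal.ofReal ((1 / 2) ^ n) := by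
  have h1 : eLpNorm (b n) 2 volume ^ 2 ≤ ENNReal.ofReal ((1 / 2) ^ n) ^ 2 := by
    rw [eLpNorm_eq_lintegral_rpow_enorm_toReal (by norm_num) (by norm_num)]
    simp only [ENNReal.toReal_ofNat]
    rw [← ENNReal.rpow_natCast, ← ENNReal.rpow_mul]
    norm_num
    have h2 := D.be n
    have e : ∀ z, ‖b n z‖ₑ ^ 2 = ENNReal.ofReal (b n z ^ 2) := by
      intro z
      rw [Real.enorm_eq_ofReal (D.bn n z), ENNReal.ofReal_pow (D.bn n z)]
    simp_rw [e]
    refine h2.trans ?_
    have e2 : ENNReal.ofReal ((1 / 2) ^ n) ^ 2 = ENNReal.ofReal ((1 / 4) ^ n) := by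
      rw [← ENNReal.ofReal_pow (by positivity)]
      congr 1
      rw [← pow_mul, mul_comm n 2, pow_mul]
      norm_num
    rw [ENNReal.ofReal_pow (by norm_num)] at e2
    rw [e2]
  exact (ENNReal.pow_le_pow_left_iff (by norm_num)).1 h1

/-- uniform bound for the norms of the partial slopes -/
noncomputable def Cb : ENNReal := eLpNorm b0 2 volume + ENNReal.ofReal 2

lemma Cb_lt : Cb < ⊤ := by
  unfold Cb
  exact ENNReal.add_lt_top.2 ⟨b0_memLp.2, ENNReal.ofReal_lt_top⟩

lemma bN_eLpNorm (D : GroupData F b) (N : ℕ) : eLpNorm (bN b N) 2 volume ≤ Cb := by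
  have e : bN b N = b0 + ∑ n ∈ Finset.range N, b n := by
    ext z
    unfold bN
    simp
  rw [e]
  unfold Cb
  refine (eLpNorm_add_le b0_memLp.1 ?_ (by norm_num)).trans ?_
  · have e3 : (∑ n ∈ Finset.range N, b n) = fun z => ∑ n ∈ Finset.range N, b n z := by
      ext z; simp
    rw [e3]
    exact (Finset.measurable_sum _ fun n _ => D.bm n).aestronglyMeasurable
  · gcongr
    refine (eLpNorm_sum_le (fun n _ => (D.bm n).aestronglyMeasurable) (by norm_num)).trans ?_
    calc ∑ n ∈ Finset.range N, eLpNorm (b n) 2 volume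
        ≤ ∑ n ∈ Finset.range N, ENNReal.ofReal ((1 / 2) ^ n) :=
          Finset.sum_le_sum fun n _ => b_eLpNorm D n
      _ = ENNReal.ofReal (∑ n ∈ Finset.range N, (1 / 2 : ℝ) ^ n) := by
          rw [ENNReal.ofReal_sum_of_nonneg]
          intro n _; positivity
      _ ≤ ENNReal.ofReal 2 := by
          apply ENNReal.ofReal_le_ofReal
          exact sum_geometric_two_le N

lemma bN_measurable (D : GroupData F b) (N : ℕ) : Measurable (bN b N) := by
  unfold bN
  exact b0_measurable.add (Finset.measurable_sum _ fun n _ => D.bm n)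

/-- total slope -/
noncomputable def bT (b : ℕ → ℂ → ℝ) (z : ℂ) : ℝ := b0 z + ∑' n, b n z

lemma b_summable (D : GroupData F b) {z : ℂ} (hz : z ≠ 1) : Summable fun n => b n z := by
  obtain ⟨N, hN⟩ := exists_N hz
  apply summable_of_ne_finset_zero (s := Finset.range N)
  intro n hn
  rw [Finset.mem_range, not_lt] at hn
  have := sn_anti hn
  exact (D.far n z (by linarith)).2

lemma bN_le_bT (D : GroupData F b) (N : ℕ) {z : ℂ} (hz : z ≠ 1) : bN b N z ≤ bT b z := by
  unfold bN bT
  gcongr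
  exact (b_summable D hz).sum_le_tsum _ (fun n _ => D.bn n z)

lemma ae_ne_one : ∀ᵐ z : ℂ, z ≠ 1 := by
  rw [ae_iff]
  have : {z : ℂ | ¬ z ≠ 1} = {1} := by ext z; simp
  rw [this]
  exact measure_singleton 1

lemma bN_tendsto (D : GroupData F b) {z : ℂ} (hz : z ≠ 1) :
    Tendsto (fun N => bN b N z) atTop (𝓝 (bT b z)) := by
  unfold bN bT
  exact ((b_summable D hz).hasSum.tendsto_sum_nat).const_add _

lemma bT_memLp (D : GroupData F b) : MemLp (bT b) 2 volume := by
  have hae : ∀ᵐ z : ℂ, Tendsto (fun N => bN b N z) atTop (𝓝 (bT b z)) := by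
    filter_upwards [ae_ne_one] with z hz
    exact bN_tendsto D hz
  refine ⟨aestronglyMeasurable_of_tendsto_ae atTop
    (fun N => (bN_measurable D N).aestronglyMeasurable) hae, ?_⟩
  refine lt_of_le_of_lt ?_ Cb_lt
  exact Lp.eLpNorm_le_of_ae_tendsto (Eventually.of_forall fun N => bN_eLpNorm D N)
    (fun N => (bN_measurable D N).aestronglyMeasurable) hae

lemma bT_nonneg (D : GroupData F b) (z : ℂ) : 0 ≤ bT b z :=
  add_nonneg (b0_nonneg z) (tsum_nonneg fun n => D.bn n z)

lemma lineDeriv_uN_le (D : GroupData F b) (N : ℕ) {z : ℂ} (hz : z ≠ 1) (v : ℂ) (hv : ‖v‖ = 1) :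
    |lineDeriv ℝ (uN F N) z v| ≤ bT b z :=
  ((uN_SL D N z).lineDeriv_le (bN_nonneg D N z) v hv).trans (bN_le_bT D N hz)

lemma lineDeriv_uu_eventually (D : GroupData F b) {z : ℂ} (hz : z ≠ 1) (v : ℂ) :
    ∀ᶠ N in atTop, lineDeriv ℝ (uN F N) z v = lineDeriv ℝ (uu F) z v := by
  obtain ⟨N₀, hN₀⟩ := exists_N hz
  filter_upwards [eventually_ge_atTop N₀] with N hN
  have h1 : 3 * sn N < ‖z - 1‖ := by
    have := sn_anti hN
    linarith
  exact ((uu_eventually D h1).lineDeriv_eq).symm

lemma lineDeriv_uu_le (D : GroupData F b) {z : ℂ} (hz : z ≠ 1) (v : ℂ) (hv : ‖v‖ = 1) :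
    |lineDeriv ℝ (uu F) z v| ≤ bT b z := by
  obtain ⟨N, hN⟩ := (lineDeriv_uu_eventually D hz v).exists
  rw [← hN]
  exact lineDeriv_uN_le D N hz v hv

lemma lineDeriv_uu_memLp (D : GroupData F b) (v : ℂ) (hv : ‖v‖ = 1) :
    MemLp (fun z => lineDeriv ℝ (uu F) z v) 2 volume := by
  refine (bT_memLp D).mono (aestronglyMeasurable_lineDeriv (uu_continuous D) _) ?_
  filter_upwards [ae_ne_one] with z hz
  rw [Real.norm_eq_abs, Real.norm_eq_abs, abs_of_nonneg (bT_nonneg D z)]
  exact lineDeriv_uu_le D hz v hv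

lemma weak_uu (D : GroupData F b) (v : ℂ) (hv : ‖v‖ = 1) {φ : ℂ → ℝ} (hφ : ContDiff ℝ 1 φ)
    (hc : HasCompactSupport φ) :
    ∫ z, uu F z * fderiv ℝ φ z v = -∫ z, lineDeriv ℝ (uu F) z v * φ z := by
  obtain ⟨C, hC⟩ : ∃ C, LipschitzWith C φ := ContDiff.lipschitzWith_of_hasCompactSupport hc hφ (by simp)
  have hdc : Continuous fun z => fderiv ℝ φ z v :=
    (hφ.continuous_fderiv (by simp)).clm_apply continuous_const
  have hds : HasCompactSupport fun z => fderiv ℝ φ z v := by
    apply (hc.fderiv ℝ).comp_left (g := fun L : ℂ →L[ℝ] ℝ => L v)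
    simp
  have hdi : Integrable fun z => fderiv ℝ φ z v := hdc.integrable_of_hasCompactSupport hds
  have hN : ∀ N, ∫ z, uN F N z * fderiv ℝ φ z v = -∫ z, lineDeriv ℝ (uN F N) z v * φ z := by
    intro N
    obtain ⟨C', hC'⟩ := uN_lip D N
    rw [LipschitzWith.integral_lineDeriv_mul_eq hC' hC hc v, ← integral_neg]
    congr 1
    ext z
    rw [(hφ.differentiable (by simp)).differentiableAt.lineDeriv_eq_fderiv, map_neg]
    ring
  have L1 : Tendsto (fun N => ∫ z, uN F N z * fderiv ℝ φ z v) atTop (𝓝 (∫ z, uu F z * fderiv ℝ φ z v)) := by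
    apply tendsto_integral_of_dominated_convergence (fun z => ‖fderiv ℝ φ z v‖)
    · intro N
      obtain ⟨C', hC'⟩ := uN_lip D N
      exact (hC'.continuous.mul hdc).aestronglyMeasurable
    · exact hdi.norm
    · intro N
      filter_upwards with z
      rw [norm_mul, Real.norm_eq_abs, abs_of_nonneg (uN_mem D N z).1]
      exact mul_le_of_le_one_left (norm_nonneg _) (uN_mem D N z).2
    · filter_upwards [ae_ne_one] with z hz
      apply tendsto_const_nhds.congr'
      obtain ⟨N₀, hN₀⟩ := exists_N hz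
      filter_upwards [eventually_ge_atTop N₀] with N hN
      have h1 : 3 * sn N < ‖z - 1‖ := by
        have := sn_anti hN
        linarith
      rw [uu_eq D h1.le]
  have L2 : Tendsto (fun N => ∫ z, lineDeriv ℝ (uN F N) z v * φ z) atTop
      (𝓝 (∫ z, lineDeriv ℝ (uu F) z v * φ z)) := by
    apply tendsto_integral_of_dominated_convergence (fun z => bT b z * ‖φ z‖)
    · intro N
      obtain ⟨C', hC'⟩ := uN_lip D N
      exact (aestronglyMeasurable_lineDeriv hC'.continuous _).mul hφ.continuous.aestronglyMeasurable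
    · have h1 : MemLp (fun z => ‖φ z‖) 2 volume := (hφ.continuous.memLp_of_hasCompactSupport hc).norm
      exact (bT_memLp D).integrable_mul h1
    · intro N
      filter_upwards [ae_ne_one] with z hz
      rw [norm_mul, Real.norm_eq_abs]
      gcongr
      exact lineDeriv_uN_le D N hz v hv
    · filter_upwards [ae_ne_one] with z hz
      apply tendsto_const_nhds.congr'
      filter_upwards [lineDeriv_uu_eventually D hz v] with N hN
      rw [hN]
  have L3 := L2.neg
  have L4 : Tendsto (fun N => ∫ z, uN F N z * fderiv ℝ φ z v) atTop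
      (𝓝 (-∫ z, lineDeriv ℝ (uu F) z v * φ z)) := by
    refine L3.congr fun N => ?_
    rw [hN N]
  exact tendsto_nhds_unique L1 L4

theorem uu_W12 (D : GroupData F b) : MemW12 (uu F) := by
  refine ⟨(uu_continuous D).memLp_of_hasCompactSupport uu_compact, fun z => lineDeriv ℝ (uu F) z 1,
    fun z => lineDeriv ℝ (uu F) z Complex.I, lineDeriv_uu_memLp D 1 (by simp),
    lineDeriv_uu_memLp D Complex.I (by simp), ?_⟩
  intro φ hφ hc
  have hφ1 : ContDiff ℝ 1 φ := hφ.of_le (by exact_mod_cast le_top)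
  exact ⟨weak_uu D 1 (by simp) hφ1 hc, weak_uu D Complex.I (by simp) hφ1 hc⟩

/-! ### positivity and the logarithmic integral -/

lemma one_count : ∑' q : ℕ, volume {x | x ∈ Ioc (-π) π ∧ infDist (circleMap 0 1 x) {(1:ℂ)} < 1 * (1 / 4) ^ q} ≤
    ENNReal.ofReal (4 * (1 - 1 / 4)⁻¹) := by
  calc ∑' q : ℕ, volume {x | x ∈ Ioc (-π) π ∧ infDist (circleMap 0 1 x) {(1:ℂ)} < 1 * (1 / 4) ^ q}
      ≤ ∑' q : ℕ, ENNReal.ofReal (4 * (1 / 4) ^ q) := by
        apply ENNReal.tsum_le_tsum
        intro q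
        have hq : (1 / 4 : ℝ) ^ q ≤ 1 := pow_le_one₀ (by norm_num) (by norm_num)
        refine (vol_le (singleton_nonempty (1:ℂ)) {(0:ℝ)} (a := 0) (by linarith) ?_).trans ?_
        · intro p hp
          rw [mem_singleton_iff] at hp
          refine ⟨0, by simp, 0, le_rfl, by simp, le_rfl, zero_le_one, ?_⟩
          rw [hp]; simp [circleMap]
        · apply ENNReal.ofReal_le_ofReal
          simp
    _ = _ := geom_ofReal (by norm_num) (by norm_num) (by norm_num)

lemma uu_pos (D : GroupData F b) : ∀ᵐ x ∂(volume.restrict (Ioc (-π) π)), 0 < uu F (circleMap 0 1 x) := by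
  have h1 := ae_pos_of_tsum one_pos {(1:ℂ)} (ne_top_of_le_ne_top ENNReal.ofReal_ne_top one_count)
  have h2 : ∀ᵐ x ∂(volume.restrict (Ioc (-π) π)), ∀ n, 0 < F n (circleMap 0 1 x) := ae_all_iff.2 D.pos
  filter_upwards [h1, h2] with x hx1 hx2
  have hne : circleMap 0 1 x ≠ 1 := by
    intro h
    rw [h, tent_eq_zero (mem_singleton _)] at hx1
    exact lt_irrefl _ hx1
  obtain ⟨N, hN⟩ := exists_N hne
  rw [uu_eq D hN.le]
  unfold uN chi0
  rw [psi_one (by simp)]
  rw [one_mul]
  exact mul_pos hx1 (Finset.prod_pos fun n _ => hx2 n)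

lemma uu_log_le (D : GroupData F b) {x : ℝ} (hx : 0 < uu F (circleMap 0 1 x)) :
    ENNReal.ofReal (-Real.log (uu F (circleMap 0 1 x))) ≤
      ENNReal.ofReal (-Real.log (tent 1 {(1:ℂ)} (circleMap 0 1 x))) +
      ∑' n, ENNReal.ofReal (-Real.log (F n (circleMap 0 1 x))) := by
  have hne : circleMap 0 1 x ≠ 1 := by
    intro h
    rw [h, uu_one] at hx
    exact lt_irrefl _ hx
  obtain ⟨N, hN⟩ := exists_N hne
  have e : uu F (circleMap 0 1 x) = tent 1 {(1:ℂ)} (circleMap 0 1 x) * ∏ n ∈ Finset.range N, F n (circleMap 0 1 x) := by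
    rw [uu_eq D hN.le]
    unfold uN chi0
    rw [psi_one (by simp), one_mul]
  rw [e] at hx ⊢
  have hA : tent 1 {(1:ℂ)} (circleMap 0 1 x) ≠ 0 := left_ne_zero_of_mul hx.ne'
  have hB : ∏ n ∈ Finset.range N, F n (circleMap 0 1 x) ≠ 0 := right_ne_zero_of_mul hx.ne'
  rw [Real.log_mul hA hB, neg_add]
  refine ENNReal.ofReal_add_le.trans ?_
  gcongr
  rw [Real.log_prod (fun n hn => Finset.prod_ne_zero_iff.1 hB n hn), ← Finset.sum_neg_distrib]
  refine le_trans ?_ (ENNReal.sum_le_tsum (Finset.range N))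
  rw [ENNReal.ofReal_sum_of_nonneg]
  intro n _
  have := Real.log_nonpos (D.nn n (circleMap 0 1 x)) (D.le1 n (circleMap 0 1 x))
  linarith

theorem uu_log (D : GroupData F b) :
    IntegrableOn (fun x => Real.log (uu F (circleMap 0 1 x))) (Ioc (-π) π) := by
  have hcont : Continuous fun x : ℝ => uu F (circleMap 0 1 x) :=
    (uu_continuous D).comp (continuous_circleMap 0 1)
  refine ⟨(Real.measurable_log.comp hcont.measurable).aestronglyMeasurable, ?_⟩
  have hFm : ∀ n, Measurable fun x : ℝ => ENNReal.ofReal (-Real.log (F n (circleMap 0 1 x))) := by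
    intro n
    obtain ⟨C, hC⟩ := D.lip n
    exact ((Real.measurable_log.comp (hC.continuous.comp (continuous_circleMap 0 1)).measurable).neg).ennreal_ofReal
  have h1 : ∫⁻ x in Ioc (-π) π, ‖Real.log (uu F (circleMap 0 1 x))‖ₑ ≤
      ∫⁻ x in Ioc (-π) π, (ENNReal.ofReal (-Real.log (tent 1 {(1:ℂ)} (circleMap 0 1 x))) +
      ∑' n, ENNReal.ofReal (-Real.log (F n (circleMap 0 1 x)))) := by
    apply lintegral_mono_ae
    filter_upwards [uu_pos D] with x hx
    refine le_trans (le_of_eq ?_) (uu_log_le D hx)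
    have h2 := Real.log_nonpos (uu_mem D (circleMap 0 1 x)).1 (uu_mem D (circleMap 0 1 x)).2
    rw [← enorm_neg, Real.enorm_eq_ofReal (by linarith)]
  refine lt_of_le_of_lt h1 ?_
  rw [lintegral_add_right _ (Measurable.tsum hFm), lintegral_tsum (fun n => (hFm n).aemeasurable)]
  apply ENNReal.add_lt_top.2
  constructor
  · refine lt_of_le_of_lt (log_tent_lintegral_le one_pos _) ?_
    exact ENNReal.mul_lt_top ENNReal.ofReal_lt_top (lt_of_le_of_lt one_count ENNReal.ofReal_lt_top)
  · refine lt_of_le_of_lt (ENNReal.tsum_le_tsum D.lg) ?_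
    have e : ∀ n, ENNReal.ofReal (3000 * sn n) = ENNReal.ofReal (750 * (1 / 2) ^ n) := by
      intro n
      congr 1
      unfold sn
      ring
    simp_rw [e]
    rw [geom_ofReal (by norm_num) (by norm_num) (by norm_num)]
    exact ENNReal.ofReal_lt_top

end Pool.Agent.Helper57.Dir
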