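import Mathlib

/-!
# Transfer of a holomorphic function on the disc to a half strip
-/

set_option autoImplicit false

namespace Pool.Agent.Helper57.Dir

open Filter MeasureTheory Metric Real Set Topology

/-- The covering map of the punctured disc by the upper half plane. -/
noncomputable def phi (w : ℂ) : ℂ := Complex.exp (Complex.I * w)

lemma norm_phi (w : ℂ) : ‖phi w‖ = Real.exp (-w.im) := by
  rw [phi, Complex.norm_exp]
  simp

lemma phi_mem_ball {w : ℂ} (hw : 0 < w.im) : phi w ∈ ball (0 : ℂ) 1 := by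
  rw [mem_ball_zero_iff, norm_phi]
  rw [← Real.exp_zero]
  exact Real.exp_lt_exp.2 (by linarith)

lemma hasDerivAt_phi (w : ℂ) : HasDerivAt phi (phi w * Complex.I) w := by
  have h1 : HasDerivAt (fun w : ℂ => Complex.I * w) Complex.I w := by
    simpa using (hasDerivAt_id w).const_mul Complex.I
  have := h1.cexp
  exact this

/-- Open half strip of width `2π`. -/
def Om : Set ℂ := {w | 0 < w.re ∧ w.re < 2 * π ∧ 0 < w.im}

lemma isOpen_Om : IsOpen Om := by
  have h1 : IsOpen {w : ℂ | 0 < w.re} := isOpen_lt continuous_const Complex.continuous_re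
  have h2 : IsOpen {w : ℂ | w.re < 2 * π} := isOpen_lt Complex.continuous_re continuous_const
  have h3 : IsOpen {w : ℂ | 0 < w.im} := isOpen_lt continuous_const Complex.continuous_im
  exact h1.inter (h2.inter h3)

lemma injOn_phi : InjOn phi Om := by
  intro a ha b hb hab
  rw [phi, phi, Complex.exp_eq_exp_iff_exists_int] at hab
  obtain ⟨n, hn⟩ := hab
  have h1 : a = b + n * (2 * π) := by
    have hI : Complex.I ≠ 0 := Complex.I_ne_zero
    have : Complex.I * a = Complex.I * (b + n * (2 * π)) := by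
      rw [hn]; ring
    exact mul_left_cancel₀ hI this
  have hre : a.re = b.re + n * (2 * π) := by
    have := congrArg Complex.re h1
    simpa using this
  have hn0 : n = 0 := by
    have h2 : |(n : ℝ) * (2 * π)| < 1 * (2 * π) := by
      rw [abs_lt]
      constructor
      · have := ha.1
        have := hb.2.1
        linarith
      · have := hb.1
        have := ha.2.1
        linarith
    rw [abs_mul, abs_of_pos (by positivity : (0:ℝ) < 2 * π)] at h2
    have h3 : |(n : ℝ)| < 1 := lt_of_mul_lt_mul_right h2 (by positivity)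
    have h4 : |n| < 1 := by exact_mod_cast h3
    exact Int.abs_lt_one_iff.1 h4
  rw [h1, hn0]
  simp

lemma det_mul (c : ℂ) :
    (((ContinuousLinearMap.toSpanSingleton ℂ c : ℂ →L[ℂ] ℂ).restrictScalars ℝ) : ℂ →L[ℝ] ℂ).det =
      ‖c‖ ^ 2 := by
  simp [ContinuousLinearMap.det, LinearMap.det_restrictScalars,
      Algebra.norm_complex_eq, Complex.normSq_eq_norm_sq]

/-- The pull back of `f`. -/
noncomputable def pull (f : ℂ → ℂ) (w : ℂ) : ℂ := f (phi w)

lemma hasDerivAt_pull {f : ℂ → ℂ} (hf : DifferentiableOn ℂ f (ball 0 1)) {w : ℂ} (hw : 0 < w.im) :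
    HasDerivAt (pull f) (deriv f (phi w) * (phi w * Complex.I)) w := by
  have h1 : HasDerivAt f (deriv f (phi w)) (phi w) :=
    ((hf _ (phi_mem_ball hw)).differentiableAt (isOpen_ball.mem_nhds (phi_mem_ball hw))).hasDerivAt
  exact h1.comp w (hasDerivAt_phi w)

lemma pull_energy_le {f : ℂ → ℂ} (hf : DifferentiableOn ℂ f (ball 0 1)) :
    ∫⁻ w in Om, ENNReal.ofReal (‖deriv (pull f) w‖ ^ 2) ≤
      ∫⁻ z in ball (0:ℂ) 1, ENNReal.ofReal (‖deriv f z‖ ^ 2) := by
  have h1 := lintegral_image_eq_lintegral_abs_det_fderiv_mul volume isOpen_Om.measurableSet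
    (f := phi) (f' := fun w => (ContinuousLinearMap.toSpanSingleton ℂ (phi w * Complex.I)).restrictScalars ℝ)
    (fun w _ => (((hasDerivAt_phi w).hasFDerivAt.restrictScalars ℝ).hasFDerivWithinAt)) injOn_phi
    (fun z => ENNReal.ofReal (‖deriv f z‖ ^ 2))
  have h2 : ∫⁻ w in Om, ENNReal.ofReal (‖deriv (pull f) w‖ ^ 2) =
      ∫⁻ x in phi '' Om, ENNReal.ofReal (‖deriv f x‖ ^ 2) := by
    rw [h1]
    refine setLIntegral_congr_fun isOpen_Om.measurableSet fun w hw => ?_
    rw [det_mul, abs_of_nonneg (by positivity), ← ENNReal.ofReal_mul (by positivity),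
      (hasDerivAt_pull hf hw.2.2).deriv, norm_mul, mul_pow, mul_comm]
  rw [h2]
  apply lintegral_mono_set
  rintro _ ⟨w, hw, rfl⟩
  exact phi_mem_ball hw.2.2

end Pool.Agent.Helper57.Dir
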