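import Pool.Agent.Helper57.Dir.Area
import Pool.Agent.Helper57.Dir.Strip

/-!
# Greedy path through a Cantor set
-/

set_option autoImplicit false

namespace Pool.Agent.Helper57.Dir

open Filter MeasureTheory Metric Real Set Topology

/-- Digit Cantor set: digits `1, 2` in base `4`. -/
def KC : Set ℝ := {x | ∃ d : ℕ → ℝ, (∀ j, d j = 1 ∨ d j = 2) ∧ x = ∑' j, d j * (1 / 4) ^ (j + 1)}

/-- Dirichlet energy of `g` on `S`. -/
noncomputable def en (g : ℂ → ℂ) (S : Set ℂ) : ℝ := ∫ w in S, ‖deriv g w‖ ^ 2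

/-- Open box over the interval `(a, a + l)`. -/
def Bx (a l : ℝ) : Set ℂ := {w | a < w.re ∧ w.re < a + l ∧ 0 < w.im ∧ w.im < l}

/-- Center of the box. -/
noncomputable def cx (a l : ℝ) : ℂ := ⟨a + l / 2, l / 2⟩

lemma isOpen_Bx (a l : ℝ) : IsOpen (Bx a l) := by
  have h1 : IsOpen {w : ℂ | a < w.re} := isOpen_lt continuous_const Complex.continuous_re
  have h2 : IsOpen {w : ℂ | w.re < a + l} := isOpen_lt Complex.continuous_re continuous_const
  have h3 : IsOpen {w : ℂ | 0 < w.im} := isOpen_lt continuous_const Complex.continuous_im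
  have h4 : IsOpen {w : ℂ | w.im < l} := isOpen_lt Complex.continuous_im continuous_const
  exact h1.inter (h2.inter (h3.inter h4))

lemma Bx_subset_Om {a l : ℝ} (ha : 0 ≤ a) (hb : a + l ≤ 2 * π) : Bx a l ⊆ Om := by
  intro w hw
  exact ⟨by linarith [hw.1], by linarith [hw.2.1], hw.2.2.1⟩

lemma en_nonneg (g : ℂ → ℂ) (S : Set ℂ) : 0 ≤ en g S :=
  integral_nonneg fun _ => by positivity

section

variable {g : ℂ → ℂ}

lemma en_mono (hI : IntegrableOn (fun w => ‖deriv g w‖ ^ 2) Om) {S T : Set ℂ} (hST : S ⊆ T)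
    (hT : T ⊆ Om) : en g S ≤ en g T := by
  refine setIntegral_mono_set (hI.mono_set hT) (Eventually.of_forall fun _ => by positivity) ?_
  exact hST.eventuallyLE

lemma en_union_le (hI : IntegrableOn (fun w => ‖deriv g w‖ ^ 2) Om) {S T U : Set ℂ}
    (hT : MeasurableSet T)
    (hSU : S ⊆ U) (hTU : T ⊆ U) (hU : U ⊆ Om) (hd : Disjoint S T) :
    en g S + en g T ≤ en g U := by
  have h1 : en g (S ∪ T) = en g S + en g T :=
    setIntegral_union hd hT (hI.mono_set (hSU.trans hU)) (hI.mono_set (hTU.trans hU))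
  rw [← h1]
  exact en_mono hI (union_subset hSU hTU) hU

lemma deriv_bound (hg : DifferentiableOn ℂ g {w | 0 < w.im})
    (hI : IntegrableOn (fun w => ‖deriv g w‖ ^ 2) Om) {U : Set ℂ} (hU : U ⊆ Om)
    {w : ℂ} {ρ : ℝ} (hρ : 0 < ρ) (hb : ball w ρ ⊆ U) :
    π * ρ ^ 2 * ‖deriv g w‖ ^ 2 ≤ en g U := by
  have hop : IsOpen {w : ℂ | 0 < w.im} := isOpen_lt continuous_const Complex.continuous_im
  have hd : DifferentiableOn ℂ (deriv g) (ball w ρ) :=
    (hg.deriv hop).mono fun z hz => (hU (hb hz)).2.2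
  have h1 := area_mean (deriv g) w ρ hρ hd
  have h2 : ∫⁻ z in ball w ρ, ENNReal.ofReal (‖deriv g z‖ ^ 2) = ENNReal.ofReal (en g (ball w ρ)) := by
    rw [en, ofReal_integral_eq_lintegral_ofReal (hI.mono_set (hb.trans hU))
      (Eventually.of_forall fun _ => by positivity)]
  rw [h2] at h1
  have h3 := (ENNReal.ofReal_le_ofReal_iff (en_nonneg _ _)).1 h1
  exact h3.trans (en_mono hI hb hU)

lemma ball_subset_Bx {a l ρ : ℝ} {w : ℂ} (h1 : a + ρ ≤ w.re) (h2 : w.re ≤ a + l - ρ)
    (h3 : ρ ≤ w.im) (h4 : w.im ≤ l - ρ) : ball w ρ ⊆ Bx a l := by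
  intro z hz
  rw [mem_ball, dist_eq_norm] at hz
  have hre : |z.re - w.re| < ρ := by
    have := Complex.abs_re_le_norm (z - w)
    rw [Complex.sub_re] at this
    linarith
  have him : |z.im - w.im| < ρ := by
    have := Complex.abs_im_le_norm (z - w)
    rw [Complex.sub_im] at this
    linarith
  rw [abs_lt] at hre him
  exact ⟨by linarith, by linarith, by linarith, by linarith⟩

/-- oscillation in the core of a box -/
lemma core_osc (hg : DifferentiableOn ℂ g {w | 0 < w.im})
    (hI : IntegrableOn (fun w => ‖deriv g w‖ ^ 2) Om) {a l : ℝ} (hl : 0 < l) (ha : 0 ≤ a)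
    (hb : a + l ≤ 2 * π) {w : ℂ} (h1 : a + l / 4 ≤ w.re) (h2 : w.re ≤ a + 3 * l / 4)
    (h3 : l / 8 ≤ w.im) (h4 : w.im ≤ l / 2) :
    ‖g w - g (cx a l)‖ ^ 2 ≤ 9 * en g (Bx a l) := by
  have hop : IsOpen {w : ℂ | 0 < w.im} := isOpen_lt continuous_const Complex.continuous_im
  set e := en g (Bx a l) with he
  have he0 : 0 ≤ e := en_nonneg _ _
  set s : Set ℂ := {z | a + l / 4 ≤ z.re ∧ z.re ≤ a + 3 * l / 4 ∧ l / 8 ≤ z.im ∧ z.im ≤ l / 2} with hs
  have hconv : Convex ℝ s := by
    have c1 : Convex ℝ {z : ℂ | a + l / 4 ≤ z.re} := convex_halfSpace_re_ge _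
    have c2 : Convex ℝ {z : ℂ | z.re ≤ a + 3 * l / 4} := convex_halfSpace_re_le _
    have c3 : Convex ℝ {z : ℂ | l / 8 ≤ z.im} := convex_halfSpace_im_ge _
    have c4 : Convex ℝ {z : ℂ | z.im ≤ l / 2} := convex_halfSpace_im_le _
    exact c1.inter (c2.inter (c3.inter c4))
  have hdiff : ∀ z ∈ s, DifferentiableAt ℂ g z := by
    intro z hz
    have hz0 : 0 < z.im := by linarith [hz.2.2.1]
    exact (hg z hz0).differentiableAt (hop.mem_nhds hz0)
  set C := Real.sqrt (64 * e / (3 * l ^ 2)) with hC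
  have hC2 : C ^ 2 = 64 * e / (3 * l ^ 2) := Real.sq_sqrt (by positivity)
  have hbound : ∀ z ∈ s, ‖deriv g z‖ ≤ C := by
    intro z hz
    apply Real.le_sqrt_of_sq_le
    have hball : ball z (l / 8) ⊆ Bx a l := by
      apply ball_subset_Bx
      · linarith [hz.1]
      · linarith [hz.2.1]
      · exact hz.2.2.1
      · linarith [hz.2.2.2]
    have := deriv_bound hg hI (Bx_subset_Om ha hb) (by positivity : 0 < l / 8) hball
    rw [← he] at this
    rw [le_div_iff₀ (by positivity)]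
    have hpi : 3 < π := Real.pi_gt_three
    have h5 : 3 * (l / 8) ^ 2 * ‖deriv g z‖ ^ 2 ≤ π * (l / 8) ^ 2 * ‖deriv g z‖ ^ 2 := by
      gcongr
    nlinarith
  have hc : cx a l ∈ s := by
    simp only [hs, cx]
    refine ⟨by linarith, by linarith, by linarith, le_refl _⟩
  have hw : w ∈ s := ⟨h1, h2, h3, h4⟩
  have hmv := hconv.norm_image_sub_le_of_norm_deriv_le hdiff hbound hc hw
  have hdist : ‖w - cx a l‖ ^ 2 ≤ 13 / 64 * l ^ 2 := by
    rw [← Complex.normSq_eq_norm_sq, Complex.normSq_apply]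
    simp only [cx, Complex.sub_re, Complex.sub_im]
    have e1 : (w.re - (a + l / 2)) ^ 2 ≤ (l / 4) ^ 2 := by
      apply sq_le_sq'
      · linarith
      · linarith
    have e2 : (w.im - l / 2) ^ 2 ≤ (3 * l / 8) ^ 2 := by
      apply sq_le_sq'
      · linarith
      · linarith
    nlinarith
  calc ‖g w - g (cx a l)‖ ^ 2 ≤ (C * ‖w - cx a l‖) ^ 2 := by gcongr
    _ = C ^ 2 * ‖w - cx a l‖ ^ 2 := by ring
    _ ≤ C ^ 2 * (13 / 64 * l ^ 2) := by gcongr
    _ = 13 / 3 * e := by rw [hC2]; field_simp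
    _ ≤ 9 * e := by linarith

lemma core_osc' (hg : DifferentiableOn ℂ g {w | 0 < w.im})
    (hI : IntegrableOn (fun w => ‖deriv g w‖ ^ 2) Om) {a l : ℝ} (hl : 0 < l) (ha : 0 ≤ a)
    (hb : a + l ≤ 2 * π) {w : ℂ} (h1 : a + l / 4 ≤ w.re) (h2 : w.re ≤ a + 3 * l / 4)
    (h3 : l / 8 ≤ w.im) (h4 : w.im ≤ l / 2) :
    ‖g w - g (cx a l)‖ ≤ 3 * Real.sqrt (en g (Bx a l)) := by
  have h := core_osc hg hI hl ha hb h1 h2 h3 h4
  have h5 : ‖g w - g (cx a l)‖ ≤ Real.sqrt (9 * en g (Bx a l)) := Real.le_sqrt_of_sq_le h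
  rwa [Real.sqrt_mul (by norm_num), show Real.sqrt 9 = 3 by
    rw [show (9:ℝ) = 3 ^ 2 by norm_num]; exact Real.sqrt_sq (by norm_num)] at h5

/-- the greedy choice of digits -/
noncomputable def choice (g : ℂ → ℂ) (a l : ℝ) : ℝ :=
  open Classical in
  if en g (Bx (a + l / 4) (l / 4)) ≤ en g (Bx (a + 2 * (l / 4)) (l / 4)) then 1 else 2

lemma choice_eq (g : ℂ → ℂ) (a l : ℝ) : choice g a l = 1 ∨ choice g a l = 2 := by
  unfold choice
  split_ifs <;> simp

lemma choice_en (hI : IntegrableOn (fun w => ‖deriv g w‖ ^ 2) Om) {a l : ℝ} (hl : 0 < l)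
    (ha : 0 ≤ a) (hb : a + l ≤ 2 * π) :
    en g (Bx (a + choice g a l * (l / 4)) (l / 4)) ≤ en g (Bx a l) / 2 := by
  have h := en_union_le hI (S := Bx (a + l / 4) (l / 4)) (T := Bx (a + 2 * (l / 4)) (l / 4))
    (U := Bx a l) (isOpen_Bx _ _).measurableSet
    (fun w hw => ⟨by linarith [hw.1], by linarith [hw.2.1], hw.2.2.1, by linarith [hw.2.2.2]⟩)
    (fun w hw => ⟨by linarith [hw.1], by linarith [hw.2.1], hw.2.2.1, by linarith [hw.2.2.2]⟩)
    (Bx_subset_Om ha hb) (by
      rw [Set.disjoint_left]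
      intro w hw hw'
      linarith [hw.2.1, hw'.1])
  unfold choice
  split_ifs with hc
  · rw [one_mul]; linarith
  · push Not at hc; linarith

/-- the greedy path -/
noncomputable def path (g : ℂ → ℂ) (a l : ℝ) : ℕ → ℝ
  | 0 => a
  | k + 1 => path g a l k + choice g (path g a l k) (l * (1 / 4) ^ k) * (l * (1 / 4) ^ (k + 1))

lemma path_bounds (g : ℂ → ℂ) {a l : ℝ} (hl : 0 < l) (k : ℕ) :
    a ≤ path g a l k ∧ path g a l k + l * (1 / 4) ^ k ≤ a + l := by
  induction k with
  | zero => simp [path]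
  | succ k ih =>
    have hp : (0:ℝ) < l * (1 / 4) ^ k := by positivity
    have e : l * (1 / 4) ^ (k + 1) = l * (1 / 4) ^ k / 4 := by ring
    simp only [path]
    rw [e]
    rcases choice_eq g (path g a l k) (l * (1 / 4) ^ k) with h | h <;> rw [h] <;>
      constructor <;> linarith [ih.1, ih.2]

lemma greedy (hg : DifferentiableOn ℂ g {w | 0 < w.im})
    (hI : IntegrableOn (fun w => ‖deriv g w‖ ^ 2) Om) {a l : ℝ} (hl : 0 < l) (ha : 0 ≤ a)
    (hb : a + l ≤ 2 * π)
    (hlim : ∀ κ ∈ KC, Tendsto (fun y : ℝ => g ⟨a + l * κ, y⟩) (𝓝[>] 0) (𝓝 0)) :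
    ‖g (cx a l)‖ ≤ 11 * Real.sqrt (en g (Bx a l)) := by
  set p := path g a l with hp
  set L : ℕ → ℝ := fun k => l * (1 / 4) ^ k with hL
  set e : ℕ → ℝ := fun k => en g (Bx (p k) (L k)) with he
  have hLpos : ∀ k, 0 < L k := fun k => by simp only [hL]; positivity
  have hLs : ∀ k, L (k + 1) = L k / 4 := fun k => by simp only [hL]; ring
  have hps : ∀ k, p (k + 1) = p k + choice g (p k) (L k) * (L k / 4) := by
    intro k
    simp only [hp, path, hL]
    ring
  have hpb : ∀ k, a ≤ p k ∧ p k + L k ≤ a + l := fun k => path_bounds g hl k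
  have hpa : ∀ k, 0 ≤ p k := fun k => ha.trans (hpb k).1
  have hpb' : ∀ k, p k + L k ≤ 2 * π := fun k => (hpb k).2.trans hb
  have hen : ∀ k, e (k + 1) ≤ e k / 2 := by
    intro k
    simp only [he]
    rw [hLs, hps]
    exact choice_en hI (hLpos k) (hpa k) (hpb' k)
  have he0 : ∀ k, 0 ≤ e k := fun k => en_nonneg _ _
  have hek : ∀ k, e k ≤ e 0 * (1 / 2) ^ k := by
    intro k
    induction k with
    | zero => simp
    | succ k ih => calc e (k + 1) ≤ e k / 2 := hen k
        _ ≤ e 0 * (1 / 2) ^ k / 2 := by linarith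
        _ = _ := by ring
  have hetend : Tendsto (fun k => Real.sqrt (e k)) atTop (𝓝 0) := by
    have h1 : Tendsto (fun k : ℕ => e 0 * (1 / 2 : ℝ) ^ k) atTop (𝓝 0) := by
      have := (tendsto_pow_atTop_nhds_zero_of_lt_one (r := (1 / 2 : ℝ)) (by norm_num)
        (by norm_num)).const_mul (e 0)
      simpa using this
    have h2 : Tendsto e atTop (𝓝 0) := squeeze_zero he0 hek h1
    have := h2.sqrt
    simpa using this
  -- monotonicity of the potential
  have hmono : ∀ k, ‖g (cx (p 0) (L 0))‖ - 11 * Real.sqrt (e 0) ≤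
      ‖g (cx (p k) (L k))‖ - 11 * Real.sqrt (e k) := by
    intro k
    induction k with
    | zero => exact le_refl _
    | succ k ih =>
      refine ih.trans ?_
      have hosc : ‖g (cx (p (k + 1)) (L (k + 1))) - g (cx (p k) (L k))‖ ≤
          3 * Real.sqrt (e k) := by
        have hLk := hLpos k
        apply core_osc' hg hI (hLpos k) (hpa k) (hpb' k)
        · simp only [cx]
          rw [hps, hLs]
          rcases choice_eq g (p k) (L k) with h | h <;> rw [h] <;> linarith
        · simp only [cx]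
          rw [hps, hLs]
          rcases choice_eq g (p k) (L k) with h | h <;> rw [h] <;> linarith
        · simp only [cx]
          rw [hLs]; linarith
        · simp only [cx]
          rw [hLs]; linarith
      have h1 : ‖g (cx (p k) (L k))‖ - 3 * Real.sqrt (e k) ≤ ‖g (cx (p (k + 1)) (L (k + 1)))‖ := by
        have := norm_sub_norm_le (g (cx (p k) (L k))) (g (cx (p (k + 1)) (L (k + 1))))
        rw [norm_sub_rev] at this
        linarith
      have h2 : Real.sqrt (e (k + 1)) ≤ 8 / 11 * Real.sqrt (e k) := by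
        have : Real.sqrt (e (k + 1)) ≤ Real.sqrt ((8 / 11) ^ 2 * e k) := by
          apply Real.sqrt_le_sqrt
          have := hen k
          have := he0 k
          nlinarith
        rwa [Real.sqrt_mul (by positivity), Real.sqrt_sq (by norm_num)] at this
      linarith
  -- the limit point
  set d : ℕ → ℝ := fun k => choice g (p k) (L k) with hd
  set κ : ℝ := ∑' j, d j * (1 / 4) ^ (j + 1) with hκ
  have hκK : κ ∈ KC := ⟨d, fun j => choice_eq _ _ _, rfl⟩
  have hsum : Summable (fun j : ℕ => d j * (1 / 4 : ℝ) ^ (j + 1)) := by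
    have h0 : Summable (fun j : ℕ => 2 * (1 / 4 : ℝ) ^ (j + 1)) := by
      apply Summable.mul_left
      exact (summable_nat_add_iff 1).2 (summable_geometric_of_lt_one (by norm_num) (by norm_num))
    refine Summable.of_nonneg_of_le (fun j => ?_) (fun j => ?_) h0
    · rcases choice_eq g (p j) (L j) with h | h <;> simp only [hd] <;> rw [h] <;> positivity
    · rcases choice_eq g (p j) (L j) with h | h <;> simp only [hd] <;> rw [h] <;> gcongr
      norm_num
  have hpk : ∀ k, p k = a + l * ∑ j ∈ Finset.range k, d j * (1 / 4) ^ (j + 1) := by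
    intro k
    induction k with
    | zero => simp [hp, path]
    | succ k ih =>
      rw [hps, Finset.sum_range_succ, mul_add, ← add_assoc, ← ih]
      simp only [hd, hL]
      ring
  have hptend : Tendsto p atTop (𝓝 (a + l * κ)) := by
    have h1 := hsum.hasSum.tendsto_sum_nat
    have h2 := (h1.const_mul l).const_add a
    refine h2.congr fun k => ?_
    rw [hpk k]
  have hpm : Monotone p := by
    apply monotone_nat_of_le_succ
    intro k
    rw [hps]
    have hLk := hLpos k
    rcases choice_eq g (p k) (L k) with h | h <;> rw [h] <;> linarith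
  have hpa' : Antitone (fun k => p k + L k) := by
    apply antitone_nat_of_succ_le
    intro k
    rw [hps, hLs]
    have hLk := hLpos k
    rcases choice_eq g (p k) (L k) with h | h <;> rw [h] <;> linarith
  have hLtend : Tendsto L atTop (𝓝 0) := by
    have := (tendsto_pow_atTop_nhds_zero_of_lt_one (r := (1 / 4 : ℝ)) (by norm_num)
        (by norm_num)).const_mul l
    simpa [hL] using this
  have hlow : ∀ k, p k ≤ a + l * κ := fun k => hpm.ge_of_tendsto hptend k
  have hup : ∀ k, a + l * κ ≤ p k + L k := by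
    intro k
    have h1 : Tendsto (fun k => p k + L k) atTop (𝓝 (a + l * κ + 0)) := hptend.add hLtend
    rw [add_zero] at h1
    exact hpa'.le_of_tendsto h1 k
  have hlow' : ∀ k, p k + L k / 4 ≤ a + l * κ := by
    intro k
    refine le_trans ?_ (hlow (k + 1))
    rw [hps]
    have hLk := hLpos k
    rcases choice_eq g (p k) (L k) with h | h <;> rw [h] <;> linarith
  have hup' : ∀ k, a + l * κ ≤ p k + 3 * L k / 4 := by
    intro k
    refine (hup (k + 1)).trans ?_
    rw [hps, hLs]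
    have hLk := hLpos k
    rcases choice_eq g (p k) (L k) with h | h <;> rw [h] <;> linarith
  have hclose : ∀ k, ‖g (cx (p k) (L k))‖ ≤ ‖g ⟨a + l * κ, L k / 2⟩‖ + 3 * Real.sqrt (e k) := by
    intro k
    have hLk := hLpos k
    have := core_osc' hg hI (hLpos k) (hpa k) (hpb' k) (w := ⟨a + l * κ, L k / 2⟩)
      (hlow' k) (hup' k) (by simp only; linarith) (le_refl _)
    have h2 := norm_sub_norm_le (g (cx (p k) (L k))) (g ⟨a + l * κ, L k / 2⟩)
    rw [norm_sub_rev] at h2
    linarith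
  have hg0 : Tendsto (fun k => ‖g ⟨a + l * κ, L k / 2⟩‖) atTop (𝓝 0) := by
    have h1 : Tendsto (fun k => L k / 2) atTop (𝓝[>] 0) := by
      refine tendsto_nhdsWithin_iff.2 ⟨by simpa using hLtend.div_const 2, Eventually.of_forall ?_⟩
      intro k
      have := hLpos k
      simp only [mem_Ioi]
      positivity
    have := ((hlim κ hκK).comp h1).norm
    simpa using this
  have hfin : Tendsto (fun k => ‖g ⟨a + l * κ, L k / 2⟩‖ + 3 * Real.sqrt (e k) -
      11 * Real.sqrt (e k)) atTop (𝓝 (0 + 3 * 0 - 11 * 0)) :=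
    (hg0.add (hetend.const_mul 3)).sub (hetend.const_mul 11)
  have hle : ‖g (cx (p 0) (L 0))‖ - 11 * Real.sqrt (e 0) ≤ 0 + 3 * 0 - 11 * 0 := by
    refine ge_of_tendsto hfin (Eventually.of_forall fun k => ?_)
    have h1 := hmono k
    have h2 := hclose k
    linarith
  have h0 : p 0 = a := by simp [hp, path]
  have hL0 : L 0 = l := by simp [hL]
  simp only [he] at hle
  rw [h0, hL0] at hle
  linarith

end

end Pool.Agent.Helper57.Dir
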