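import Mathlib

/-!
# Weighted logarithmic averages
-/

set_option autoImplicit false

namespace Pool.Agent.Helper57.Dir

open Filter MeasureTheory Metric Real Set Topology

/-- linearised Jensen inequality -/
lemma log_le_lin {t c : ℝ} (ht : 0 < t) (hc : 0 < c) :
    Real.log t ≤ Real.log c - 1 + t / c := by
  have h1 := Real.log_le_sub_one_of_pos (div_pos ht hc)
  rw [Real.log_div ht.ne' hc.ne'] at h1
  linarith

lemma logavg_le {P G : ℝ → ℝ} {S : Set ℝ} (hP : ∀ x, 0 ≤ P x)
    (hPi : IntegrableOn P S) (hPG : IntegrableOn (fun x => P x * G x) S)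
    (hPl : IntegrableOn (fun x => P x * Real.log (G x)) S) (hG : ∀ᵐ x, 0 < G x)
    {c : ℝ} (hc : 0 < c) :
    ∫ x in S, P x * Real.log (G x) ≤ (Real.log c - 1) * (∫ x in S, P x) +
      (∫ x in S, P x * G x) / c := by
  have h1 : ∫ x in S, P x * Real.log (G x) ≤
      ∫ x in S, ((Real.log c - 1) * P x + (P x * G x) / c) := by
    refine setIntegral_mono_ae hPl ((hPi.const_mul _).add (hPG.div_const _)) ?_
    filter_upwards [hG] with x hx
    have := mul_le_mul_of_nonneg_left (log_le_lin hx hc) (hP x)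
    calc P x * Real.log (G x) ≤ P x * (Real.log c - 1 + G x / c) := this
      _ = _ := by ring
  rw [integral_add (hPi.const_mul _) (hPG.div_const _), integral_const_mul, integral_div] at h1
  exact h1

/-- main abstract estimate -/
lemma logavg_main {P G : ℝ → ℝ} {I : Set ℝ} (hI : MeasurableSet I) (hP : ∀ x, 0 ≤ P x)
    (hPi : IntegrableOn P I) (hP1 : ∫ x in I, P x = 1)
    (hPG : IntegrableOn (fun x => P x * G x) I)
    (hPl : IntegrableOn (fun x => P x * Real.log (G x)) I) (hG : ∀ᵐ x, 0 < G x)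
    {N : ℕ} (M : ℕ → Set ℝ) (hM : ∀ j, MeasurableSet (M j)) (hMI : ∀ j < N, M j ⊆ I)
    (hMd : ∀ i < N, ∀ j < N, i ≠ j → Disjoint (M i) (M j))
    (cc : ℕ → ℝ) (hcc : ∀ j, 0 < cc j)
    (hsm : ∀ j < N, ∫ x in M j, P x * G x ≤ (∫ x in M j, P x) * cc j)
    {V c ω : ℝ} (hV : V = ∫ x in I, P x * G x) (hV0 : 0 < V) (hc : 0 < c)
    (hω : ω = ∑ j ∈ Finset.range N, ∫ x in M j, P x)
    (hsum : ∑ j ∈ Finset.range N, (∫ x in M j, P x) * cc j ≤ ω * c) :
    ∫ x in I, P x * Real.log (G x) ≤ ω * Real.log c + (1 - ω) * (Real.log V - 1) + 1 := by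
  set U : Set ℝ := ⋃ j ∈ Finset.range N, M j with hU
  have hUm : MeasurableSet U := Finset.measurableSet_biUnion _ fun j _ => hM j
  have hUI : U ⊆ I := by
    intro x hx
    simp only [hU, mem_iUnion, Finset.mem_range, exists_prop] at hx
    obtain ⟨j, hj, hxj⟩ := hx
    exact hMI j hj hxj
  have hsumU : ∀ F : ℝ → ℝ, IntegrableOn F I →
      ∫ x in U, F x = ∑ j ∈ Finset.range N, ∫ x in M j, F x := by
    intro F hF
    rw [hU]
    apply integral_biUnion_finset
    · intro j _; exact hM j
    · intro i hi j hj hij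
      exact hMd i (Finset.mem_range.1 hi) j (Finset.mem_range.1 hj) hij
    · intro j hj
      exact hF.mono_set (hMI j (Finset.mem_range.1 hj))
  have hωU : ∫ x in U, P x = ω := by rw [hsumU P hPi, hω]
  have hsplit : ∀ F : ℝ → ℝ, IntegrableOn F I →
      ∫ x in I, F x = (∫ x in U, F x) + ∫ x in I \ U, F x := by
    intro F hF
    have h1 := integral_inter_add_sdiff hUm hF
    rw [inter_eq_self_of_subset_right hUI] at h1
    exact h1.symm
  have hrest : ∫ x in I \ U, P x = 1 - ω := by
    have := hsplit P hPi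
    rw [hP1, hωU] at this
    linarith
  -- estimate on the rest
  have hIU : I \ U ⊆ I := fun x hx => hx.1
  have h1 : ∫ x in I \ U, P x * Real.log (G x) ≤ (Real.log V - 1) * (1 - ω) + 1 := by
    have h2 := logavg_le hP (hPi.mono_set hIU) (hPG.mono_set hIU)
      (hPl.mono_set hIU) hG hV0
    rw [hrest] at h2
    have h3 : ∫ x in I \ U, P x * G x ≤ V := by
      rw [hV]
      refine setIntegral_mono_set hPG ?_ hIU.eventuallyLE
      exact ae_restrict_of_ae (hG.mono fun x hx => mul_nonneg (hP x) hx.le)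
    have h4 : (∫ x in I \ U, P x * G x) / V ≤ 1 := by
      rw [div_le_one hV0]; exact h3
    linarith
  -- estimate on the pieces
  have h2 : ∀ j < N, ∫ x in M j, P x * Real.log (G x) ≤ (∫ x in M j, P x) * Real.log (cc j) := by
    intro j hj
    have h3 := logavg_le hP (hPi.mono_set (hMI j hj)) (hPG.mono_set (hMI j hj))
      (hPl.mono_set (hMI j hj)) hG (hcc j)
    have h4 : (∫ x in M j, P x * G x) / cc j ≤ ∫ x in M j, P x := by
      rw [div_le_iff₀ (hcc j)]
      exact hsm j hj
    linarith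
  have h3 : ∀ j < N, (∫ x in M j, P x) * Real.log (cc j) ≤
      (∫ x in M j, P x) * (Real.log c - 1) + (∫ x in M j, P x) * cc j / c := by
    intro j hj
    have h4 : 0 ≤ ∫ x in M j, P x := integral_nonneg hP
    have := mul_le_mul_of_nonneg_left (log_le_lin (hcc j) hc) h4
    calc (∫ x in M j, P x) * Real.log (cc j) ≤ (∫ x in M j, P x) * (Real.log c - 1 + cc j / c) := this
      _ = _ := by ring
  have h5 : ∫ x in U, P x * Real.log (G x) ≤ ω * Real.log c := by
    rw [hsumU _ hPl]
    calc ∑ j ∈ Finset.range N, ∫ x in M j, P x * Real.log (G x)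
        ≤ ∑ j ∈ Finset.range N, ((∫ x in M j, P x) * (Real.log c - 1) +
          (∫ x in M j, P x) * cc j / c) :=
          Finset.sum_le_sum fun j hj => (h2 j (Finset.mem_range.1 hj)).trans
            (h3 j (Finset.mem_range.1 hj))
      _ = ω * (Real.log c - 1) + (∑ j ∈ Finset.range N, (∫ x in M j, P x) * cc j) / c := by
          rw [Finset.sum_add_distrib, ← Finset.sum_mul, ← Finset.sum_div, hω]
      _ ≤ ω * (Real.log c - 1) + ω := by
          gcongr
          rw [div_le_iff₀ hc]
          exact hsum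
      _ = ω * Real.log c := by ring
  rw [hsplit _ hPl]
  linarith

end Pool.Agent.Helper57.Dir
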