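import Pool.Agent.Helper57.Dir.Pois

/-!
# The pointwise dichotomy
-/

set_option autoImplicit false

namespace Pool.Agent.Helper57.Dir

open Filter MeasureTheory Metric Real Set Topology

lemma ae_ne {f : ℂ → ℂ} (hf : DifferentiableOn ℂ f (ball 0 1)) {p : ℂ} (hp : p ∈ ball (0:ℂ) 1)
    (hfp : f p ≠ 0) {y : ℝ} (hy : 0 < y) : ∀ᵐ x : ℝ, pull f ⟨x, y⟩ ≠ 0 := by
  set R := Real.exp (-y) with hR
  have hR0 : 0 < R := Real.exp_pos _
  have hR1 : R < 1 := by
    rw [hR, ← Real.exp_zero]; exact Real.exp_lt_exp.2 (by linarith)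
  have han : AnalyticOnNhd ℂ f (ball 0 1) := hf.analyticOnNhd isOpen_ball
  have h1 : f ⁻¹' {0}ᶜ ∈ codiscreteWithin (ball (0:ℂ) 1) :=
    han.preimage_zero_mem_codiscreteWithin hfp hp (isConnected_ball one_pos)
  have h2 : f ⁻¹' {0}ᶜ ∈ codiscreteWithin (sphere (0:ℂ) |R|) := by
    refine codiscreteWithin_mono ?_ h1
    intro z hz
    rw [mem_sphere_zero_iff_norm, abs_of_pos hR0] at hz
    rw [mem_ball_zero_iff, hz]
    exact hR1
  have h3 : circleMap 0 R ⁻¹' (f ⁻¹' {0}ᶜ) ∈ codiscrete ℝ :=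
    circleMap_preimage_codiscrete hR0.ne' h2
  have h4 : circleMap 0 R ⁻¹' (f ⁻¹' {0}ᶜ) ∈ ae ((volume : Measure ℝ).restrict univ) :=
    ae_restrict_le_codiscreteWithin MeasurableSet.univ h3
  rw [Measure.restrict_univ] at h4
  filter_upwards [h4] with x hx
  rw [pull, phi_eq]
  exact hx

lemma sum_en_le {g : ℂ → ℂ} (hI : IntegrableOn (fun w => ‖deriv g w‖ ^ 2) Om) {b l : ℝ}
    (hl : 0 < l) (hb : 0 ≤ b) (N : ℕ) (hbN : b + N * l ≤ 2 * π) :
    ∑ j ∈ Finset.range N, en g (Bx (b + j * l) l) ≤ en g Om := by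
  have hsub : ∀ j < N, Bx (b + j * l) l ⊆ Om := by
    intro j hj
    apply Bx_subset_Om
    · positivity
    · have : (j : ℝ) + 1 ≤ N := by exact_mod_cast hj
      nlinarith
  have h1 : en g (⋃ j ∈ Finset.range N, Bx (b + j * l) l) =
      ∑ j ∈ Finset.range N, en g (Bx (b + j * l) l) := by
    unfold en
    apply integral_biUnion_finset
    · intro j _; exact (isOpen_Bx _ _).measurableSet
    · intro i _ j _ hij
      rw [Function.onFun, Set.disjoint_left]
      intro w hw hw'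
      rcases lt_or_gt_of_ne hij with h | h
      · have : (i : ℝ) + 1 ≤ j := by exact_mod_cast h
        have h3 := hw.2.1
        have h4 := hw'.1
        nlinarith
      · have : (j : ℝ) + 1 ≤ i := by exact_mod_cast h
        have h3 := hw'.2.1
        have h4 := hw.1
        nlinarith
    · intro j hj
      exact hI.mono_set (hsub j (Finset.mem_range.1 hj))
  rw [← h1]
  apply en_mono hI _ subset_rfl
  intro w hw
  simp only [mem_iUnion, Finset.mem_range, exists_prop] at hw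
  obtain ⟨j, hj, hwj⟩ := hw
  exact hsub j hj hwj

/-- Poisson average of `|g|^2` on the line at height `y`. -/
noncomputable def PV (f : ℂ → ℂ) (ρ y θ : ℝ) : ℝ :=
  ∫ x in Ioo 0 (2 * π), PK ρ θ x / (2 * π) * ‖pull f ⟨x, y⟩‖ ^ 2

lemma pull_diff {f : ℂ → ℂ} (hf : DifferentiableOn ℂ f (ball 0 1)) :
    DifferentiableOn ℂ (pull f) {w | 0 < w.im} :=
  fun _ hw => (hasDerivAt_pull hf hw).differentiableAt.differentiableWithinAt

section

variable {f : ℂ → ℂ}

lemma P_int {ρ : ℝ} (h0 : 0 ≤ ρ) (h1 : ρ < 1) (θ : ℝ) (S : Set ℝ) (hS : S ⊆ Ioo 0 (2 * π)) :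
    IntegrableOn (fun x => PK ρ θ x / (2 * π)) S := by
  have : IntegrableOn (fun x => PK ρ θ x / (2 * π)) (Icc 0 (2 * π)) :=
    ((PK_cont' h0 h1 θ).div_const _).continuousOn.integrableOn_Icc
  exact this.mono_set (hS.trans Ioo_subset_Icc_self)

lemma PG_int (hf : DifferentiableOn ℂ f (ball 0 1)) {ρ : ℝ} (h0 : 0 ≤ ρ) (h1 : ρ < 1) (θ : ℝ)
    {y : ℝ} (hy : 0 < y) (S : Set ℝ) (hS : S ⊆ Ioo 0 (2 * π)) :
    IntegrableOn (fun x => PK ρ θ x / (2 * π) * ‖pull f ⟨x, y⟩‖ ^ 2) S := by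
  have hc := continuous_slice (pull_diff hf) hy
  have : IntegrableOn (fun x => PK ρ θ x / (2 * π) * ‖pull f ⟨x, y⟩‖ ^ 2) (Icc 0 (2 * π)) :=
    (((PK_cont' h0 h1 θ).div_const _).mul (hc.norm.pow 2)).continuousOn.integrableOn_Icc
  exact this.mono_set (hS.trans Ioo_subset_Icc_self)

lemma P_int_one {ρ : ℝ} (h0 : 0 ≤ ρ) (h1 : ρ < 1) (θ : ℝ) :
    ∫ x in Ioo 0 (2 * π), PK ρ θ x / (2 * π) = 1 := by
  rw [integral_div, PK_int h0 h1, div_self (by positivity)]

/-- log version of the Poisson-Jensen inequality with normalised kernel -/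
lemma PJ_strip' (hf : DifferentiableOn ℂ f (ball 0 1)) {θ y δ : ℝ} (hy : 0 < y)
    (hδ : 0 < δ) (hne : pull f ⟨θ, y + δ⟩ ≠ 0) :
    IntegrableOn (fun x => PK (Real.exp (-δ)) θ x / (2 * π) * Real.log (‖pull f ⟨x, y⟩‖ ^ 2))
      (Ioo 0 (2 * π)) ∧
    Real.log (‖pull f ⟨θ, y + δ⟩‖ ^ 2) ≤
      ∫ x in Ioo 0 (2 * π), PK (Real.exp (-δ)) θ x / (2 * π) * Real.log (‖pull f ⟨x, y⟩‖ ^ 2) := by
  obtain ⟨h1, h2⟩ := PJ_strip hf hy hδ hne
  have e : ∀ x, PK (Real.exp (-δ)) θ x / (2 * π) * Real.log (‖pull f ⟨x, y⟩‖ ^ 2) =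
      (PK (Real.exp (-δ)) θ x * Real.log (‖pull f ⟨x, y⟩‖ ^ 2)) / (2 * π) := fun x => by ring
  constructor
  · simp_rw [e]
    exact h1.div_const _
  · simp_rw [e]
    rw [integral_div, le_div_iff₀ (by positivity)]
    linarith

lemma exp_neg_facts {δ : ℝ} (hδ : 0 < δ) (hδ1 : δ ≤ 1) :
    0 < Real.exp (-δ) ∧ Real.exp (-δ) < 1 ∧ δ / 2 ≤ 1 - Real.exp (-δ) ∧ 1 - Real.exp (-δ) ≤ δ := by
  refine ⟨Real.exp_pos _, ?_, ?_, ?_⟩
  · rw [← Real.exp_zero]; exact Real.exp_lt_exp.2 (by linarith)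
  · have h1 : Real.exp (-δ) ≤ 1 / (1 + δ) := by
      rw [Real.exp_neg, ← one_div]
      apply one_div_le_one_div_of_le (by linarith)
      have := Real.add_one_le_exp δ
      linarith
    have h2 : 1 / (1 + δ) ≤ 1 - δ / 2 := by
      rw [div_le_iff₀ (by linarith)]
      nlinarith
    linarith
  · have := Real.add_one_le_exp (-δ)
    linarith

/-- The subharmonicity of `|g|^2`. -/
lemma X_le_V (hf : DifferentiableOn ℂ f (ball 0 1)) {p : ℂ} (hp : p ∈ ball (0:ℂ) 1)
    (hfp : f p ≠ 0) {θ y δ : ℝ} (hy : 0 < y) (hδ : 0 < δ) (hδ1 : δ ≤ 1)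
    (hne : pull f ⟨θ, y + δ⟩ ≠ 0) :
    0 < PV f (Real.exp (-δ)) y θ ∧ ‖pull f ⟨θ, y + δ⟩‖ ^ 2 ≤ PV f (Real.exp (-δ)) y θ := by
  obtain ⟨hρ0, hρ1, -, -⟩ := exp_neg_facts hδ hδ1
  obtain ⟨h1, h2⟩ := PJ_strip' hf hy hδ hne
  set X := ‖pull f ⟨θ, y + δ⟩‖ ^ 2 with hX
  have hX0 : 0 < X := by positivity
  have hG : ∀ᵐ x : ℝ, 0 < ‖pull f ⟨x, y⟩‖ ^ 2 := by
    filter_upwards [ae_ne hf hp hfp hy] with x hx
    positivity
  have key : ∀ c : ℝ, 0 < c → Real.log X ≤ (Real.log c - 1) + PV f (Real.exp (-δ)) y θ / c := by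
    intro c hc
    have h3 := logavg_le (P := fun x => PK (Real.exp (-δ)) θ x / (2 * π))
      (G := fun x => ‖pull f ⟨x, y⟩‖ ^ 2) (S := Ioo 0 (2 * π))
      (fun x => div_nonneg (PK_nonneg hρ0.le hρ1 _ _) (by positivity))
      (P_int hρ0.le hρ1 θ _ subset_rfl) (PG_int hf hρ0.le hρ1 θ hy _ subset_rfl) h1 hG hc
    rw [P_int_one hρ0.le hρ1, mul_one] at h3
    exact h2.trans h3
  have hV0 : 0 < PV f (Real.exp (-δ)) y θ := by
    have h4 : 0 ≤ PV f (Real.exp (-δ)) y θ := by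
      apply integral_nonneg
      intro x
      have := PK_nonneg hρ0.le hρ1 θ x
      positivity
    rcases h4.lt_or_eq with h | h
    · exact h
    · have h5 := key X hX0
      rw [← h, zero_div] at h5
      linarith
  refine ⟨hV0, ?_⟩
  have h5 := key _ hV0
  rw [div_self hV0.ne'] at h5
  have h6 : Real.log X ≤ Real.log (PV f (Real.exp (-δ)) y θ) := by linarith
  exact (Real.log_le_log_iff hX0 hV0).1 h6

lemma exp_two_bound : 32 * π / 200 ≤ Real.log 2 := by
  have h1 := Real.pi_lt_d2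
  have h2 := Real.log_two_gt_d9
  linarith

/-- Pointwise dichotomy. -/
theorem dichotomy (hf : DifferentiableOn ℂ f (ball 0 1))
    (hI : IntegrableOn (fun w => ‖deriv (pull f) w‖ ^ 2) Om)
    {p : ℂ} (hp : p ∈ ball (0:ℂ) 1) (hfp : f p ≠ 0)
    {δ : ℝ} (hδ : 0 < δ) (hδ1 : δ ≤ 1) {k : ℕ} (hk : 200 ≤ k)
    {l : ℝ} (hl : l = 200 * δ / k / 4 ^ k) {b θ : ℝ} (hb : 0 ≤ b) (hb2 : b + 1 ≤ 2 * π)
    (hθ1 : b ≤ θ) (hθ2 : θ ≤ b + δ)
    (hlim : ∀ j : ℕ, j < 4 ^ k → ∀ κ ∈ KC,
      Tendsto (fun y : ℝ => pull f ⟨b + j * l + l * κ, y⟩) (𝓝[>] 0) (𝓝 0)) :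
    ‖pull f ⟨θ, l / 2 + δ⟩‖ ^ 2 ≤ (PV f (Real.exp (-δ)) (l / 2) θ - ‖pull f ⟨θ, l / 2 + δ⟩‖ ^ 2) +
      409600 * (en (pull f) Om + 1) / 2 ^ k ∧
    ‖pull f ⟨θ, l / 2 + δ⟩‖ ^ 2 ≤ PV f (Real.exp (-δ)) (l / 2) θ := by
  obtain ⟨hρ0, hρ1, hρ2, hρ3⟩ := exp_neg_facts hδ hδ1
  have hkr : (200 : ℝ) ≤ k := by exact_mod_cast hk
  have hk0 : (0 : ℝ) < k := by linarith
  have hl0 : 0 < l := by rw [hl]; positivity
  have hy : 0 < l / 2 := by positivity
  set D0 := en (pull f) Om with hD0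
  have hD0n : 0 ≤ D0 := en_nonneg _ _
  have hc0 : 0 ≤ 409600 * (D0 + 1) / 2 ^ k := by positivity
  by_cases hne : pull f ⟨θ, l / 2 + δ⟩ = 0
  · have hVn : 0 ≤ PV f (Real.exp (-δ)) (l / 2) θ := by
      apply integral_nonneg
      intro x
      have := PK_nonneg hρ0.le hρ1 θ x
      positivity
    rw [hne]
    simp only [norm_zero]
    constructor <;> norm_num <;> linarith
  obtain ⟨hV0, hXV⟩ := X_le_V hf hp hfp hy hδ hδ1 hne
  refine ⟨?_, hXV⟩
  obtain ⟨h1, h2⟩ := PJ_strip' hf hy hδ hne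
  set X := ‖pull f ⟨θ, l / 2 + δ⟩‖ ^ 2 with hX
  have hX0 : 0 < X := by positivity
  set V := PV f (Real.exp (-δ)) (l / 2) θ with hV
  set ρ := Real.exp (-δ) with hρ
  have hG : ∀ᵐ x : ℝ, 0 < ‖pull f ⟨x, l / 2⟩‖ ^ 2 := by
    filter_upwards [ae_ne hf hp hfp hy] with x hx
    positivity
  set N : ℕ := 4 ^ k with hN
  have hNr : (0 : ℝ) < N := by positivity
  have hNl : (N : ℝ) * l = 200 * δ / k := by
    rw [hl, hN]; push_cast; field_simp
  have hr1 : 200 * δ / k ≤ δ := by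
    rw [div_le_iff₀ hk0]; nlinarith
  set M : ℕ → Set ℝ := fun j => Ioo (b + j * l + l / 4) (b + j * l + 3 * l / 4) with hM
  have hjb : ∀ j : ℕ, j < N → b + j * l + l ≤ b + δ := by
    intro j hj
    have : (j : ℝ) + 1 ≤ N := by exact_mod_cast hj
    nlinarith
  have hj0 : ∀ j : ℕ, b ≤ b + j * l := fun j => by
    have : 0 ≤ (j : ℝ) * l := by positivity
    linarith
  have hMI : ∀ j < N, M j ⊆ Ioo 0 (2 * π) := by
    intro j hj x hx
    have h3 := hjb j hj
    have h4 := hj0 j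
    exact ⟨by linarith [hx.1], by linarith [hx.2]⟩
  set P : ℝ → ℝ := fun x => PK ρ θ x / (2 * π) with hP
  have hPn : ∀ x, 0 ≤ P x := fun x => div_nonneg (PK_nonneg hρ0.le hρ1 _ _) (by positivity)
  have hvolM : ∀ j, (volume.real (M j)) = l / 2 := by
    intro j
    simp only [hM]
    rw [Real.volume_real_Ioo_of_le (by linarith)]
    ring
  have hpi := Real.pi_pos
  -- lower bound for the masses
  have hωlow : ∀ j < N, l / (32 * π * δ) ≤ ∫ x in M j, P x := by
    intro j hj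
    have h3 : ∫ x in M j, (1 / (16 * π * δ) : ℝ) ≤ ∫ x in M j, P x := by
      refine setIntegral_mono_on (integrableOn_const (by simp [hM])) (P_int hρ0.le hρ1 θ _ (hMI j hj))
        measurableSet_Ioo fun x hx => ?_
      have h4 := hjb j hj
      have h5 := hj0 j
      have habs : |x - θ| ≤ δ := by
        rw [abs_le]
        constructor
        · linarith [hx.1]
        · linarith [hx.2]
      have h6 := PK_lower hρ0.le hρ1 (θ := θ) (x := x) (D := 2 * δ) (by linarith)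
      simp only [hP]
      rw [le_div_iff₀ (by positivity)]
      refine le_trans ?_ h6
      rw [le_div_iff₀ (by positivity)]
      have : 1 / (16 * π * δ) * (2 * π) * (2 * δ) ^ 2 = δ / 2 := by
        field_simp
        ring
      rw [this]
      exact hρ2
    rw [setIntegral_const, hvolM, smul_eq_mul] at h3
    refine le_trans (le_of_eq ?_) h3
    field_simp
    ring
  have hPup : ∀ x, P x ≤ 2 / (π * δ) := by
    intro x
    have h3 := PK_le hρ0.le hρ1 θ x
    simp only [hP]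
    rw [div_le_div_iff₀ (by positivity) (by positivity)]
    have h4 : PK ρ θ x ≤ 4 / δ := by
      refine h3.trans ?_
      rw [div_le_div_iff₀ (by linarith) hδ]
      linarith
    calc PK ρ θ x * (π * δ) ≤ 4 / δ * (π * δ) := by gcongr
      _ = 2 * (2 * π) := by field_simp; ring
  have hωup : ∀ j < N, ∫ x in M j, P x ≤ l / (π * δ) := by
    intro j hj
    have h3 : ∫ x in M j, P x ≤ ∫ x in M j, (2 / (π * δ) : ℝ) :=
      setIntegral_mono (P_int hρ0.le hρ1 θ _ (hMI j hj)) (integrableOn_const (by simp [hM]))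
        (fun x => hPup x)
    rw [setIntegral_const, hvolM, smul_eq_mul] at h3
    refine h3.trans (le_of_eq ?_)
    field_simp
  set e : ℕ → ℝ := fun j => en (pull f) (Bx (b + j * l) l) with he
  have he0 : ∀ j, 0 ≤ e j := fun j => en_nonneg _ _
  set cc : ℕ → ℝ := fun j => 12800 * (e j + 1 / N) with hcc
  have hcc0 : ∀ j, 0 < cc j := fun j => by
    have := he0 j
    simp only [hcc]
    positivity
  have hsm : ∀ j < N, ∫ x in M j, P x * ‖pull f ⟨x, l / 2⟩‖ ^ 2 ≤ (∫ x in M j, P x) * cc j := by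
    intro j hj
    have h4 := hjb j hj
    have h5 := hj0 j
    have hmid := mid_small (pull_diff hf) hI hl0 (a := b + j * l) (by linarith) (by linarith)
      (by
        intro κ hκ
        have := hlim j hj κ hκ
        simpa using this) hy (le_refl _)
    have h6 : ∫ x in M j, P x * ‖pull f ⟨x, l / 2⟩‖ ^ 2 ≤
        ∫ x in M j, 2 / (π * δ) * ‖pull f ⟨x, l / 2⟩‖ ^ 2 := by
      refine setIntegral_mono (PG_int hf hρ0.le hρ1 θ hy _ (hMI j hj))
        ((slice_int (pull_diff hf) hy _ _).const_mul _) fun x => ?_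
      exact mul_le_mul_of_nonneg_right (hPup x) (by positivity)
    rw [integral_const_mul] at h6
    have h7 := hωlow j hj
    have h8 : 0 ≤ e j := he0 j
    calc ∫ x in M j, P x * ‖pull f ⟨x, l / 2⟩‖ ^ 2
        ≤ 2 / (π * δ) * ∫ x in M j, ‖pull f ⟨x, l / 2⟩‖ ^ 2 := h6
      _ ≤ 2 / (π * δ) * (200 * l * e j) := by gcongr
      _ = l / (32 * π * δ) * (12800 * e j) := by field_simp; ring
      _ ≤ (∫ x in M j, P x) * (12800 * e j) := by gcongr
      _ ≤ (∫ x in M j, P x) * cc j := by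
        have : 0 ≤ ∫ x in M j, P x := integral_nonneg hPn
        simp only [hcc]
        gcongr
        have : (0:ℝ) ≤ 1 / N := by positivity
        linarith
  set ω := ∑ j ∈ Finset.range N, ∫ x in M j, P x with hω
  have hωlow2 : N * (l / (32 * π * δ)) ≤ ω := by
    rw [hω]
    calc (N : ℝ) * (l / (32 * π * δ)) = ∑ j ∈ Finset.range N, l / (32 * π * δ) := by
          rw [Finset.sum_const, Finset.card_range, nsmul_eq_mul]
      _ ≤ _ := Finset.sum_le_sum fun j hj => hωlow j (Finset.mem_range.1 hj)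
  have hωup2 : ω ≤ 1 := by
    rw [hω]
    calc ∑ j ∈ Finset.range N, ∫ x in M j, P x ≤ ∑ j ∈ Finset.range N, l / (π * δ) :=
          Finset.sum_le_sum fun j hj => hωup j (Finset.mem_range.1 hj)
      _ = (N * l) / (π * δ) := by
          rw [Finset.sum_const, Finset.card_range, nsmul_eq_mul]; ring
      _ ≤ δ / (π * δ) := by rw [hNl]; gcongr
      _ = 1 / π := by field_simp
      _ ≤ 1 := by
        rw [div_le_one hpi]
        linarith [Real.pi_gt_three]
  set c := 409600 * (D0 + 1) / N with hc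
  have hcpos : 0 < c := by positivity
  have hsume : ∑ j ∈ Finset.range N, e j ≤ D0 := by
    apply sum_en_le hI hl0 hb N
    rw [hNl]; linarith
  have hsum : ∑ j ∈ Finset.range N, (∫ x in M j, P x) * cc j ≤ ω * c := by
    calc ∑ j ∈ Finset.range N, (∫ x in M j, P x) * cc j
        ≤ ∑ j ∈ Finset.range N, l / (π * δ) * cc j :=
          Finset.sum_le_sum fun j hj =>
            mul_le_mul_of_nonneg_right (hωup j (Finset.mem_range.1 hj)) (hcc0 j).le
      _ = l / (π * δ) * (12800 * (∑ j ∈ Finset.range N, e j + 1)) := by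
          simp only [hcc]
          rw [← Finset.mul_sum, ← Finset.mul_sum, Finset.sum_add_distrib, Finset.sum_const,
            Finset.card_range, nsmul_eq_mul]
          have : (N : ℝ) * (1 / N) = 1 := by field_simp
          rw [this]
      _ ≤ l / (π * δ) * (12800 * (D0 + 1)) := by gcongr
      _ = N * (l / (32 * π * δ)) * c := by
          rw [hc]; field_simp; ring
      _ ≤ ω * c := by gcongr
  have hmain := logavg_main (P := P) (G := fun x => ‖pull f ⟨x, l / 2⟩‖ ^ 2)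
    (I := Ioo 0 (2 * π)) measurableSet_Ioo hPn (P_int hρ0.le hρ1 θ _ subset_rfl)
    (P_int_one hρ0.le hρ1 θ) (PG_int hf hρ0.le hρ1 θ hy _ subset_rfl) h1 hG M
    (fun j => measurableSet_Ioo) hMI (by
      intro i hi j hj hij
      rw [Set.disjoint_left]
      intro x hx hx'
      rcases lt_or_gt_of_ne hij with h | h
      · have h6 : (i : ℝ) + 1 ≤ j := by exact_mod_cast h
        have h3 := hx.2
        have h4 := hx'.1
        nlinarith
      · have h6 : (j : ℝ) + 1 ≤ i := by exact_mod_cast h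
        have h3 := hx'.2
        have h4 := hx.1
        nlinarith) cc hcc0 hsm (V := V) (c := c) (ω := ω) rfl hV0 hcpos rfl hsum
  have hlogX : Real.log X ≤ ω * Real.log c + (1 - ω) * (Real.log V - 1) + 1 := h2.trans hmain
  rcases le_or_gt V (2 * X) with hcase | hcase
  · -- second case
    have h3 : Real.log V ≤ Real.log 2 + Real.log X := by
      rw [← Real.log_mul (by norm_num) hX0.ne']
      exact Real.log_le_log hV0 hcase
    have hlog2 : Real.log 2 < 1 := by
      have := Real.log_two_lt_d9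
      linarith
    have h4 : (1 - ω) * (Real.log V - 1) ≤ (1 - ω) * Real.log X := by
      apply mul_le_mul_of_nonneg_left _ (by linarith)
      linarith
    have h5 : ω * (Real.log X - Real.log c) ≤ 1 := by nlinarith
    have hω0 : 0 < ω := lt_of_lt_of_le (by positivity) hωlow2
    have h6 : Real.log X - Real.log c ≤ 1 / ω := by
      rw [le_div_iff₀ hω0]; linarith
    have h7 : 1 / ω ≤ k * Real.log 2 := by
      have h8 : (N : ℝ) * (l / (32 * π * δ)) = 200 / (32 * π * k) := by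
        rw [← mul_div_assoc, hNl]; field_simp
      rw [h8] at hωlow2
      calc 1 / ω ≤ 1 / (200 / (32 * π * k)) := by
            apply one_div_le_one_div_of_le (by positivity) hωlow2
        _ = k * (32 * π / 200) := by field_simp
        _ ≤ k * Real.log 2 := by
            gcongr
            exact exp_two_bound
    have h9 : Real.log X ≤ Real.log (c * 2 ^ k) := by
      have e9 : Real.log ((2:ℝ) ^ k) = k * Real.log 2 := Real.log_pow 2 k
      rw [Real.log_mul hcpos.ne' (by positivity), e9]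
      linarith
    have h10 : X ≤ c * 2 ^ k := (Real.log_le_log_iff hX0 (by positivity)).1 h9
    have h11 : c * 2 ^ k = 409600 * (D0 + 1) / 2 ^ k := by
      rw [hc, hN]
      push_cast
      have : (4:ℝ) ^ k = 2 ^ k * 2 ^ k := by
        rw [← mul_pow]; norm_num
      rw [this]
      field_simp
    rw [h11] at h10
    linarith
  · linarith

end

end Pool.Agent.Helper57.Dir
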