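import Mathlib

/-!
# Poisson-Jensen inequality
-/

set_option autoImplicit false

namespace Pool.Agent.Helper57.Dir

open Filter MeromorphicAt MeasureTheory MeromorphicOn Metric Real Set Topology
open scoped ComplexConjugate

/-- The real part of the Herglotz-Riesz kernel. -/
noncomputable def ker (w : ℂ) : ℂ → ℝ := Complex.re ∘ herglotzRieszKernel 0 w

lemma refl_norm_eq {R : ℝ} (hR : 0 < R) {u z : ℂ} (hz : ‖z‖ = R) :
    ‖z - u‖ = ‖(R : ℂ) - conj u * z / R‖ := by
  have hz0 : z ≠ 0 := by
    rintro rfl; simp at hz; exact hR.ne hz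
  have hRc : (R : ℂ) ≠ 0 := by exact_mod_cast hR.ne'
  have h1 : ‖z - u‖ = ‖conj z - conj u‖ := by
    rw [← map_sub, Complex.norm_conj]
  have h2 : conj z * z = (R : ℂ) ^ 2 := by
    rw [mul_comm, Complex.mul_conj, Complex.normSq_eq_norm_sq, hz]; push_cast; ring
  have h3 : ‖(R : ℂ) - conj u * z / R‖ = ‖(conj z - conj u) * z‖ / R := by
    have : (R : ℂ) - conj u * z / R = ((conj z - conj u) * z) / R := by
      rw [sub_mul, h2]; field_simp
    rw [this, norm_div, Complex.norm_real, Real.norm_of_nonneg hR.le]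
  rw [h3, norm_mul, hz, mul_div_assoc, div_self hR.ne', mul_one, h1]

lemma refl_norm_le {R : ℝ} (hR : 0 < R) {u w : ℂ} (hu : ‖u‖ ≤ R) (hw : ‖w‖ ≤ R) :
    ‖w - u‖ ≤ ‖(R : ℂ) - conj u * w / R‖ := by
  have hRc : (R : ℂ) ≠ 0 := by exact_mod_cast hR.ne'
  have h3 : ‖(R : ℂ) - conj u * w / R‖ = ‖(R : ℂ) ^ 2 - conj u * w‖ / R := by
    have : (R : ℂ) - conj u * w / R = ((R : ℂ) ^ 2 - conj u * w) / R := by
      field_simp
    rw [this, norm_div, Complex.norm_real, Real.norm_of_nonneg hR.le]
  rw [h3, le_div_iff₀ hR]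
  apply le_of_sq_le_sq _ (norm_nonneg _)
  rw [mul_pow, ← Complex.normSq_eq_norm_sq, ← Complex.normSq_eq_norm_sq]
  have hu2 : u.re ^ 2 + u.im ^ 2 ≤ R ^ 2 := by
    have := Complex.normSq_eq_norm_sq u
    rw [Complex.normSq_apply] at this
    nlinarith [norm_nonneg u]
  have hw2 : w.re ^ 2 + w.im ^ 2 ≤ R ^ 2 := by
    have := Complex.normSq_eq_norm_sq w
    rw [Complex.normSq_apply] at this
    nlinarith [norm_nonneg w]
  have key : Complex.normSq ((R : ℂ) ^ 2 - conj u * w) - Complex.normSq (w - u) * R ^ 2 =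
      (R ^ 2 - (u.re ^ 2 + u.im ^ 2)) * (R ^ 2 - (w.re ^ 2 + w.im ^ 2)) := by
    simp only [Complex.normSq_apply, Complex.sub_re, Complex.sub_im, Complex.mul_re,
      Complex.mul_im, Complex.conj_re, Complex.conj_im]
    have e1 : ((R : ℂ) ^ 2).re = R ^ 2 := by norm_cast
    have e2 : ((R : ℂ) ^ 2).im = 0 := by norm_cast
    rw [e1, e2]
    ring
  nlinarith [mul_nonneg (sub_nonneg.2 hu2) (sub_nonneg.2 hw2)]

/-- circle average of kernel times `log ‖· - u‖` for `u` in the open ball -/
lemma kernel_log_ball {R : ℝ} (hR : 0 < R) {w u : ℂ} (hw : w ∈ ball (0 : ℂ) R)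
    (hu : u ∈ ball (0 : ℂ) R) (hwu : w ≠ u) :
    Real.log ‖w - u‖ ≤ circleAverage (ker w * (fun z => Real.log ‖z - u‖)) 0 R := by
  set G : ℂ → ℂ := fun z => (R : ℂ) - conj u * z / R with hG
  have hun : ‖u‖ < R := by simpa using hu
  have hwn : ‖w‖ < R := by simpa using hw
  have hGne : ∀ z ∈ closedBall (0 : ℂ) R, G z ≠ 0 := by
    intro z hz hGz
    have hzn : ‖z‖ ≤ R := by simpa using hz
    have : (R : ℂ) = conj u * z / R := sub_eq_zero.1 hGz
    have h2 : R = ‖u‖ * ‖z‖ / R := by
      have := congrArg norm this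
      rw [norm_div, norm_mul, Complex.norm_conj, Complex.norm_real,
        Real.norm_of_nonneg hR.le] at this
      exact this
    rw [eq_div_iff hR.ne'] at h2
    nlinarith [norm_nonneg u, norm_nonneg z]
  have hGan : AnalyticOnNhd ℂ G (closedBall 0 R) := by
    intro z _
    simp only [hG]
    fun_prop
  have hharm : InnerProductSpace.HarmonicOnNhd (fun z => Real.log ‖G z‖) (closedBall 0 R) :=
    fun z hz => (hGan z hz).harmonicAt_log_norm (hGne z hz)
  have h1 := hharm.circleAverage_re_herglotzRieszKernel_smul hw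
  have h2 : circleAverage (ker w * (fun z => Real.log ‖z - u‖)) 0 R = Real.log ‖G w‖ := by
    rw [← h1]
    apply circleAverage_congr_sphere
    intro z hz
    rw [abs_of_pos hR, mem_sphere_zero_iff_norm] at hz
    simp only [Pi.mul_apply, Pi.smul_apply', smul_eq_mul, ker]
    rw [refl_norm_eq hR hz]
  rw [h2]
  apply Real.log_le_log
  · exact norm_pos_iff.2 (sub_ne_zero.2 hwu)
  · exact refl_norm_le hR hun.le hwn.le

lemma kernel_log_closedBall {R : ℝ} (hR : 0 < R) {w u : ℂ} (hw : w ∈ ball (0 : ℂ) R)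
    (hu : u ∈ closedBall (0 : ℂ) R) (hwu : w ≠ u) :
    Real.log ‖w - u‖ ≤ circleAverage (ker w * (fun z => Real.log ‖z - u‖)) 0 R := by
  rcases (mem_closedBall.1 hu).lt_or_eq with h | h
  · exact kernel_log_ball hR hw (mem_ball.2 h) hwu
  · have := circleAverage_re_herglotzRieszKernel_mul_log (w := w) (c := 0) (mem_sphere.2 h) hw
    rw [ker]
    exact this.ge

lemma ker_continuousOn {R : ℝ} {w : ℂ} (hw : w ∈ ball (0 : ℂ) R) :
    ContinuousOn (ker w) (sphere 0 |R|) :=
  Complex.continuous_re.comp_continuousOn (continuousOn_herglotzRieszKernel_sphere hw)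

/-- **Poisson-Jensen inequality.** -/
theorem poissonJensen_le {f : ℂ → ℂ} {R : ℝ} (hR : 0 < R)
    (hf : AnalyticOnNhd ℂ f (closedBall 0 R)) {w : ℂ} (hw : w ∈ ball (0 : ℂ) R) (hfw : f w ≠ 0) :
    Real.log ‖f w‖ ≤ circleAverage (ker w * (fun z => Real.log ‖f z‖)) 0 R := by
  have habs : |R| = R := abs_of_pos hR
  have h₁f : MeromorphicOn f (closedBall 0 |R|) := by
    rw [habs]; exact hf.meromorphicOn
  set CB := closedBall (0 : ℂ) |R| with hCB
  have hwCB : w ∈ CB := by rw [hCB, habs]; exact ball_subset_closedBall hw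
  have h₂f : ∀ u ∈ CB, meromorphicOrderAt f u ≠ ⊤ := by
    have h : ∃ u : CB, meromorphicOrderAt f u ≠ ⊤ := by
      refine ⟨⟨w, hwCB⟩, ?_⟩
      have han : AnalyticAt ℂ f w := hf w (ball_subset_closedBall hw)
      rw [han.meromorphicOrderAt_eq, han.analyticOrderAt_eq_zero.2 hfw]
      simp
    rw [h₁f.exists_meromorphicOrderAt_ne_top_iff_forall
      ⟨nonempty_closedBall.mpr (abs_nonneg R), (convex_closedBall (0:ℂ) |R|).isPreconnected⟩] at h
    exact fun u hu => h ⟨u, hu⟩
  have h₃f := (divisor f CB).finiteSupport (isCompact_closedBall 0 |R|)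
  obtain ⟨g, h₁g, h₂g, h₃g⟩ := h₁f.extract_zeros_poles (fun u => h₂f u u.2) h₃f
  have h₄g := extract_zeros_poles_log h₂g h₃g
  set D := divisor f CB with hD
  -- value at w
  have hval : Real.log ‖f w‖ = ∑ᶠ u, (D u) * Real.log ‖w - u‖ + Real.log ‖g w‖ := by
    have t₁ : AccPt w (𝓟 CB) := by
      apply accPt_iff_frequently_nhdsNE.mpr
      apply compl_notMem
      apply mem_nhdsWithin.mpr
      refine ⟨ball 0 |R|, isOpen_ball, by rw [habs]; exact hw, ?_⟩
      simpa using! fun _ ⟨h, _⟩ ↦ ball_subset_closedBall h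
    have := MeromorphicOn.log_norm_meromorphicTrailingCoeffAt_extract_zeros_poles
      (D := D) h₃f hwCB t₁ (h₁f w hwCB) (h₁g w hwCB) (h₂g ⟨w, hwCB⟩) h₃g
    rw [(hf w (ball_subset_closedBall hw)).meromorphicTrailingCoeffAt_of_ne_zero hfw] at this
    exact this
  -- the circle average
  have hint : ∀ u, CircleIntegrable (fun z => Real.log ‖z - u‖) 0 R := fun u =>
    circleIntegrable_log_norm (f := fun z => z - u)
      (fun z _ => by fun_prop)
  have hcongr : circleAverage (ker w * (fun z => Real.log ‖f z‖)) 0 R =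
      circleAverage (ker w * (∑ᶠ u, (fun z => D u * Real.log ‖z - u‖) +
        (fun z => Real.log ‖g z‖))) 0 R := by
    apply circleAverage_congr_codiscreteWithin _ hR.ne'
    have := codiscreteWithin_mono (sphere_subset_closedBall (x := (0:ℂ)) (ε := |R|)) h₄g
    filter_upwards [this] with z hz
    simp only [Pi.mul_apply]
    rw [hz]
  have hfin : (∑ᶠ u, (fun z : ℂ => (D u : ℝ) * Real.log ‖z - u‖)) =
      ∑ u ∈ h₃f.toFinset, (fun z : ℂ => (D u : ℝ) * Real.log ‖z - u‖) := by
    apply finsum_eq_sum_of_support_subset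
    intro u hu
    simp only [Finite.coe_toFinset]
    contrapose hu
    simp only [Function.mem_support, ne_eq, not_not] at hu ⊢
    ext z
    simp [hu]
  have hfin2 : ∑ᶠ u, (D u) * Real.log ‖w - u‖ = ∑ u ∈ h₃f.toFinset, (D u) * Real.log ‖w - u‖ := by
    apply finsum_eq_sum_of_support_subset
    intro u hu
    simp only [Finite.coe_toFinset]
    contrapose hu
    simp only [Function.mem_support, ne_eq, not_not] at hu ⊢
    simp [hu]
  have hkc := ker_continuousOn hw
  have hgint : CircleIntegrable (ker w * fun z => Real.log ‖g z‖) 0 R := by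
    have h0 : CircleIntegrable (fun z => Real.log ‖g z‖) 0 R :=
      circleIntegrable_log_norm ((h₁g.mono sphere_subset_closedBall).meromorphicOn)
    exact h0.continuousOn_smul hkc
  have hsumint : ∀ u ∈ h₃f.toFinset,
      CircleIntegrable (ker w * fun z => (D u : ℝ) * Real.log ‖z - u‖) 0 R := by
    intro u _
    have h0 : CircleIntegrable (fun z => (D u : ℝ) * Real.log ‖z - u‖) 0 R :=
      IntervalIntegrable.const_mul (hint u) _
    exact h0.continuousOn_smul hkc
  have hsplit : circleAverage (ker w * (∑ᶠ u, (fun z => (D u : ℝ) * Real.log ‖z - u‖) +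
        (fun z => Real.log ‖g z‖))) 0 R =
      ∑ u ∈ h₃f.toFinset, (D u : ℝ) * circleAverage (ker w * fun z => Real.log ‖z - u‖) 0 R +
        circleAverage (ker w * fun z => Real.log ‖g z‖) 0 R := by
    rw [hfin, mul_add, Finset.mul_sum, circleAverage_add _ hgint, circleAverage_sum hsumint]
    · congr 1
      apply Finset.sum_congr rfl
      intro u _
      have : (ker w * fun z => (D u : ℝ) * Real.log ‖z - u‖) =
          (D u : ℝ) • (ker w * fun z => Real.log ‖z - u‖) := by
        ext z
        simp only [Pi.mul_apply, Pi.smul_apply, smul_eq_mul]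
        ring
      rw [this, circleAverage_smul, smul_eq_mul]
    · exact CircleIntegrable.sum _ hsumint
  have hg : circleAverage (ker w * fun z => Real.log ‖g z‖) 0 R = Real.log ‖g w‖ := by
    have hharm : InnerProductSpace.HarmonicOnNhd (fun z => Real.log ‖g z‖) (closedBall 0 R) := by
      intro z hz
      have hz' : z ∈ CB := by rw [hCB, habs]; exact hz
      exact (h₁g z hz').harmonicAt_log_norm (h₂g ⟨z, hz'⟩)
    exact hharm.circleAverage_re_herglotzRieszKernel_smul hw
  rw [hval, hcongr, hsplit, hg, hfin2]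
  gcongr with u hu
  · -- positivity of the divisor
    have hDnn : 0 ≤ D := (by
      have : AnalyticOnNhd ℂ f CB := by rw [hCB, habs]; exact hf
      exact this.divisor_nonneg)
    exact_mod_cast hDnn u
  · have huCB : u ∈ CB := by
      have : u ∈ D.support := by simpa using hu
      exact D.supportWithinDomain this
    have hne : w ≠ u := by
      rintro rfl
      have h0 : D w = 0 := by
        rw [hD, divisor_apply h₁f hwCB]
        have han : AnalyticAt ℂ f w := hf w (ball_subset_closedBall hw)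
        rw [han.meromorphicOrderAt_eq, han.analyticOrderAt_eq_zero.2 hfw]
        simp
      have : w ∈ D.support := by simpa using hu
      exact this h0
    rw [hCB, habs] at huCB
    exact kernel_log_closedBall hR hw huCB hne

end Pool.Agent.Helper57.Dir
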