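import Pool.Agent.Helper57.Dir.Greedy

/-!
# Vertical variation estimates
-/

set_option autoImplicit false

namespace Pool.Agent.Helper57.Dir

open Filter MeasureTheory Metric Real Set Topology

/-- Open rectangle. -/
def Rc (a b y₁ y₂ : ℝ) : Set ℂ := {w | (a < w.re ∧ w.re < b) ∧ y₁ < w.im ∧ w.im < y₂}

lemma Rc_eq (a b y₁ y₂ : ℝ) :
    Rc a b y₁ y₂ = Complex.measurableEquivRealProd ⁻¹' (Ioo a b ×ˢ Ioo y₁ y₂) := by
  ext w
  simp [Rc]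

lemma measurableSet_Rc (a b y₁ y₂ : ℝ) : MeasurableSet (Rc a b y₁ y₂) := by
  rw [Rc_eq]
  exact Complex.measurableEquivRealProd.measurable (measurableSet_Ioo.prod measurableSet_Ioo)

lemma rect_integral {F : ℂ → ℝ} {a b y₁ y₂ : ℝ} (hF : IntegrableOn F (Rc a b y₁ y₂)) :
    IntegrableOn (fun p : ℝ × ℝ => F ⟨p.1, p.2⟩) (Ioo a b ×ˢ Ioo y₁ y₂) ∧
    ∫ w in Rc a b y₁ y₂, F w = ∫ x in Ioo a b, ∫ y in Ioo y₁ y₂, F ⟨x, y⟩ := by
  have hmp := Complex.volume_preserving_equiv_real_prod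
  have hemb := Complex.measurableEquivRealProd.measurableEmbedding
  have hcomp : ∀ w : ℂ, (fun p : ℝ × ℝ => F ⟨p.1, p.2⟩) (Complex.measurableEquivRealProd w) = F w := by
    intro w
    simp
  have hi : IntegrableOn (fun p : ℝ × ℝ => F ⟨p.1, p.2⟩) (Ioo a b ×ˢ Ioo y₁ y₂) := by
    rw [← hmp.integrableOn_comp_preimage hemb, ← Rc_eq]
    exact hF.congr_fun (fun w _ => (hcomp w).symm) (measurableSet_Rc _ _ _ _)
  refine ⟨hi, ?_⟩
  have h1 := hmp.setIntegral_preimage_emb hemb (fun p : ℝ × ℝ => F ⟨p.1, p.2⟩)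
    (Ioo a b ×ˢ Ioo y₁ y₂)
  rw [← Rc_eq] at h1
  have h2 : ∫ w in Rc a b y₁ y₂, F w =
      ∫ w in Rc a b y₁ y₂, (fun p : ℝ × ℝ => F ⟨p.1, p.2⟩) (Complex.measurableEquivRealProd w) := by
    congr 1
  rw [h2, h1, Measure.volume_eq_prod, setIntegral_prod]
  rw [← Measure.volume_eq_prod]
  exact hi

/-- Cauchy-Schwarz on an interval. -/
lemma sq_integral_le {φ : ℝ → ℝ} {a b : ℝ} (hab : a ≤ b) (h1 : IntervalIntegrable φ volume a b)
    (h2 : IntervalIntegrable (fun x => φ x ^ 2) volume a b) :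
    (∫ x in a..b, φ x) ^ 2 ≤ (b - a) * ∫ x in a..b, φ x ^ 2 := by
  rcases hab.eq_or_lt with rfl | hlt
  · simp
  set c := (∫ x in a..b, φ x) / (b - a) with hc
  have hba : 0 < b - a := by linarith
  have h3 : 0 ≤ ∫ x in a..b, (φ x - c) ^ 2 :=
    intervalIntegral.integral_nonneg hab fun x _ => by positivity
  have h4 : ∫ x in a..b, (φ x - c) ^ 2 = (∫ x in a..b, φ x ^ 2) - 2 * c * (∫ x in a..b, φ x) +
      c ^ 2 * (b - a) := by
    have e : (fun x => (φ x - c) ^ 2) = fun x => (φ x ^ 2 - 2 * c * φ x) + c ^ 2 := by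
      ext x; ring
    rw [e, intervalIntegral.integral_add (h2.sub (h1.const_mul _)) (by simp),
      intervalIntegral.integral_sub h2 (h1.const_mul _), intervalIntegral.integral_const_mul,
      intervalIntegral.integral_const, smul_eq_mul]
    ring
  rw [h4] at h3
  have h5 : ∫ x in a..b, φ x = c * (b - a) := by
    rw [hc]; field_simp
  rw [h5] at h3 ⊢
  nlinarith

section

variable {g : ℂ → ℂ}

lemma vert_point (hg : DifferentiableOn ℂ g {w | 0 < w.im}) {y₁ y₂ : ℝ} (h0 : 0 < y₁)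
    (h12 : y₁ ≤ y₂) (x : ℝ) :
    ‖g ⟨x, y₂⟩ - g ⟨x, y₁⟩‖ ^ 2 ≤ (y₂ - y₁) * ∫ t in Ioo y₁ y₂, ‖deriv g ⟨x, t⟩‖ ^ 2 := by
  have hop : IsOpen {w : ℂ | 0 < w.im} := isOpen_lt continuous_const Complex.continuous_im
  have hcont : ContinuousOn (fun t : ℝ => deriv g (⟨x, t⟩ : ℂ)) (uIcc y₁ y₂) := by
    have h1 : ContinuousOn (deriv g) {w | 0 < w.im} := (hg.deriv hop).continuousOn
    refine h1.comp ?_ ?_
    · have : Continuous (fun t : ℝ => (⟨x, t⟩ : ℂ)) := by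
        have : (fun t : ℝ => (⟨x, t⟩ : ℂ)) = fun t : ℝ => (x : ℂ) + t * Complex.I := by
          ext t; apply Complex.ext <;> simp
        rw [this]; fun_prop
      exact this.continuousOn
    · intro t ht
      rw [uIcc_of_le h12] at ht
      exact lt_of_lt_of_le h0 ht.1
  have hftc : ∫ t in y₁..y₂, deriv g (⟨x, t⟩ : ℂ) * Complex.I = g ⟨x, y₂⟩ - g ⟨x, y₁⟩ := by
    apply intervalIntegral.integral_eq_sub_of_hasDerivAt (f := fun t : ℝ => g (⟨x, t⟩ : ℂ))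
    · intro t ht
      rw [uIcc_of_le h12] at ht
      have ht0 : 0 < t := lt_of_lt_of_le h0 ht.1
      have h1 : HasDerivAt g (deriv g (⟨x, t⟩ : ℂ)) ((⟨x, t⟩ : ℂ)) :=
        ((hg _ ht0).differentiableAt (hop.mem_nhds ht0)).hasDerivAt
      have h2 : HasDerivAt (fun t : ℝ => (⟨x, t⟩ : ℂ)) Complex.I t := by
        have e : (fun t : ℝ => (⟨x, t⟩ : ℂ)) = fun t : ℝ => (x : ℂ) + t * Complex.I := by
          ext t; apply Complex.ext <;> simp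
        rw [e]
        have h3 : HasDerivAt (fun t : ℝ => (t : ℂ) * Complex.I) (1 * Complex.I) t :=
          (Complex.ofRealCLM.hasDerivAt (x := t)).mul_const Complex.I
        simpa using h3.const_add (x : ℂ)
      exact h1.comp_of_eq t h2 rfl
    · apply ContinuousOn.intervalIntegrable
      exact hcont.mul continuousOn_const
  have hn : ‖g ⟨x, y₂⟩ - g ⟨x, y₁⟩‖ ≤ ∫ t in y₁..y₂, ‖deriv g (⟨x, t⟩ : ℂ)‖ := by
    rw [← hftc]
    refine (intervalIntegral.norm_integral_le_integral_norm h12).trans (le_of_eq ?_)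
    congr 1
    ext t
    rw [norm_mul, Complex.norm_I, mul_one]
  calc ‖g ⟨x, y₂⟩ - g ⟨x, y₁⟩‖ ^ 2 ≤ (∫ t in y₁..y₂, ‖deriv g (⟨x, t⟩ : ℂ)‖) ^ 2 := by gcongr
    _ ≤ (y₂ - y₁) * ∫ t in y₁..y₂, ‖deriv g (⟨x, t⟩ : ℂ)‖ ^ 2 :=
      sq_integral_le h12 hcont.norm.intervalIntegrable (hcont.norm.pow 2).intervalIntegrable
    _ = _ := by
      rw [intervalIntegral.integral_of_le h12, integral_Ioc_eq_integral_Ioo]

/-- vertical variation in `L²` -/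
lemma vert_L2 (hg : DifferentiableOn ℂ g {w | 0 < w.im})
    (hI : IntegrableOn (fun w => ‖deriv g w‖ ^ 2) Om) {a b y₁ y₂ : ℝ} (ha : 0 ≤ a)
    (hb : b ≤ 2 * π) (h0 : 0 < y₁) (h12 : y₁ ≤ y₂) :
    ∫ x in Ioo a b, ‖g ⟨x, y₂⟩ - g ⟨x, y₁⟩‖ ^ 2 ≤ (y₂ - y₁) * en g (Rc a b y₁ y₂) := by
  have hsub : Rc a b y₁ y₂ ⊆ Om := fun w hw =>
    ⟨by linarith [hw.1.1], by linarith [hw.1.2], by linarith [hw.2.1]⟩
  obtain ⟨hi, hr⟩ := rect_integral (hI.mono_set hsub)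
  rw [en, hr, ← integral_const_mul]
  rw [Measure.volume_eq_prod, IntegrableOn, ← Measure.prod_restrict] at hi
  have hi2 := hi.integral_prod_left
  have hop : IsOpen {w : ℂ | 0 < w.im} := isOpen_lt continuous_const Complex.continuous_im
  refine integral_mono_of_nonneg (Eventually.of_forall fun x => by positivity) (hi2.const_mul _) ?_
  refine Eventually.of_forall fun x => ?_
  exact vert_point hg h0 h12 x

lemma continuous_slice (hg : DifferentiableOn ℂ g {w | 0 < w.im}) {y : ℝ} (hy : 0 < y) :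
    Continuous (fun x : ℝ => g ⟨x, y⟩) := by
  have h1 : ContinuousOn g {w | 0 < w.im} := hg.continuousOn
  refine h1.comp_continuous ?_ fun x => hy
  have : (fun x : ℝ => (⟨x, y⟩ : ℂ)) = fun x : ℝ => (x : ℂ) + y * Complex.I := by
    ext t; apply Complex.ext <;> simp
  rw [this]; fun_prop

/-- slice mass -/
noncomputable def Ms (g : ℂ → ℂ) (y : ℝ) : ℝ := ∫ x in Ioo 0 (2 * π), ‖g ⟨x, y⟩‖ ^ 2

lemma slice_int (hg : DifferentiableOn ℂ g {w | 0 < w.im}) {y : ℝ} (hy : 0 < y) (a b : ℝ) :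
    IntegrableOn (fun x : ℝ => ‖g ⟨x, y⟩‖ ^ 2) (Ioo a b) := by
  have := ((continuous_slice hg hy).norm.pow 2).continuousOn.integrableOn_Icc (a := a) (b := b)
    (μ := (volume : Measure ℝ))
  exact this.mono_set Ioo_subset_Icc_self

lemma slice_diff_int (hg : DifferentiableOn ℂ g {w | 0 < w.im}) {y₁ y₂ : ℝ} (hy : 0 < y₁)
    (hy2 : 0 < y₂) (a b : ℝ) :
    IntegrableOn (fun x : ℝ => ‖g ⟨x, y₂⟩ - g ⟨x, y₁⟩‖ ^ 2) (Ioo a b) := by
  have := (((continuous_slice hg hy2).sub (continuous_slice hg hy)).norm.pow 2).continuousOn.integrableOn_Icc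
    (a := a) (b := b) (μ := (volume : Measure ℝ))
  exact this.mono_set Ioo_subset_Icc_self

lemma Ms_nonneg (y : ℝ) : 0 ≤ Ms g y := integral_nonneg fun _ => by positivity

lemma Ms_diff (hg : DifferentiableOn ℂ g {w | 0 < w.im})
    (hI : IntegrableOn (fun w => ‖deriv g w‖ ^ 2) Om) {y₁ y₂ η : ℝ}
    (h0 : 0 < y₁) (h12 : y₁ ≤ y₂) (hη : 0 < η) :
    Ms g y₁ ≤ (1 + η) * Ms g y₂ + (1 + 1 / η) * ((y₂ - y₁) * en g Om) := by
  have h2 : 0 < y₂ := lt_of_lt_of_le h0 h12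
  have hv := vert_L2 hg hI (le_refl (0:ℝ)) (le_refl (2 * π)) h0 h12
  have hsub : Rc 0 (2 * π) y₁ y₂ ⊆ Om := fun w hw =>
    ⟨by linarith [hw.1.1], by linarith [hw.1.2], by linarith [hw.2.1]⟩
  have hen : en g (Rc 0 (2 * π) y₁ y₂) ≤ en g Om := en_mono hI hsub subset_rfl
  have hpt : ∀ x : ℝ, ‖g ⟨x, y₁⟩‖ ^ 2 ≤ (1 + η) * ‖g ⟨x, y₂⟩‖ ^ 2 +
      (1 + 1 / η) * ‖g ⟨x, y₂⟩ - g ⟨x, y₁⟩‖ ^ 2 := by
    intro x
    have htri : ‖g ⟨x, y₁⟩‖ ≤ ‖g ⟨x, y₂⟩‖ + ‖g ⟨x, y₂⟩ - g ⟨x, y₁⟩‖ := by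
      have := norm_sub_norm_le (g ⟨x, y₁⟩) (g ⟨x, y₂⟩)
      rw [norm_sub_rev] at this
      linarith
    set u := ‖g ⟨x, y₂⟩‖
    set v := ‖g ⟨x, y₂⟩ - g ⟨x, y₁⟩‖
    have h3 : ‖g ⟨x, y₁⟩‖ ^ 2 ≤ (u + v) ^ 2 := by gcongr
    have h4 : 2 * u * v ≤ η * u ^ 2 + 1 / η * v ^ 2 := by
      have h5 : 0 ≤ (η * u - v) ^ 2 / η := by positivity
      have h6 : (η * u - v) ^ 2 / η = η * u ^ 2 - 2 * u * v + 1 / η * v ^ 2 := by
        field_simp
        ring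
      linarith
    nlinarith
  have hint1 := slice_int hg h0 0 (2 * π)
  have hint2 := slice_int hg h2 0 (2 * π)
  have hint3 := slice_diff_int hg h0 h2 0 (2 * π)
  have h7 : Ms g y₁ ≤ ∫ x in Ioo 0 (2 * π), ((1 + η) * ‖g ⟨x, y₂⟩‖ ^ 2 +
      (1 + 1 / η) * ‖g ⟨x, y₂⟩ - g ⟨x, y₁⟩‖ ^ 2) :=
    setIntegral_mono hint1 ((hint2.const_mul _).add (hint3.const_mul _)) hpt
  rw [integral_add (hint2.const_mul _) (hint3.const_mul _), integral_const_mul,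
    integral_const_mul] at h7
  refine h7.trans ?_
  have h8 : ∫ x in Ioo 0 (2 * π), ‖g ⟨x, y₂⟩ - g ⟨x, y₁⟩‖ ^ 2 ≤ (y₂ - y₁) * en g Om :=
    hv.trans (mul_le_mul_of_nonneg_left hen (by linarith))
  have h9 : 0 ≤ 1 + 1 / η := by positivity
  have := mul_le_mul_of_nonneg_left h8 h9
  unfold Ms
  linarith

lemma Ms_bound (hg : DifferentiableOn ℂ g {w | 0 < w.im})
    (hI : IntegrableOn (fun w => ‖deriv g w‖ ^ 2) Om) {y : ℝ}
    (h0 : 0 < y) (h1 : y ≤ 1) :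
    Ms g y ≤ 2 * Ms g 1 + 2 * en g Om := by
  have h := Ms_diff hg hI h0 h1 one_pos
  have h2 : (1 - y) * en g Om ≤ 1 * en g Om := by
    have := en_nonneg g Om
    gcongr
    linarith
  norm_num at h
  linarith

/-- smallness on the middle half of an interval carrying a Cantor set of zeros -/
lemma mid_small (hg : DifferentiableOn ℂ g {w | 0 < w.im})
    (hI : IntegrableOn (fun w => ‖deriv g w‖ ^ 2) Om) {a l : ℝ} (hl : 0 < l) (ha : 0 ≤ a)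
    (hb : a + l ≤ 2 * π)
    (hlim : ∀ κ ∈ KC, Tendsto (fun y : ℝ => g ⟨a + l * κ, y⟩) (𝓝[>] 0) (𝓝 0))
    {y : ℝ} (hy : 0 < y) (hy2 : y ≤ l / 2) :
    ∫ x in Ioo (a + l / 4) (a + 3 * l / 4), ‖g ⟨x, y⟩‖ ^ 2 ≤ 200 * l * en g (Bx a l) := by
  set e := en g (Bx a l) with he
  have he0 : 0 ≤ e := en_nonneg _ _
  have hgr := greedy hg hI hl ha hb hlim
  rw [← he] at hgr
  have hgr2 : ‖g (cx a l)‖ ^ 2 ≤ 121 * e := by
    calc ‖g (cx a l)‖ ^ 2 ≤ (11 * Real.sqrt e) ^ 2 := by gcongr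
      _ = 121 * e := by rw [mul_pow, Real.sq_sqrt he0]; norm_num
  have hl2 : 0 < l / 2 := by positivity
  have hv := vert_L2 hg hI (a := a + l / 4) (b := a + 3 * l / 4) (by linarith) (by linarith) hy hy2
  have hsub : Rc (a + l / 4) (a + 3 * l / 4) y (l / 2) ⊆ Bx a l := fun w hw =>
    ⟨by linarith [hw.1.1], by linarith [hw.1.2], by linarith [hw.2.1], by linarith [hw.2.2]⟩
  have hen : en g (Rc (a + l / 4) (a + 3 * l / 4) y (l / 2)) ≤ e :=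
    en_mono hI hsub (Bx_subset_Om ha hb)
  have hv2 : ∫ x in Ioo (a + l / 4) (a + 3 * l / 4), ‖g ⟨x, l / 2⟩ - g ⟨x, y⟩‖ ^ 2 ≤ l / 2 * e := by
    refine hv.trans ?_
    have h1 : l / 2 - y ≤ l / 2 := by linarith
    have h0 : 0 ≤ en g (Rc (a + l / 4) (a + 3 * l / 4) y (l / 2)) := en_nonneg _ _
    calc (l / 2 - y) * en g (Rc (a + l / 4) (a + 3 * l / 4) y (l / 2))
        ≤ l / 2 * en g (Rc (a + l / 4) (a + 3 * l / 4) y (l / 2)) := by gcongr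
      _ ≤ l / 2 * e := by gcongr
  have hpt : ∀ x ∈ Ioo (a + l / 4) (a + 3 * l / 4), ‖g ⟨x, y⟩‖ ^ 2 ≤
      390 * e + 3 * ‖g ⟨x, l / 2⟩ - g ⟨x, y⟩‖ ^ 2 := by
    intro x hx
    have hco := core_osc hg hI hl ha hb (w := ⟨x, l / 2⟩) hx.1.le hx.2.le
      (by simp only; linarith) (le_refl _)
    rw [← he] at hco
    have htri : ‖g ⟨x, y⟩‖ ≤ ‖g (cx a l)‖ + ‖g ⟨x, l / 2⟩ - g (cx a l)‖ +
        ‖g ⟨x, l / 2⟩ - g ⟨x, y⟩‖ := by
      have e1 : g ⟨x, y⟩ = g (cx a l) + (g ⟨x, l / 2⟩ - g (cx a l)) -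
        (g ⟨x, l / 2⟩ - g ⟨x, y⟩) := by ring
      calc ‖g ⟨x, y⟩‖ = ‖g (cx a l) + (g ⟨x, l / 2⟩ - g (cx a l)) -
        (g ⟨x, l / 2⟩ - g ⟨x, y⟩)‖ := by rw [← e1]
        _ ≤ ‖g (cx a l) + (g ⟨x, l / 2⟩ - g (cx a l))‖ + ‖g ⟨x, l / 2⟩ - g ⟨x, y⟩‖ :=
          norm_sub_le _ _
        _ ≤ _ := by gcongr; exact norm_add_le _ _
    set u := ‖g (cx a l)‖
    set v := ‖g ⟨x, l / 2⟩ - g (cx a l)‖
    set z := ‖g ⟨x, l / 2⟩ - g ⟨x, y⟩‖
    have h3 : ‖g ⟨x, y⟩‖ ^ 2 ≤ (u + v + z) ^ 2 := by gcongr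
    nlinarith [sq_nonneg (u - v), sq_nonneg (u - z), sq_nonneg (v - z)]
  have hint1 := slice_int hg hy (a + l / 4) (a + 3 * l / 4)
  have hint3 := slice_diff_int hg hy hl2 (a + l / 4) (a + 3 * l / 4)
  have hc : IntegrableOn (fun _ : ℝ => 390 * e) (Ioo (a + l / 4) (a + 3 * l / 4)) :=
    integrableOn_const (by simp)
  have h7 : ∫ x in Ioo (a + l / 4) (a + 3 * l / 4), ‖g ⟨x, y⟩‖ ^ 2 ≤
      ∫ x in Ioo (a + l / 4) (a + 3 * l / 4), (390 * e + 3 * ‖g ⟨x, l / 2⟩ - g ⟨x, y⟩‖ ^ 2) :=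
    setIntegral_mono_on hint1 (hc.add (hint3.const_mul _)) measurableSet_Ioo hpt
  rw [integral_add hc (hint3.const_mul _), setIntegral_const, integral_const_mul] at h7
  rw [smul_eq_mul, Real.volume_real_Ioo_of_le (by linarith)] at h7
  have e2 : a + 3 * l / 4 - (a + l / 4) = l / 2 := by ring
  rw [e2] at h7
  nlinarith

end

end Pool.Agent.Helper57.Dir
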