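import Pool.Agent.Helper57.Dir.PJ
import Pool.Agent.Helper57.Dir.Vert
import Pool.Agent.Helper57.Dir.LogAvg

/-!
# Poisson kernel estimates
-/

set_option autoImplicit false

namespace Pool.Agent.Helper57.Dir

open Filter MeasureTheory Metric Real Set Topology

/-- Poisson kernel on the unit circle in angular coordinates -/
noncomputable def PK (ρ θ x : ℝ) : ℝ :=
  (1 - ρ ^ 2) / ‖circleMap 0 1 x - ρ * circleMap 0 1 θ‖ ^ 2

lemma phi_eq (x y : ℝ) : phi ⟨x, y⟩ = circleMap 0 (Real.exp (-y)) x := by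
  rw [phi, circleMap, zero_add]
  have : Complex.I * (⟨x, y⟩ : ℂ) = ((-y : ℝ) : ℂ) + x * Complex.I := by
    apply Complex.ext <;> simp
  rw [this, Complex.exp_add, ← Complex.ofReal_exp]

lemma circleMap_scale (R x : ℝ) : circleMap 0 R x = R * circleMap 0 1 x := by
  simp [circleMap]

lemma ker_eq_PK {R ρ θ x : ℝ} (hR : 0 < R) :
    ker (R * ρ * circleMap 0 1 θ) (circleMap 0 R x) = PK ρ θ x := by
  have h1 : ker (R * ρ * circleMap 0 1 θ) = poissonKernel 0 (R * ρ * circleMap 0 1 θ) := by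
    rw [poissonKernel_eq_re_herglotzRieszKernel]; rfl
  rw [h1, poissonKernel_def, PK, circleMap_scale R x]
  simp only [sub_zero, norm_mul, Complex.norm_real, Real.norm_eq_abs, norm_circleMap_zero, abs_one,
    mul_one]
  have h2 : (R : ℂ) * circleMap 0 1 x - R * ρ * circleMap 0 1 θ =
      R * (circleMap 0 1 x - ρ * circleMap 0 1 θ) := by ring
  rw [h2, norm_mul, Complex.norm_real, Real.norm_eq_abs, mul_pow, mul_pow, sq_abs, sq_abs]
  have h3 : R ^ 2 - R ^ 2 * ρ ^ 2 = R ^ 2 * (1 - ρ ^ 2) := by ring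
  rw [h3, mul_div_mul_left _ _ (by positivity)]

lemma PK_den_lower {ρ : ℝ} (h0 : 0 ≤ ρ) (θ x : ℝ) :
    1 - ρ ≤ ‖circleMap 0 1 x - ρ * circleMap 0 1 θ‖ := by
  have h := norm_sub_norm_le (circleMap 0 1 x) (ρ * circleMap 0 1 θ)
  simpa [abs_of_nonneg h0] using h

lemma PK_nonneg {ρ : ℝ} (h0 : 0 ≤ ρ) (h1 : ρ < 1) (θ x : ℝ) : 0 ≤ PK ρ θ x := by
  unfold PK
  have : 0 ≤ 1 - ρ ^ 2 := by nlinarith
  positivity

lemma PK_pos {ρ : ℝ} (h0 : 0 ≤ ρ) (h1 : ρ < 1) (θ x : ℝ) : 0 < PK ρ θ x := by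
  unfold PK
  have h2 : 0 < 1 - ρ ^ 2 := by nlinarith
  have h3 := PK_den_lower h0 θ x
  have h4 : 0 < ‖circleMap 0 1 x - ρ * circleMap 0 1 θ‖ := by linarith
  positivity

lemma PK_le {ρ : ℝ} (h0 : 0 ≤ ρ) (h1 : ρ < 1) (θ x : ℝ) : PK ρ θ x ≤ 2 / (1 - ρ) := by
  unfold PK
  have h3 := PK_den_lower h0 θ x
  have h4 : 0 < 1 - ρ := by linarith
  have h5 : (1 - ρ) ^ 2 ≤ ‖circleMap 0 1 x - ρ * circleMap 0 1 θ‖ ^ 2 := by gcongr
  calc (1 - ρ ^ 2) / ‖circleMap 0 1 x - ρ * circleMap 0 1 θ‖ ^ 2 ≤ (1 - ρ ^ 2) / (1 - ρ) ^ 2 := by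
        apply div_le_div_of_nonneg_left _ (by positivity) h5
        nlinarith
    _ = (1 + ρ) / (1 - ρ) := by
        field_simp
        ring
    _ ≤ 2 / (1 - ρ) := by
        gcongr
        linarith

lemma norm_circle_sub (a b : ℝ) : ‖circleMap 0 1 a - circleMap 0 1 b‖ ≤ |a - b| := by
  have h1 : circleMap 0 1 a - circleMap 0 1 b = circleMap 0 1 b * (Complex.exp (Complex.I * ((a - b : ℝ) : ℂ)) - 1) := by
    simp only [circleMap, zero_add, Complex.ofReal_one, one_mul]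
    rw [mul_sub, mul_one, ← Complex.exp_add]
    congr 2
    push_cast
    ring
  rw [h1, norm_mul]
  simp only [norm_circleMap_zero, abs_one, one_mul]
  exact Real.norm_exp_I_mul_ofReal_sub_one_le

lemma PK_lower {ρ : ℝ} (h0 : 0 ≤ ρ) (h1 : ρ < 1) {θ x D : ℝ} (hx : |x - θ| + (1 - ρ) ≤ D)
    : (1 - ρ) / D ^ 2 ≤ PK ρ θ x := by
  unfold PK
  have h3 := PK_den_lower h0 θ x
  have h4 : 0 < 1 - ρ := by linarith
  have h5 : ‖circleMap 0 1 x - ρ * circleMap 0 1 θ‖ ≤ D := by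
    have e : circleMap 0 1 x - ρ * circleMap 0 1 θ = (circleMap 0 1 x - circleMap 0 1 θ) +
        ((1 - ρ : ℝ) : ℂ) * circleMap 0 1 θ := by push_cast; ring
    rw [e]
    refine (norm_add_le _ _).trans (le_trans ?_ hx)
    rw [norm_mul, Complex.norm_real, Real.norm_of_nonneg h4.le]
    simp only [norm_circleMap_zero, abs_one, mul_one]
    gcongr
    exact norm_circle_sub _ _
  have h6 : 0 < ‖circleMap 0 1 x - ρ * circleMap 0 1 θ‖ := by linarith
  calc (1 - ρ) / D ^ 2 ≤ (1 - ρ) / ‖circleMap 0 1 x - ρ * circleMap 0 1 θ‖ ^ 2 := by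
        gcongr
    _ ≤ _ := by
        gcongr
        nlinarith

lemma PK_symm (ρ θ x : ℝ) : PK ρ θ x = PK ρ x θ := by
  unfold PK
  congr 1
  rw [← Complex.normSq_eq_norm_sq, ← Complex.normSq_eq_norm_sq, Complex.normSq_apply,
    Complex.normSq_apply]
  simp only [circleMap, zero_add, Complex.ofReal_one, one_mul, Complex.sub_re, Complex.sub_im,
    Complex.exp_ofReal_mul_I_re, Complex.exp_ofReal_mul_I_im, Complex.mul_re, Complex.mul_im,
    Complex.ofReal_re, Complex.ofReal_im, zero_mul, sub_zero, add_zero]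
  have h1 := Real.sin_sq_add_cos_sq x
  have h2 := Real.sin_sq_add_cos_sq θ
  linear_combination (1 - ρ ^ 2) * h1 - (1 - ρ ^ 2) * h2

lemma PK_cont {ρ : ℝ} (h0 : 0 ≤ ρ) (h1 : ρ < 1) :
    Continuous (fun p : ℝ × ℝ => PK ρ p.1 p.2) := by
  unfold PK
  apply Continuous.div continuous_const
  · have hc := continuous_circleMap 0 1
    have h2 : Continuous (fun p : ℝ × ℝ => circleMap 0 1 p.2) := hc.comp continuous_snd
    have h3 : Continuous (fun p : ℝ × ℝ => circleMap 0 1 p.1) := hc.comp continuous_fst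
    fun_prop
  · intro p
    have := PK_den_lower h0 p.1 p.2
    have h2 : 0 < ‖circleMap 0 1 p.2 - ρ * circleMap 0 1 p.1‖ := by linarith
    positivity

lemma PK_cont' {ρ : ℝ} (h0 : 0 ≤ ρ) (h1 : ρ < 1) (θ : ℝ) : Continuous (fun x => PK ρ θ x) :=
  Continuous.comp (g := fun p : ℝ × ℝ => PK ρ p.1 p.2) (f := fun x : ℝ => (θ, x))
    (PK_cont h0 h1) (by fun_prop)

lemma pk1 {ρ : ℝ} (θ : ℝ) (hw : (ρ : ℂ) * circleMap 0 1 θ ∈ ball (0 : ℂ) 1) :
    circleAverage (fun z => poissonKernel 0 (ρ * circleMap 0 1 θ) z) 0 1 = 1 := by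
  have h := DiffContOnCl.circleAverage_poissonKernel_smul (E := ℂ) (f := fun _ => (1:ℂ)) (c := 0)
    (R := 1) diffContOnCl_const hw
  have h2 : circleAverage (poissonKernel 0 (ρ * circleMap 0 1 θ) • fun _ : ℂ => (1:ℂ)) 0 1 =
     ((circleAverage (fun z => poissonKernel 0 (ρ * circleMap 0 1 θ) z) 0 1 : ℝ) : ℂ) := by
    rw [circleAverage_def, circleAverage_def]
    rw [smul_eq_mul, Complex.ofReal_mul, ← intervalIntegral.integral_ofReal, Complex.real_smul]
    congr 2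
    ext x
    simp
  rw [h2] at h
  exact_mod_cast h

lemma pk_eq {ρ : ℝ} (θ x : ℝ) :
    poissonKernel 0 (ρ * circleMap 0 1 θ) (circleMap 0 1 x) = PK ρ θ x := by
  have h2 := ker_eq_PK (R := 1) (ρ := ρ) (θ := θ) (x := x) one_pos
  rw [Complex.ofReal_one, one_mul] at h2
  rw [← h2, poissonKernel_eq_re_herglotzRieszKernel]
  rfl

lemma PK_int {ρ : ℝ} (h0 : 0 ≤ ρ) (h1 : ρ < 1) (θ : ℝ) :
    ∫ x in Ioo 0 (2 * π), PK ρ θ x = 2 * π := by
  have hw : (ρ : ℂ) * circleMap 0 1 θ ∈ ball (0 : ℂ) 1 := by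
    rw [mem_ball_zero_iff, norm_mul, Complex.norm_real, Real.norm_of_nonneg h0]
    simpa using h1
  have h := pk1 θ hw
  rw [circleAverage_def] at h
  simp_rw [pk_eq] at h
  rw [smul_eq_mul] at h
  rw [← integral_Ioc_eq_integral_Ioo, ← intervalIntegral.integral_of_le (by positivity)]
  have hpi : (0:ℝ) < 2 * π := by positivity
  have h5 := congrArg (fun t => 2 * π * t) h
  rw [← mul_assoc, mul_inv_cancel₀ hpi.ne', one_mul, mul_one] at h5
  exact h5

/-- Poisson-Jensen inequality in the strip. -/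
lemma PJ_strip {f : ℂ → ℂ} (hf : DifferentiableOn ℂ f (ball 0 1)) {θ y δ : ℝ} (hy : 0 < y)
    (hδ : 0 < δ) (hne : pull f ⟨θ, y + δ⟩ ≠ 0) :
    IntegrableOn (fun x => PK (Real.exp (-δ)) θ x * Real.log (‖pull f ⟨x, y⟩‖ ^ 2)) (Ioo 0 (2 * π)) ∧
    2 * π * Real.log (‖pull f ⟨θ, y + δ⟩‖ ^ 2) ≤
      ∫ x in Ioo 0 (2 * π), PK (Real.exp (-δ)) θ x * Real.log (‖pull f ⟨x, y⟩‖ ^ 2) := by
  set R := Real.exp (-y) with hR
  set ρ := Real.exp (-δ) with hρ
  have hR0 : 0 < R := Real.exp_pos _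
  have hR1 : R < 1 := by
    rw [hR, ← Real.exp_zero]; exact Real.exp_lt_exp.2 (by linarith)
  have hρ0 : 0 < ρ := Real.exp_pos _
  have hρ1 : ρ < 1 := by
    rw [hρ, ← Real.exp_zero]; exact Real.exp_lt_exp.2 (by linarith)
  have hfan : AnalyticOnNhd ℂ f (closedBall 0 R) := by
    intro z hz
    apply hf.analyticAt
    apply isOpen_ball.mem_nhds
    exact closedBall_subset_ball hR1 hz
  have hw : (R : ℂ) * ρ * circleMap 0 1 θ ∈ ball (0 : ℂ) R := by
    rw [mem_ball_zero_iff, norm_mul, norm_mul, Complex.norm_real, Complex.norm_real,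
      Real.norm_of_nonneg hR0.le, Real.norm_of_nonneg hρ0.le]
    simp only [norm_circleMap_zero, abs_one, mul_one]
    nlinarith
  have hfw : f (R * ρ * circleMap 0 1 θ) = pull f ⟨θ, y + δ⟩ := by
    rw [pull, phi_eq, circleMap_scale (Real.exp (-(y + δ))) θ, hR, hρ]
    congr 2
    rw [← Complex.ofReal_mul, ← Real.exp_add]
    congr 2
    ring
  have hfx : ∀ x : ℝ, f (circleMap 0 R x) = pull f ⟨x, y⟩ := by
    intro x
    rw [pull, phi_eq]
  have hPJ := poissonJensen_le hR0 hfan hw (by rw [hfw]; exact hne)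
  have hci : CircleIntegrable (fun z => Real.log ‖f z‖) 0 R := by
    apply MeromorphicOn.circleIntegrable_log_norm
    rw [abs_of_pos hR0]
    exact (hfan.mono sphere_subset_closedBall).meromorphicOn
  have hci2 : CircleIntegrable (ker (R * ρ * circleMap 0 1 θ) * fun z => Real.log ‖f z‖) 0 R :=
    hci.continuousOn_smul (ker_continuousOn hw)
  have e1 : ∀ x : ℝ, (ker (R * ρ * circleMap 0 1 θ) * fun z => Real.log ‖f z‖) (circleMap 0 R x) =
      PK ρ θ x * Real.log ‖pull f ⟨x, y⟩‖ := by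
    intro x
    simp only [Pi.mul_apply]
    rw [ker_eq_PK hR0, hfx]
  have e2 : ∀ t : ℝ, Real.log (t ^ 2) = 2 * Real.log t := fun t => by
    rw [Real.log_pow]; norm_num
  have hint : IntegrableOn (fun x => PK ρ θ x * Real.log ‖pull f ⟨x, y⟩‖) (Ioo 0 (2 * π)) := by
    have h1 := hci2
    unfold CircleIntegrable at h1
    simp_rw [e1] at h1
    rw [intervalIntegrable_iff_integrableOn_Ioc_of_le (by positivity)] at h1
    exact h1.mono_set Ioo_subset_Ioc_self
  constructor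
  · simp_rw [e2]
    refine (hint.const_mul 2).congr (Eventually.of_forall fun x => ?_)
    simp only
    ring
  · rw [circleAverage_def] at hPJ
    simp_rw [e1] at hPJ
    rw [intervalIntegral.integral_of_le (by positivity), integral_Ioc_eq_integral_Ioo,
      hfw] at hPJ
    simp_rw [e2]
    have e3 : ∫ x in Ioo 0 (2 * π), PK ρ θ x * (2 * Real.log ‖pull f ⟨x, y⟩‖) =
        2 * ∫ x in Ioo 0 (2 * π), PK ρ θ x * Real.log ‖pull f ⟨x, y⟩‖ := by
      rw [← integral_const_mul]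
      congr 1
      ext x
      ring
    rw [e3]
    rw [smul_eq_mul] at hPJ
    have hpi : (0:ℝ) < 2 * π := by positivity
    have := mul_le_mul_of_nonneg_left hPJ hpi.le
    rw [← mul_assoc, mul_inv_cancel₀ hpi.ne', one_mul] at this
    linarith

end Pool.Agent.Helper57.Dir
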