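import Pool.Agent.Helper57.Dir.Pois

/-!
# Tent functions, slopes and covering estimates
-/

set_option autoImplicit false

namespace Pool.Agent.Helper57.Dir

open Filter MeasureTheory Metric Real Set Topology

/-! ### chord versus arc -/

lemma norm_circle_sub_eq (a b : ℝ) :
    ‖circleMap 0 1 a - circleMap 0 1 b‖ = |2 * Real.sin ((a - b) / 2)| := by
  have h1 : circleMap 0 1 a - circleMap 0 1 b = circleMap 0 1 b * (Complex.exp (Complex.I * ((a - b : ℝ) : ℂ)) - 1) := by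
    simp only [circleMap, zero_add, Complex.ofReal_one, one_mul]
    rw [mul_sub, mul_one, ← Complex.exp_add]
    congr 2
    push_cast
    ring
  rw [h1, norm_mul]
  simp only [norm_circleMap_zero, abs_one, one_mul]
  rw [Complex.norm_exp_I_mul_ofReal_sub_one, Real.norm_eq_abs]

lemma chord {x y t : ℝ} (hx1 : -π < x) (hx2 : x ≤ π) (hy0 : 0 ≤ y) (hy1 : y ≤ 1) (ht : t ≤ 1)
    (h : ‖circleMap 0 1 x - circleMap 0 1 y‖ < t) : |x - y| < 2 * t := by
  rw [norm_circle_sub_eq, abs_mul, abs_two] at h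
  have hpi := Real.pi_gt_three
  rcases le_or_gt (-π) (x - y) with hc | hc
  · have h1 : |(x - y) / 2| ≤ π / 2 := by
      rw [abs_le]; constructor <;> linarith
    have h2 := Real.mul_abs_le_abs_sin h1
    rw [abs_div, abs_two] at h2
    have h3 : |x - y| / 2 ≤ 2 * (2 / π * (|x - y| / 2)) := by
      have h4 : 2 * (2 / π * (|x - y| / 2)) = (2 / π) * |x - y| := by ring
      rw [h4]
      have h5 : (1:ℝ) / 2 ≤ 2 / π := by
        rw [div_le_div_iff₀ (by norm_num) (by linarith)]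
        linarith [Real.pi_lt_four]
      have h6 : 0 ≤ |x - y| := abs_nonneg _
      nlinarith
    linarith
  · exfalso
    have h1 : |π + (x - y) / 2| ≤ π / 2 := by
      rw [abs_le]; constructor <;> linarith
    have h2 := Real.mul_abs_le_abs_sin h1
    have h3 : |Real.sin (π + (x - y) / 2)| = |Real.sin ((x - y) / 2)| := by
      rw [add_comm, Real.sin_add_pi, abs_neg]
    rw [h3] at h2
    have h4 : (π - 1) / 2 ≤ |π + (x - y) / 2| := by
      refine le_trans ?_ (le_abs_self _)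
      linarith
    have h5 : 2 / π * ((π - 1) / 2) ≤ 2 / π * |π + (x - y) / 2| := by gcongr
    have h6 : (1:ℝ) / 2 ≤ 2 / π * ((π - 1) / 2) := by
      have h7 : 2 / π * ((π - 1) / 2) = 1 - 1 / π := by field_simp
      rw [h7]
      have h8 : 1 / π ≤ 1 / 2 := one_div_le_one_div_of_le (by norm_num) (by linarith)
      linarith
    linarith

/-! ### local slopes -/

/-- `h` has slope at most `b` near `z`. -/
def SL (h : ℂ → ℝ) (z : ℂ) (b : ℝ) : Prop := ∀ᶠ z' in 𝓝 z, |h z' - h z| ≤ b * ‖z' - z‖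

lemma SL.mono {h : ℂ → ℝ} {z : ℂ} {b c : ℝ} (hb : SL h z b) (hbc : b ≤ c) : SL h z c := by
  filter_upwards [hb] with z' hz'
  exact hz'.trans (mul_le_mul_of_nonneg_right hbc (norm_nonneg _))

lemma SL.of_lip {h : ℂ → ℝ} {z : ℂ} {b : ℝ} (hb : ∀ z z', |h z' - h z| ≤ b * ‖z' - z‖) : SL h z b :=
  Eventually.of_forall fun z' => hb z z'

lemma SL.mul {h₁ h₂ : ℂ → ℝ} {z : ℂ} {b₁ b₂ : ℝ} (H₁ : SL h₁ z b₁) (H₂ : SL h₂ z b₂)
    (n₁ : ∀ z, 0 ≤ h₁ z ∧ h₁ z ≤ 1) (n₂ : ∀ z, 0 ≤ h₂ z ∧ h₂ z ≤ 1) :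
    SL (fun z => h₁ z * h₂ z) z (b₁ + b₂) := by
  filter_upwards [H₁, H₂] with z' h1 h2
  have e : h₁ z' * h₂ z' - h₁ z * h₂ z = h₁ z' * (h₂ z' - h₂ z) + h₂ z * (h₁ z' - h₁ z) := by ring
  rw [e]
  calc |h₁ z' * (h₂ z' - h₂ z) + h₂ z * (h₁ z' - h₁ z)|
      ≤ |h₁ z' * (h₂ z' - h₂ z)| + |h₂ z * (h₁ z' - h₁ z)| := abs_add_le _ _
    _ = h₁ z' * |h₂ z' - h₂ z| + h₂ z * |h₁ z' - h₁ z| := by
        rw [abs_mul, abs_mul, abs_of_nonneg (n₁ z').1, abs_of_nonneg (n₂ z).1]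
    _ ≤ 1 * |h₂ z' - h₂ z| + 1 * |h₁ z' - h₁ z| := by
        gcongr
        · exact (n₁ z').2
        · exact (n₂ z).2
    _ ≤ (b₁ + b₂) * ‖z' - z‖ := by linarith

lemma SL.lineDeriv_le {h : ℂ → ℝ} {z : ℂ} {b : ℝ} (hb : SL h z b) (hb0 : 0 ≤ b) (v : ℂ)
    (hv : ‖v‖ = 1) : |lineDeriv ℝ h z v| ≤ b := by
  by_cases hd : LineDifferentiableAt ℝ h z v
  · have h1 := hd.hasLineDerivAt
    unfold HasLineDerivAt at h1
    have h2 := h1.tendsto_slope_zero
    simp only [zero_add, zero_smul, add_zero] at h2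
    have h3 := h2.abs
    refine le_of_tendsto h3 ?_
    have hc : Tendsto (fun t : ℝ => z + t • v) (𝓝[≠] 0) (𝓝 z) := by
      have : Continuous (fun t : ℝ => z + t • v) := by fun_prop
      have h4 := this.tendsto 0
      simp only [zero_smul, add_zero] at h4
      exact h4.mono_left nhdsWithin_le_nhds
    filter_upwards [hc.eventually hb, self_mem_nhdsWithin] with t ht ht0
    have ht0' : t ≠ 0 := ht0
    rw [smul_eq_mul, abs_mul, abs_inv]
    have h5 : ‖z + t • v - z‖ = |t| := by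
      rw [add_sub_cancel_left, norm_smul, hv, mul_one, Real.norm_eq_abs]
    rw [h5] at ht
    have h6 : 0 < |t| := abs_pos.2 ht0'
    rw [inv_mul_le_iff₀ h6]
    linarith
  · rw [lineDeriv_zero_of_not_lineDifferentiableAt hd]
    simpa using hb0

/-! ### tents -/

/-- `min 1 (dist (z, S) / ρ)` -/
noncomputable def tent (ρ : ℝ) (S : Set ℂ) (z : ℂ) : ℝ := min 1 (infDist z S / ρ)

/-- slope bound of the tent -/
noncomputable def tb (ρ : ℝ) (S : Set ℂ) (z : ℂ) : ℝ :=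
  {z | infDist z S ≤ ρ}.indicator (fun _ => 1 / ρ) z

lemma tent_nonneg {ρ : ℝ} (hρ : 0 < ρ) (S : Set ℂ) (z : ℂ) : 0 ≤ tent ρ S z :=
  le_min zero_le_one (div_nonneg infDist_nonneg hρ.le)

lemma tent_le_one (ρ : ℝ) (S : Set ℂ) (z : ℂ) : tent ρ S z ≤ 1 := min_le_left _ _

lemma tent_lip {ρ : ℝ} (hρ : 0 < ρ) (S : Set ℂ) (z z' : ℂ) :
    |tent ρ S z' - tent ρ S z| ≤ 1 / ρ * ‖z' - z‖ := by
  unfold tent
  have h1 : |min 1 (infDist z' S / ρ) - min 1 (infDist z S / ρ)| ≤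
      |infDist z' S / ρ - infDist z S / ρ| := by
    have := abs_min_sub_min_le_max (1:ℝ) (infDist z' S / ρ) 1 (infDist z S / ρ)
    simpa using this
  refine h1.trans ?_
  rw [← sub_div, abs_div, abs_of_pos hρ, div_eq_mul_inv, mul_comm, one_div]
  gcongr
  rw [abs_le]
  have h2 : infDist z' S ≤ infDist z S + dist z' z := infDist_le_infDist_add_dist
  have h3 : infDist z S ≤ infDist z' S + dist z z' := infDist_le_infDist_add_dist
  rw [dist_comm, dist_eq_norm] at h3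
  rw [dist_eq_norm] at h2
  constructor <;> linarith

lemma tent_eq_one {ρ : ℝ} (hρ : 0 < ρ) {S : Set ℂ} {z : ℂ} (h : ρ ≤ infDist z S) :
    tent ρ S z = 1 := by
  unfold tent
  rw [min_eq_left]
  rw [le_div_iff₀ hρ]; linarith

lemma tent_eq_zero {ρ : ℝ} {S : Set ℂ} {z : ℂ} (h : z ∈ S) : tent ρ S z = 0 := by
  unfold tent
  rw [infDist_zero_of_mem h, zero_div]
  exact min_eq_right zero_le_one

lemma tent_SL {ρ : ℝ} (hρ : 0 < ρ) (S : Set ℂ) (z : ℂ) : SL (tent ρ S) z (tb ρ S z) := by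
  by_cases h : infDist z S ≤ ρ
  · have : tb ρ S z = 1 / ρ := by
      unfold tb; rw [indicator_of_mem]; exact h
    rw [this]
    exact SL.of_lip (fun z z' => tent_lip hρ S z z')
  · have h0 : tb ρ S z = 0 := by
      unfold tb; rw [indicator_of_notMem]; exact h
    rw [h0]
    push Not at h
    have h1 : ∀ᶠ z' in 𝓝 z, ρ < infDist z' S :=
      (continuous_infDist_pt S).continuousAt.eventually (lt_mem_nhds h)
    filter_upwards [h1] with z' hz'
    rw [tent_eq_one hρ hz'.le, tent_eq_one hρ h.le]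
    simp

lemma tb_nonneg {ρ : ℝ} (hρ : 0 < ρ) (S : Set ℂ) (z : ℂ) : 0 ≤ tb ρ S z := by
  unfold tb
  apply indicator_nonneg
  intro _ _
  positivity

lemma tent_lipschitz {ρ : ℝ} (hρ : 0 < ρ) (S : Set ℂ) :
    LipschitzWith (Real.toNNReal (1 / ρ)) (tent ρ S) := by
  apply LipschitzWith.of_dist_le_mul
  intro z z'
  rw [Real.coe_toNNReal _ (by positivity), Real.dist_eq, dist_eq_norm]
  exact tent_lip hρ S z' z

lemma lipschitz_mul {h₁ h₂ : ℂ → ℝ} {C₁ C₂ : NNReal} (H₁ : LipschitzWith C₁ h₁)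
    (H₂ : LipschitzWith C₂ h₂) (n₁ : ∀ z, |h₁ z| ≤ 1) (n₂ : ∀ z, |h₂ z| ≤ 1) :
    LipschitzWith (C₁ + C₂) (fun z => h₁ z * h₂ z) := by
  apply LipschitzWith.of_dist_le_mul
  intro z z'
  have h1 := H₁.dist_le_mul z z'
  have h2 := H₂.dist_le_mul z z'
  rw [Real.dist_eq] at h1 h2 ⊢
  have e : h₁ z * h₂ z - h₁ z' * h₂ z' = h₁ z * (h₂ z - h₂ z') + h₂ z' * (h₁ z - h₁ z') := by ring
  rw [e]
  calc |h₁ z * (h₂ z - h₂ z') + h₂ z' * (h₁ z - h₁ z')|
      ≤ |h₁ z * (h₂ z - h₂ z')| + |h₂ z' * (h₁ z - h₁ z')| := abs_add_le _ _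
    _ = |h₁ z| * |h₂ z - h₂ z'| + |h₂ z'| * |h₁ z - h₁ z'| := by rw [abs_mul, abs_mul]
    _ ≤ 1 * |h₂ z - h₂ z'| + 1 * |h₁ z - h₁ z'| := by
        gcongr
        · exact n₁ z
        · exact n₂ z'
    _ ≤ _ := by push_cast; linarith

/-! ### coverings of the Cantor set -/

lemma KC_cover (q : ℕ) : ∃ T : Finset ℝ, T.card ≤ 2 ^ q ∧
    ∀ κ ∈ KC, ∃ b ∈ T, b ≤ κ ∧ κ ≤ b + (1 / 4) ^ q := by
  have hsummable : ∀ d : ℕ → ℝ, (∀ j, d j = 1 ∨ d j = 2) →
      Summable (fun j : ℕ => d j * (1 / 4 : ℝ) ^ (j + 1)) := by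
    intro d hd
    have h0 : Summable (fun j : ℕ => 2 * (1 / 4 : ℝ) ^ (j + 1)) := by
      apply Summable.mul_left
      exact (summable_nat_add_iff 1).2 (summable_geometric_of_lt_one (by norm_num) (by norm_num))
    refine Summable.of_nonneg_of_le (fun j => ?_) (fun j => ?_) h0
    · rcases hd j with h | h <;> rw [h] <;> positivity
    · rcases hd j with h | h
      · rw [h]
        have : (0:ℝ) < (1 / 4) ^ (j + 1) := by positivity
        linarith
      · rw [h]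
  have hgeom : ∑' j : ℕ, (2:ℝ) * (1 / 4) ^ (j + 1) ≤ 1 := by
    rw [tsum_mul_left]
    have : ∑' j : ℕ, ((1:ℝ) / 4) ^ (j + 1) = 1 / 3 := by
      simp_rw [pow_succ]
      rw [tsum_mul_right, tsum_geometric_of_lt_one (by norm_num) (by norm_num)]
      norm_num
    rw [this]
    norm_num
  have h01 : ∀ κ ∈ KC, 0 ≤ κ ∧ κ ≤ 1 := by
    rintro κ ⟨d, hd, rfl⟩
    constructor
    · apply tsum_nonneg
      intro j
      rcases hd j with h | h <;> rw [h] <;> positivity
    · refine le_trans ?_ hgeom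
      have h0 : Summable (fun j : ℕ => 2 * (1 / 4 : ℝ) ^ (j + 1)) := by
        apply Summable.mul_left
        exact (summable_nat_add_iff 1).2 (summable_geometric_of_lt_one (by norm_num) (by norm_num))
      refine (hsummable d hd).tsum_le_tsum (fun j => ?_) h0
      rcases hd j with h | h
      · rw [h]
        have : (0:ℝ) < (1 / 4) ^ (j + 1) := by positivity
        linarith
      · rw [h]
  induction q with
  | zero =>
    refine ⟨{0}, by simp, ?_⟩
    intro κ hκ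
    refine ⟨0, by simp, (h01 κ hκ).1, ?_⟩
    have := (h01 κ hκ).2
    simpa using this
  | succ q ih =>
    obtain ⟨T, hT, hcov⟩ := ih
    classical
    refine ⟨(T.image fun b => 1 / 4 + b / 4) ∪ (T.image fun b => 2 / 4 + b / 4), ?_, ?_⟩
    · calc ((T.image fun b => 1 / 4 + b / 4) ∪ (T.image fun b => 2 / 4 + b / 4)).card
          ≤ (T.image fun b => 1 / 4 + b / 4).card + (T.image fun b => 2 / 4 + b / 4).card :=
            Finset.card_union_le _ _
        _ ≤ T.card + T.card := add_le_add Finset.card_image_le Finset.card_image_le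
        _ ≤ 2 ^ q + 2 ^ q := add_le_add hT hT
        _ = 2 ^ (q + 1) := by ring
    · rintro κ ⟨d, hd, rfl⟩
      set d' : ℕ → ℝ := fun j => d (j + 1) with hd'
      have hd'2 : ∀ j, d' j = 1 ∨ d' j = 2 := fun j => hd (j + 1)
      obtain ⟨b, hb, hb1, hb2⟩ := hcov (∑' j, d' j * (1 / 4) ^ (j + 1)) ⟨d', hd'2, rfl⟩
      have e : ∑' j, d j * (1 / 4 : ℝ) ^ (j + 1) = d 0 / 4 + (∑' j, d' j * (1 / 4) ^ (j + 1)) / 4 := by
        rw [(hsummable d hd).tsum_eq_zero_add]
        have h2 : ∀ j, d (j + 1) * (1 / 4 : ℝ) ^ (j + 1 + 1) = (d' j * (1 / 4) ^ (j + 1)) * (1 / 4) := by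
          intro j
          simp only [hd']
          ring
        simp_rw [h2]
        rw [tsum_mul_right]
        ring
      rw [e]
      rcases hd 0 with h | h
      · refine ⟨1 / 4 + b / 4, Finset.mem_union_left _ (Finset.mem_image_of_mem _ hb), ?_, ?_⟩
        · rw [h]; linarith
        · rw [h, pow_succ]; linarith
      · refine ⟨2 / 4 + b / 4, Finset.mem_union_right _ (Finset.mem_image_of_mem _ hb), ?_, ?_⟩
        · rw [h]; linarith
        · rw [h, pow_succ]; linarith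

lemma KC_01 {κ : ℝ} (hκ : κ ∈ KC) : 0 ≤ κ ∧ κ ≤ 1 := by
  obtain ⟨T, hT, h⟩ := KC_cover 0
  obtain ⟨d, hd, rfl⟩ := hκ
  constructor
  · apply tsum_nonneg
    intro j
    rcases hd j with h | h <;> rw [h] <;> positivity
  · have h0 : Summable (fun j : ℕ => 2 * (1 / 4 : ℝ) ^ (j + 1)) := by
      apply Summable.mul_left
      exact (summable_nat_add_iff 1).2 (summable_geometric_of_lt_one (by norm_num) (by norm_num))
    have h1 : ∀ j, d j * (1 / 4 : ℝ) ^ (j + 1) ≤ 2 * (1 / 4 : ℝ) ^ (j + 1) := by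
      intro j
      have : (0:ℝ) < (1 / 4) ^ (j + 1) := by positivity
      rcases hd j with h | h <;> rw [h]
      linarith
    have h2 : Summable (fun j : ℕ => d j * (1 / 4 : ℝ) ^ (j + 1)) := by
      refine Summable.of_nonneg_of_le (fun j => ?_) h1 h0
      rcases hd j with h | h <;> rw [h] <;> positivity
    refine (h2.tsum_le_tsum h1 h0).trans ?_
    rw [tsum_mul_left]
    have : ∑' j : ℕ, ((1:ℝ) / 4) ^ (j + 1) = 1 / 3 := by
      simp_rw [pow_succ]
      rw [tsum_mul_right, tsum_geometric_of_lt_one (by norm_num) (by norm_num)]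
      norm_num
    rw [this]
    norm_num

end Pool.Agent.Helper57.Dir
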