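import Pool.Agent.Helper57.Dir.Real1

/-!
# Measure estimates for neighbourhoods on the circle, logarithmic integrals of tents
-/

set_option autoImplicit false

namespace Pool.Agent.Helper57.Dir

open Filter MeasureTheory Metric Real Set Topology

lemma vol_le {S : Set ℂ} (hS : S.Nonempty) (T : Finset ℝ) {a t : ℝ} (ht : t ≤ 1)
    (hcov : ∀ p ∈ S, ∃ b ∈ T, ∃ y, b ≤ y ∧ y ≤ b + a ∧ 0 ≤ y ∧ y ≤ 1 ∧ p = circleMap 0 1 y) :
    volume {x | x ∈ Ioc (-π) π ∧ infDist (circleMap 0 1 x) S < t} ≤
      ENNReal.ofReal (T.card * (a + 4 * t)) := by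
  have hsub : {x | x ∈ Ioc (-π) π ∧ infDist (circleMap 0 1 x) S < t} ⊆
      ⋃ b ∈ T, Icc (b - 2 * t) (b + a + 2 * t) := by
    rintro x ⟨hx, hd⟩
    obtain ⟨p, hp, hpd⟩ := (infDist_lt_iff hS).1 hd
    obtain ⟨b, hb, y, hy1, hy2, hy3, hy4, rfl⟩ := hcov p hp
    rw [dist_eq_norm] at hpd
    have h1 := chord hx.1 hx.2 hy3 hy4 ht hpd
    rw [abs_lt] at h1
    simp only [mem_iUnion]
    refine ⟨b, hb, ?_, ?_⟩ <;> linarith [h1.1, h1.2]
  calc volume {x | x ∈ Ioc (-π) π ∧ infDist (circleMap 0 1 x) S < t}
      ≤ volume (⋃ b ∈ T, Icc (b - 2 * t) (b + a + 2 * t)) := measure_mono hsub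
    _ ≤ ∑ b ∈ T, volume (Icc (b - 2 * t) (b + a + 2 * t)) := measure_biUnion_finset_le _ _
    _ = ∑ b ∈ T, ENNReal.ofReal (a + 4 * t) := by
        refine Finset.sum_congr rfl fun b _ => ?_
        rw [Real.volume_Icc]
        congr 1; ring
    _ = _ := by
        rw [Finset.sum_const, nsmul_eq_mul, ENNReal.ofReal_mul (by positivity)]
        simp

lemma log_tent_le {c : ℝ} (hc : 0 < c) (S : Set ℂ) (z : ℂ) :
    ENNReal.ofReal (-Real.log (tent c S z)) ≤
      ∑' q : ℕ, {z | infDist z S < c * (1 / 4) ^ q}.indicator (fun _ => ENNReal.ofReal (Real.log 4)) z := by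
  by_cases h0 : infDist z S = 0
  · have : tent c S z = 0 := by
      unfold tent
      rw [h0, zero_div]
      exact min_eq_right zero_le_one
    rw [this]; simp
  · have hpos : 0 < infDist z S := lt_of_le_of_ne infDist_nonneg (Ne.symm h0)
    by_cases h1 : c ≤ infDist z S
    · rw [tent_eq_one hc h1]; simp
    · push Not at h1
      have hex : ∃ n : ℕ, c * (1 / 4) ^ n ≤ infDist z S := by
        have h2 : Tendsto (fun n : ℕ => c * (1 / 4 : ℝ) ^ n) atTop (𝓝 (c * 0)) :=
          (tendsto_pow_atTop_nhds_zero_of_lt_one (by norm_num) (by norm_num)).const_mul c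
        rw [mul_zero] at h2
        have h3 := (h2.eventually (gt_mem_nhds hpos)).exists
        obtain ⟨n, hn⟩ := h3
        exact ⟨n, hn.le⟩
      classical
      set N := Nat.find hex with hN
      have hN1 : c * (1 / 4) ^ N ≤ infDist z S := Nat.find_spec hex
      have hN2 : ∀ q < N, infDist z S < c * (1 / 4) ^ q := by
        intro q hq
        have := Nat.find_min hex hq
        push Not at this
        exact this
      have hlog : -Real.log (tent c S z) ≤ N * Real.log 4 := by
        have h4 : tent c S z = infDist z S / c := by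
          unfold tent
          apply min_eq_right
          rw [div_le_one hc]; exact h1.le
        rw [h4, neg_le]
        have h5 : (1 / 4 : ℝ) ^ N ≤ infDist z S / c := by
          rw [le_div_iff₀ hc]; linarith
        have h6 := Real.log_le_log (by positivity) h5
        rw [Real.log_pow, one_div, Real.log_inv] at h6
        linarith
      calc ENNReal.ofReal (-Real.log (tent c S z)) ≤ ENNReal.ofReal (N * Real.log 4) :=
            ENNReal.ofReal_le_ofReal hlog
        _ = ∑ q ∈ Finset.range N, ENNReal.ofReal (Real.log 4) := by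
            rw [Finset.sum_const, Finset.card_range, nsmul_eq_mul, ENNReal.ofReal_mul (by positivity)]
            simp
        _ = ∑ q ∈ Finset.range N, {z | infDist z S < c * (1 / 4) ^ q}.indicator
              (fun _ => ENNReal.ofReal (Real.log 4)) z := by
            refine Finset.sum_congr rfl fun q hq => ?_
            rw [indicator_of_mem]
            exact hN2 q (Finset.mem_range.1 hq)
        _ ≤ _ := ENNReal.sum_le_tsum _

lemma log_tent_lintegral_le {c : ℝ} (hc : 0 < c) (S : Set ℂ) :
    ∫⁻ x in Ioc (-π) π, ENNReal.ofReal (-Real.log (tent c S (circleMap 0 1 x))) ≤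
      ENNReal.ofReal (Real.log 4) *
        ∑' q : ℕ, volume {x | x ∈ Ioc (-π) π ∧ infDist (circleMap 0 1 x) S < c * (1 / 4) ^ q} := by
  have hmeas : ∀ q : ℕ, MeasurableSet {x : ℝ | infDist (circleMap 0 1 x) S < c * (1 / 4) ^ q} := by
    intro q
    have : Continuous fun x : ℝ => infDist (circleMap 0 1 x) S :=
      (continuous_infDist_pt S).comp (continuous_circleMap 0 1)
    exact (isOpen_lt this continuous_const).measurableSet
  calc ∫⁻ x in Ioc (-π) π, ENNReal.ofReal (-Real.log (tent c S (circleMap 0 1 x)))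
      ≤ ∫⁻ x in Ioc (-π) π, ∑' q : ℕ, {x : ℝ | infDist (circleMap 0 1 x) S < c * (1 / 4) ^ q}.indicator
          (fun _ => ENNReal.ofReal (Real.log 4)) x := by
        apply lintegral_mono
        intro x
        exact log_tent_le hc S (circleMap 0 1 x)
    _ = ∑' q : ℕ, ∫⁻ x in Ioc (-π) π, {x : ℝ | infDist (circleMap 0 1 x) S < c * (1 / 4) ^ q}.indicator
          (fun _ => ENNReal.ofReal (Real.log 4)) x := by
        rw [lintegral_tsum]
        intro q
        exact (measurable_const.indicator (hmeas q)).aemeasurable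
    _ = ∑' q : ℕ, ENNReal.ofReal (Real.log 4) *
          volume {x | x ∈ Ioc (-π) π ∧ infDist (circleMap 0 1 x) S < c * (1 / 4) ^ q} := by
        congr 1
        ext q
        rw [lintegral_indicator (hmeas q), setLIntegral_const, Measure.restrict_apply (hmeas q)]
        congr 2
        ext x
        simp only [mem_inter_iff, mem_ofPred_eq]
        tauto
    _ = _ := ENNReal.tsum_mul_left

lemma ae_pos_of_tsum {c : ℝ} (hc : 0 < c) (S : Set ℂ)
    (h : ∑' q : ℕ, volume {x | x ∈ Ioc (-π) π ∧ infDist (circleMap 0 1 x) S < c * (1 / 4) ^ q} ≠ ⊤) :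
    ∀ᵐ x ∂(volume.restrict (Ioc (-π) π)), 0 < tent c S (circleMap 0 1 x) := by
  have h1 := ENNReal.tendsto_atTop_zero_of_tsum_ne_top h
  rw [ae_restrict_iff' measurableSet_Ioc]
  rw [ae_iff]
  have h2 : volume {x | ¬ (x ∈ Ioc (-π) π → 0 < tent c S (circleMap 0 1 x))} ≤ 0 := by
    refine ge_of_tendsto' h1 fun q => measure_mono ?_
    intro x hx
    simp only [mem_ofPred_eq, Classical.not_imp, not_lt] at hx
    refine ⟨hx.1, ?_⟩
    have h3 : infDist (circleMap 0 1 x) S / c ≤ 0 := by
      have := hx.2
      unfold tent at this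
      rcases min_le_iff.1 this with h | h
      · norm_num at h
      · exact h
    have h4 : infDist (circleMap 0 1 x) S ≤ 0 := by
      by_contra hcon
      push Not at hcon
      have := div_pos hcon hc
      linarith
    have : 0 < c * (1 / 4 : ℝ) ^ q := by positivity
    linarith
  exact le_antisymm h2 (zero_le)

end Pool.Agent.Helper57.Dir
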