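import Pool.Agent.Helper57.Dir.Real2
import Pool.Agent.Helper57.Dir.Greedy

/-!
# The two-scale group: slopes, energy
-/

set_option autoImplicit false

namespace Pool.Agent.Helper57.Dir

open Filter MeasureTheory Metric Real Set Topology

/-- base points -/
def Pset (δ : ℝ) (m : ℕ) : Set ℂ := (fun i : ℕ => circleMap 0 1 (i * δ)) '' {i | i < m}

/-- the Cantor clusters -/
def Eset (δ l : ℝ) (m N : ℕ) : Set ℂ :=
  {p | ∃ i < m, ∃ j < N, ∃ κ ∈ KC, p = circleMap 0 1 (i * δ + j * l + l * κ)}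

lemma KC_nonempty : ∃ κ, κ ∈ KC :=
  ⟨∑' j : ℕ, (1:ℝ) * (1 / 4 : ℝ) ^ (j + 1), fun _ => 1, fun _ => Or.inl rfl, rfl⟩

lemma Pset_finite (δ : ℝ) (m : ℕ) : (Pset δ m).Finite :=
  (Set.finite_lt_nat m).image _

lemma Pset_nonempty (δ : ℝ) {m : ℕ} (hm : 0 < m) : (Pset δ m).Nonempty :=
  ⟨_, 0, hm, rfl⟩

lemma Eset_nonempty (δ l : ℝ) {m N : ℕ} (hm : 0 < m) (hN : 0 < N) : (Eset δ l m N).Nonempty := by
  obtain ⟨κ, hκ⟩ := KC_nonempty
  exact ⟨_, 0, hm, 0, hN, κ, hκ, rfl⟩

lemma circle_dist_le (a b : ℝ) : dist (circleMap 0 1 a) (circleMap 0 1 b) ≤ |a - b| := by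
  rw [dist_eq_norm, norm_circle_sub_eq, abs_mul, abs_two]
  have h1 := Real.abs_sin_le_abs (x := (a - b) / 2)
  rw [abs_div, abs_two] at h1
  linarith

lemma Pset_vol (δ : ℝ) {m : ℕ} (hm : 0 < m) {ρ : ℝ} (hρ : 0 ≤ ρ) :
    volume {z | infDist z (Pset δ m) ≤ ρ} ≤ ENNReal.ofReal (m * π * ρ ^ 2) := by
  have hsub : {z | infDist z (Pset δ m) ≤ ρ} ⊆
      ⋃ i ∈ Finset.range m, closedBall (circleMap 0 1 (i * δ)) ρ := by
    intro z hz
    simp only [mem_ofPred_eq] at hz
    obtain ⟨p, ⟨i, hi, rfl⟩, hp⟩ :=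
      (Pset_finite δ m).isCompact.exists_infDist_eq_dist (Pset_nonempty δ hm) z
    simp only [mem_iUnion]
    refine ⟨i, Finset.mem_range.2 hi, ?_⟩
    rw [mem_closedBall]
    linarith
  calc volume {z | infDist z (Pset δ m) ≤ ρ}
      ≤ volume (⋃ i ∈ Finset.range m, closedBall (circleMap 0 1 (i * δ)) ρ) := measure_mono hsub
    _ ≤ ∑ i ∈ Finset.range m, volume (closedBall (circleMap 0 1 (i * δ)) ρ) :=
        measure_biUnion_finset_le _ _
    _ = _ := by
        simp only [Complex.volume_closedBall]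
        rw [Finset.sum_const, Finset.card_range, nsmul_eq_mul, mul_assoc, ENNReal.ofReal_mul (by positivity),
          ENNReal.ofReal_mul Real.pi_pos.le, ENNReal.ofReal_pow hρ, ENNReal.ofReal_natCast]
        rw [mul_comm (ENNReal.ofReal ρ ^ 2)]
        congr 2
        rw [ENNReal.ofReal, Real.toNNReal_of_nonneg Real.pi_pos.le]
        rfl

lemma E_near {δ l : ℝ} {m N : ℕ} (hl : 0 < l) (hm : 0 < m) (hN : 0 < N) (z : ℂ) :
    infDist z (Pset δ m) ≤ infDist z (Eset δ l m N) + N * l := by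
  have h : infDist z (Pset δ m) - N * l ≤ infDist z (Eset δ l m N) := by
    rw [le_infDist (Eset_nonempty δ l hm hN)]
    rintro p ⟨i, hi, j, hj, κ, hκ, rfl⟩
    have h1 : infDist z (Pset δ m) ≤ dist z (circleMap 0 1 (i * δ)) :=
      infDist_le_dist_of_mem ⟨i, hi, rfl⟩
    have h2 := dist_triangle z (circleMap 0 1 (i * δ + j * l + l * κ)) (circleMap 0 1 (i * δ))
    have h3 := circle_dist_le (i * δ + j * l + l * κ) (i * δ)
    have h4 : |(i * δ + j * l + l * κ) - i * δ| ≤ N * l := by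
      have h5 := KC_01 hκ
      have h6 : (j:ℝ) + 1 ≤ N := by exact_mod_cast hj
      rw [abs_of_nonneg]
      · nlinarith [h5.1, h5.2]
      · have : (0:ℝ) ≤ j * l := by positivity
        have : 0 ≤ l * κ := mul_nonneg hl.le h5.1
        linarith
    linarith
  linarith

lemma tb_sq_int {ρ : ℝ} (hρ : 0 < ρ) {S : Set ℂ} {A : ℝ}
    (hvol : volume {z | infDist z S ≤ ρ} ≤ ENNReal.ofReal (A * ρ ^ 2)) :
    ∫⁻ z, ENNReal.ofReal (tb ρ S z ^ 2) ≤ ENNReal.ofReal A := by
  have hm : MeasurableSet {z : ℂ | infDist z S ≤ ρ} :=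
    (isClosed_le (continuous_infDist_pt S) continuous_const).measurableSet
  have e : (fun z => ENNReal.ofReal (tb ρ S z ^ 2)) =
      {z : ℂ | infDist z S ≤ ρ}.indicator (fun _ => ENNReal.ofReal ((1 / ρ) ^ 2)) := by
    ext z
    unfold tb
    by_cases h : z ∈ {z : ℂ | infDist z S ≤ ρ}
    · rw [indicator_of_mem h, indicator_of_mem h]
    · rw [indicator_of_notMem h, indicator_of_notMem h]; simp
  rw [e, lintegral_indicator hm, setLIntegral_const]
  calc ENNReal.ofReal ((1 / ρ) ^ 2) * volume {z | infDist z S ≤ ρ}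
      ≤ ENNReal.ofReal ((1 / ρ) ^ 2) * ENNReal.ofReal (A * ρ ^ 2) := by gcongr
    _ = ENNReal.ofReal A := by
        rw [← ENNReal.ofReal_mul (by positivity)]
        congr 1
        field_simp

lemma tb_measurable (ρ : ℝ) (S : Set ℂ) : Measurable (tb ρ S) := by
  have hm : MeasurableSet {z : ℂ | infDist z S ≤ ρ} :=
    (isClosed_le (continuous_infDist_pt S) continuous_const).measurableSet
  exact measurable_const.indicator hm

/-! ### averaged tents -/

noncomputable def vv (δ : ℝ) (K : ℕ) (S : Set ℂ) (z : ℂ) : ℝ :=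
  (∑ t ∈ Finset.range K, tent (δ / 2 ^ (t + 1)) S z) / K

noncomputable def bv (δ : ℝ) (K : ℕ) (S : Set ℂ) (z : ℂ) : ℝ :=
  (∑ t ∈ Finset.range K, tb (δ / 2 ^ (t + 1)) S z) / K

lemma vv_nonneg {δ : ℝ} (hδ : 0 < δ) (K : ℕ) (S : Set ℂ) (z : ℂ) : 0 ≤ vv δ K S z := by
  unfold vv
  apply div_nonneg _ (Nat.cast_nonneg _)
  exact Finset.sum_nonneg fun t _ => tent_nonneg (by positivity) S z

lemma vv_le_one (δ : ℝ) (K : ℕ) (S : Set ℂ) (z : ℂ) : vv δ K S z ≤ 1 := by
  unfold vv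
  apply div_le_one_of_le₀ _ (Nat.cast_nonneg _)
  calc ∑ t ∈ Finset.range K, tent (δ / 2 ^ (t + 1)) S z ≤ ∑ t ∈ Finset.range K, (1:ℝ) :=
        Finset.sum_le_sum fun t _ => tent_le_one _ _ _
    _ = K := by simp

lemma bv_nonneg {δ : ℝ} (hδ : 0 < δ) (K : ℕ) (S : Set ℂ) (z : ℂ) : 0 ≤ bv δ K S z := by
  unfold bv
  apply div_nonneg _ (Nat.cast_nonneg _)
  exact Finset.sum_nonneg fun t _ => tb_nonneg (by positivity) S z

lemma bv_measurable (δ : ℝ) (K : ℕ) (S : Set ℂ) : Measurable (bv δ K S) := by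
  unfold bv
  apply Measurable.div_const
  exact Finset.measurable_sum _ fun t _ => tb_measurable _ _

lemma vv_SL {δ : ℝ} (hδ : 0 < δ) (K : ℕ) (S : Set ℂ) (z : ℂ) : SL (vv δ K S) z (bv δ K S z) := by
  have h : ∀ᶠ z' in 𝓝 z, ∀ t ∈ Finset.range K,
      |tent (δ / 2 ^ (t + 1)) S z' - tent (δ / 2 ^ (t + 1)) S z| ≤ tb (δ / 2 ^ (t + 1)) S z * ‖z' - z‖ := by
    rw [Filter.eventually_all_finset]
    intro t _
    exact tent_SL (by positivity) S z
  filter_upwards [h] with z' hz'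
  unfold vv bv
  rw [← sub_div, ← Finset.sum_sub_distrib, abs_div, Nat.abs_cast, div_mul_eq_mul_div, Finset.sum_mul]
  gcongr
  exact (Finset.abs_sum_le_sum_abs _ _).trans (Finset.sum_le_sum hz')

lemma vv_ge {δ : ℝ} (hδ : 0 < δ) {K : ℕ} (hK : 0 < K) (S : Set ℂ) (z : ℂ) :
    tent (δ / 2) S z ≤ vv δ K S z := by
  unfold vv
  rw [le_div_iff₀ (by exact_mod_cast hK)]
  calc tent (δ / 2) S z * K = ∑ t ∈ Finset.range K, tent (δ / 2) S z := by
        rw [Finset.sum_const, Finset.card_range, nsmul_eq_mul, mul_comm]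
    _ ≤ _ := by
        apply Finset.sum_le_sum
        intro t _
        unfold tent
        apply min_le_min_left
        apply div_le_div_of_nonneg_left infDist_nonneg (by positivity)
        apply div_le_div_of_nonneg_left hδ.le (by norm_num)
        have : (1:ℝ) ≤ 2 ^ t := one_le_pow₀ (by norm_num)
        rw [pow_succ]; linarith

lemma vv_le {δ d : ℝ} (hδ : 0 < δ) {K : ℕ} (hK : 0 < K) {S : Set ℂ} {z : ℂ} (hd : infDist z S ≤ d) :
    vv δ K S z ≤ d * 2 ^ K / δ := by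
  have hd0 : 0 ≤ d := infDist_nonneg.trans hd
  unfold vv
  rw [div_le_iff₀ (by exact_mod_cast hK)]
  calc ∑ t ∈ Finset.range K, tent (δ / 2 ^ (t + 1)) S z ≤ ∑ t ∈ Finset.range K, d * 2 ^ K / δ := by
        apply Finset.sum_le_sum
        intro t ht
        unfold tent
        refine (min_le_right _ _).trans ?_
        rw [div_div_eq_mul_div]
        gcongr
        · norm_num
        · have := Finset.mem_range.1 ht
          omega
    _ = _ := by rw [Finset.sum_const, Finset.card_range, nsmul_eq_mul, mul_comm]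

lemma sum_tb_sq {δ : ℝ} (hδ : 0 < δ) (K : ℕ) (S : Set ℂ) (z : ℂ) :
    (∑ t ∈ Finset.range K, tb (δ / 2 ^ (t + 1)) S z) ^ 2 ≤
      4 * ∑ t ∈ Finset.range K, tb (δ / 2 ^ (t + 1)) S z ^ 2 := by
  induction K with
  | zero => simp
  | succ K ih =>
    by_cases h : infDist z S ≤ δ / 2 ^ (K + 1)
    · have e : tb (δ / 2 ^ (K + 1)) S z = 2 ^ (K + 1) / δ := by
        unfold tb
        rw [indicator_of_mem]
        · rw [one_div_div]
        · exact h
      have hle : ∀ n : ℕ, ∑ t ∈ Finset.range n, tb (δ / 2 ^ (t + 1)) S z ≤ 2 * (2 ^ n / δ) := by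
        intro n
        induction n with
        | zero => simp; positivity
        | succ n ih =>
          rw [Finset.sum_range_succ]
          have : tb (δ / 2 ^ (n + 1)) S z ≤ 2 ^ (n + 1) / δ := by
            unfold tb
            by_cases h' : z ∈ {z : ℂ | infDist z S ≤ δ / 2 ^ (n + 1)}
            · rw [indicator_of_mem h', one_div_div]
            · rw [indicator_of_notMem h']; positivity
          have h2 : 2 * (2 ^ (n + 1) / δ) = 2 * (2 ^ n / δ) + 2 ^ (n + 1) / δ := by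
            rw [pow_succ]; ring
          linarith
      have h1 := hle (K + 1)
      have h0 : 0 ≤ ∑ t ∈ Finset.range (K + 1), tb (δ / 2 ^ (t + 1)) S z :=
        Finset.sum_nonneg fun t _ => tb_nonneg (by positivity) S z
      calc (∑ t ∈ Finset.range (K + 1), tb (δ / 2 ^ (t + 1)) S z) ^ 2
          ≤ (2 * (2 ^ (K + 1) / δ)) ^ 2 := by gcongr
        _ = 4 * tb (δ / 2 ^ (K + 1)) S z ^ 2 := by rw [e]; ring
        _ ≤ 4 * ∑ t ∈ Finset.range (K + 1), tb (δ / 2 ^ (t + 1)) S z ^ 2 := by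
            gcongr
            exact Finset.single_le_sum (f := fun t => tb (δ / 2 ^ (t + 1)) S z ^ 2)
              (fun t _ => sq_nonneg _) (Finset.self_mem_range_succ K)
    · have e : tb (δ / 2 ^ (K + 1)) S z = 0 := by
        unfold tb
        rw [indicator_of_notMem]
        exact h
      rw [Finset.sum_range_succ, Finset.sum_range_succ, e]
      simpa using ih

end Pool.Agent.Helper57.Dir
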