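import Pool.Agent.Helper57.Dir.Real3

/-!
# The two-scale group: existence
-/

set_option autoImplicit false

namespace Pool.Agent.Helper57.Dir

open Filter MeasureTheory Metric Real Set Topology

/-- group function -/
noncomputable def FF (δ l : ℝ) (m N K : ℕ) (z : ℂ) : ℝ :=
  vv δ K (Pset δ m) z * tent (N * l) (Eset δ l m N) z

/-- group slope bound -/
noncomputable def bF (δ l : ℝ) (m N K : ℕ) (z : ℂ) : ℝ :=
  bv δ K (Pset δ m) z + (2 * (N * l) * 2 ^ K / δ) * tb (N * l) (Eset δ l m N) z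

lemma FF_SL {δ l : ℝ} {m N K : ℕ} (hδ : 0 < δ) (hl : 0 < l) (hm : 0 < m) (hN : 0 < N) (hK : 0 < K)
    (z : ℂ) : SL (FF δ l m N K) z (bF δ l m N K z) := by
  have hNl : 0 < (N:ℝ) * l := mul_pos (by exact_mod_cast hN) hl
  filter_upwards [vv_SL hδ K (Pset δ m) z, tent_SL hNl (Eset δ l m N) z] with z' h1 h2
  unfold FF bF
  have e : vv δ K (Pset δ m) z' * tent (N * l) (Eset δ l m N) z' -
      vv δ K (Pset δ m) z * tent (N * l) (Eset δ l m N) z =
      tent (N * l) (Eset δ l m N) z' * (vv δ K (Pset δ m) z' - vv δ K (Pset δ m) z) +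
      vv δ K (Pset δ m) z * (tent (N * l) (Eset δ l m N) z' - tent (N * l) (Eset δ l m N) z) := by ring
  rw [e]
  have hw0 := tent_nonneg hNl (Eset δ l m N) z'
  have hw1 := tent_le_one (N * l) (Eset δ l m N) z'
  have hv0 := vv_nonneg hδ K (Pset δ m) z
  have hb0 := tb_nonneg hNl (Eset δ l m N) z
  have key : vv δ K (Pset δ m) z * tb (N * l) (Eset δ l m N) z ≤
      (2 * (N * l) * 2 ^ K / δ) * tb (N * l) (Eset δ l m N) z := by
    by_cases h : infDist z (Eset δ l m N) ≤ N * l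
    · apply mul_le_mul_of_nonneg_right _ hb0
      apply vv_le hδ hK
      have := E_near (δ := δ) (m := m) hl hm hN z
      linarith
    · have h0 : tb (N * l) (Eset δ l m N) z = 0 := by
        unfold tb; rw [indicator_of_notMem]; exact h
      rw [h0]; simp
  calc |tent (N * l) (Eset δ l m N) z' * (vv δ K (Pset δ m) z' - vv δ K (Pset δ m) z) +
        vv δ K (Pset δ m) z * (tent (N * l) (Eset δ l m N) z' - tent (N * l) (Eset δ l m N) z)|
      ≤ |tent (N * l) (Eset δ l m N) z' * (vv δ K (Pset δ m) z' - vv δ K (Pset δ m) z)| +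
        |vv δ K (Pset δ m) z * (tent (N * l) (Eset δ l m N) z' - tent (N * l) (Eset δ l m N) z)| :=
        abs_add_le _ _
    _ = tent (N * l) (Eset δ l m N) z' * |vv δ K (Pset δ m) z' - vv δ K (Pset δ m) z| +
        vv δ K (Pset δ m) z * |tent (N * l) (Eset δ l m N) z' - tent (N * l) (Eset δ l m N) z| := by
        rw [abs_mul, abs_mul, abs_of_nonneg hw0, abs_of_nonneg hv0]
    _ ≤ 1 * (bv δ K (Pset δ m) z * ‖z' - z‖) +
        vv δ K (Pset δ m) z * (tb (N * l) (Eset δ l m N) z * ‖z' - z‖) := by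
        gcongr
    _ = bv δ K (Pset δ m) z * ‖z' - z‖ +
        (vv δ K (Pset δ m) z * tb (N * l) (Eset δ l m N) z) * ‖z' - z‖ := by ring
    _ ≤ bv δ K (Pset δ m) z * ‖z' - z‖ +
        ((2 * (N * l) * 2 ^ K / δ) * tb (N * l) (Eset δ l m N) z) * ‖z' - z‖ := by gcongr
    _ = _ := by ring

lemma bF_nonneg {δ l : ℝ} {m N K : ℕ} (hδ : 0 < δ) (hl : 0 < l) (hN : 0 < N) (z : ℂ) :
    0 ≤ bF δ l m N K z := by
  have hNl : 0 < (N:ℝ) * l := mul_pos (by exact_mod_cast hN) hl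
  unfold bF
  have h1 := bv_nonneg hδ K (Pset δ m) z
  have h2 := tb_nonneg hNl (Eset δ l m N) z
  positivity

lemma bF_measurable (δ l : ℝ) (m N K : ℕ) : Measurable (bF δ l m N K) :=
  (bv_measurable _ _ _).add ((tb_measurable _ _).const_mul _)

lemma bF_energy {δ l : ℝ} {m N K : ℕ} (hδ : 0 < δ) (hl : 0 < l) (hm : 0 < m) (hN : 0 < N) (hK : 0 < K) :
    ∫⁻ z, ENNReal.ofReal (bF δ l m N K z ^ 2) ≤
      ENNReal.ofReal (8 * (m * π) / K + 8 * (m * π) * (2 * (N * l) * 2 ^ K / δ) ^ 2) := by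
  have hNl : 0 < (N:ℝ) * l := mul_pos (by exact_mod_cast hN) hl
  set c := 2 * (N * l) * 2 ^ K / δ with hc
  have hc0 : 0 ≤ c := by positivity
  have hK' : (0:ℝ) < K := by exact_mod_cast hK
  have hpt : ∀ z, bF δ l m N K z ^ 2 ≤
      (8 / K ^ 2) * (∑ t ∈ Finset.range K, tb (δ / 2 ^ (t + 1)) (Pset δ m) z ^ 2) +
        (2 * c ^ 2) * tb (N * l) (Eset δ l m N) z ^ 2 := by
    intro z
    have h1 := sum_tb_sq hδ K (Pset δ m) z
    have h2 : bF δ l m N K z = bv δ K (Pset δ m) z + c * tb (N * l) (Eset δ l m N) z := rfl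
    have h3 : bv δ K (Pset δ m) z ^ 2 ≤ (4 / K ^ 2) * (∑ t ∈ Finset.range K, tb (δ / 2 ^ (t + 1)) (Pset δ m) z ^ 2) := by
      unfold bv
      rw [div_pow, div_mul_eq_mul_div]
      gcongr
    rw [h2]
    have h4 : (bv δ K (Pset δ m) z + c * tb (N * l) (Eset δ l m N) z) ^ 2 ≤
        2 * bv δ K (Pset δ m) z ^ 2 + 2 * (c * tb (N * l) (Eset δ l m N) z) ^ 2 := by
      nlinarith [sq_nonneg (bv δ K (Pset δ m) z - c * tb (N * l) (Eset δ l m N) z)]
    calc _ ≤ _ := h4
      _ ≤ 2 * ((4 / K ^ 2) * (∑ t ∈ Finset.range K, tb (δ / 2 ^ (t + 1)) (Pset δ m) z ^ 2)) +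
          2 * (c * tb (N * l) (Eset δ l m N) z) ^ 2 := by gcongr
      _ = _ := by ring
  have hmeas1 : ∀ t, Measurable fun z => ENNReal.ofReal (tb (δ / 2 ^ (t + 1)) (Pset δ m) z ^ 2) :=
    fun t => ((tb_measurable _ _).pow_const 2).ennreal_ofReal
  have hmeas2 : Measurable fun z => ENNReal.ofReal (tb (N * l) (Eset δ l m N) z ^ 2) :=
    ((tb_measurable _ _).pow_const 2).ennreal_ofReal
  calc ∫⁻ z, ENNReal.ofReal (bF δ l m N K z ^ 2)
      ≤ ∫⁻ z, (ENNReal.ofReal (8 / K ^ 2) *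
          (∑ t ∈ Finset.range K, ENNReal.ofReal (tb (δ / 2 ^ (t + 1)) (Pset δ m) z ^ 2)) +
          ENNReal.ofReal (2 * c ^ 2) * ENNReal.ofReal (tb (N * l) (Eset δ l m N) z ^ 2)) := by
        apply lintegral_mono
        intro z
        refine (ENNReal.ofReal_le_ofReal (hpt z)).trans ?_
        rw [ENNReal.ofReal_add (by positivity) (by positivity), ENNReal.ofReal_mul (by positivity),
          ENNReal.ofReal_mul (by positivity), ENNReal.ofReal_sum_of_nonneg (fun t _ => sq_nonneg _)]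
    _ = ENNReal.ofReal (8 / K ^ 2) *
          (∑ t ∈ Finset.range K, ∫⁻ z, ENNReal.ofReal (tb (δ / 2 ^ (t + 1)) (Pset δ m) z ^ 2)) +
          ENNReal.ofReal (2 * c ^ 2) * ∫⁻ z, ENNReal.ofReal (tb (N * l) (Eset δ l m N) z ^ 2) := by
        rw [lintegral_add_right _ (hmeas2.const_mul _), lintegral_const_mul _ hmeas2,
          lintegral_const_mul _ (Finset.measurable_sum _ fun t _ => hmeas1 t),
          lintegral_finsetSum _ (fun t _ => hmeas1 t)]
    _ ≤ ENNReal.ofReal (8 / K ^ 2) * (∑ t ∈ Finset.range K, ENNReal.ofReal (m * π)) +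
          ENNReal.ofReal (2 * c ^ 2) * ENNReal.ofReal (4 * (m * π)) := by
        gcongr with t ht
        · exact tb_sq_int (by positivity) (Pset_vol δ hm (by positivity))
        · apply tb_sq_int hNl
          calc volume {z | infDist z (Eset δ l m N) ≤ N * l}
              ≤ volume {z | infDist z (Pset δ m) ≤ 2 * (N * l)} := by
                apply measure_mono
                intro z hz
                simp only [mem_ofPred_eq] at hz ⊢
                have := E_near (δ := δ) (m := m) hl hm hN z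
                linarith
            _ ≤ ENNReal.ofReal (m * π * (2 * (N * l)) ^ 2) := Pset_vol δ hm (by positivity)
            _ = _ := by congr 1; ring
    _ = _ := by
        rw [Finset.sum_const, Finset.card_range, nsmul_eq_mul, ← ENNReal.ofReal_natCast,
          ← ENNReal.ofReal_mul (by positivity), ← ENNReal.ofReal_mul (by positivity),
          ← ENNReal.ofReal_mul (by positivity), ← ENNReal.ofReal_add (by positivity) (by positivity)]
        congr 1
        field_simp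
        ring

lemma FF_nonneg {δ l : ℝ} {m N K : ℕ} (hδ : 0 < δ) (hl : 0 < l) (hN : 0 < N) (z : ℂ) :
    0 ≤ FF δ l m N K z := by
  have hNl : 0 < (N:ℝ) * l := mul_pos (by exact_mod_cast hN) hl
  exact mul_nonneg (vv_nonneg hδ _ _ _) (tent_nonneg hNl _ _)

lemma FF_le_one {δ l : ℝ} {m N K : ℕ} (hl : 0 < l) (hN : 0 < N) (z : ℂ) :
    FF δ l m N K z ≤ 1 := by
  have hNl : 0 < (N:ℝ) * l := mul_pos (by exact_mod_cast hN) hl
  exact mul_le_one₀ (vv_le_one _ _ _ _) (tent_nonneg hNl _ _) (tent_le_one _ _ _)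

lemma FF_zero {δ l : ℝ} {m N K : ℕ} {z : ℂ} (hz : z ∈ Eset δ l m N) : FF δ l m N K z = 0 := by
  unfold FF
  rw [tent_eq_zero hz, mul_zero]

lemma FF_lip {δ l : ℝ} {m N K : ℕ} (hδ : 0 < δ) (hl : 0 < l) (hN : 0 < N) (hK : 0 < K) :
    ∃ C, LipschitzWith C (FF δ l m N K) := by
  have hNl : 0 < (N:ℝ) * l := mul_pos (by exact_mod_cast hN) hl
  have hv : LipschitzWith (∑ t ∈ Finset.range K, Real.toNNReal (1 / (δ / 2 ^ (t + 1))))
      (vv δ K (Pset δ m)) := by
    apply LipschitzWith.of_dist_le_mul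
    intro z z'
    rw [Real.dist_eq]
    unfold vv
    rw [← sub_div, ← Finset.sum_sub_distrib, abs_div, Nat.abs_cast]
    push_cast
    rw [Finset.sum_mul]
    have hK1 : (1:ℝ) ≤ K := by exact_mod_cast hK
    refine (div_le_self (abs_nonneg _) hK1).trans ?_
    refine (Finset.abs_sum_le_sum_abs _ _).trans (Finset.sum_le_sum fun t _ => ?_)
    have := (tent_lipschitz (ρ := δ / 2 ^ (t + 1)) (by positivity) (Pset δ m)).dist_le_mul z z'
    rwa [Real.dist_eq] at this
  exact ⟨_, lipschitz_mul hv (tent_lipschitz hNl (Eset δ l m N))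
    (fun z => by rw [abs_of_nonneg (vv_nonneg hδ _ _ _)]; exact vv_le_one _ _ _ _)
    (fun z => by rw [abs_of_nonneg (tent_nonneg hNl _ _)]; exact tent_le_one _ _ _)⟩

lemma Pset_far {δ s : ℝ} {m : ℕ} (hδ0 : 0 ≤ δ) (hm : 0 < m) (hδ : m * δ = s) (z : ℂ) :
    ‖z - 1‖ - s ≤ infDist z (Pset δ m) := by
  rw [le_infDist (Pset_nonempty δ hm)]
  rintro p ⟨i, hi, rfl⟩
  have h1 : dist z 1 ≤ dist z (circleMap 0 1 (i * δ)) + dist (circleMap 0 1 (i * δ)) 1 :=
    dist_triangle _ _ _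
  have h2 := circle_dist_le (i * δ) 0
  have h0 : circleMap 0 1 0 = 1 := by simp [circleMap]
  rw [h0, sub_zero, abs_of_nonneg (by positivity)] at h2
  have h3 : (i:ℝ) * δ ≤ m * δ := by
    apply mul_le_mul_of_nonneg_right _ hδ0
    exact_mod_cast (le_of_lt hi)
  rw [dist_eq_norm z 1] at h1
  simp only
  linarith

lemma Eset_far {δ l s : ℝ} {m N : ℕ} (hl : 0 < l) (hm : 0 < m) (hN : 0 < N) (hδ : m * δ = s)
    (hr : N * l ≤ δ) (z : ℂ) :
    ‖z - 1‖ - s ≤ infDist z (Eset δ l m N) := by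
  rw [le_infDist (Eset_nonempty δ l hm hN)]
  rintro p ⟨i, hi, j, hj, κ, hκ, rfl⟩
  have h1 : dist z 1 ≤ dist z (circleMap 0 1 (i * δ + j * l + l * κ)) +
      dist (circleMap 0 1 (i * δ + j * l + l * κ)) 1 := dist_triangle _ _ _
  have h2 := circle_dist_le (i * δ + j * l + l * κ) 0
  have h0 : circleMap 0 1 0 = 1 := by simp [circleMap]
  have hNl : 0 < (N:ℝ) * l := mul_pos (by exact_mod_cast hN) hl
  have hδ0 : 0 < δ := by linarith
  have h5 := KC_01 hκ
  have h6 : (j:ℝ) + 1 ≤ N := by exact_mod_cast hj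
  have h7 : (i:ℝ) + 1 ≤ m := by exact_mod_cast hi
  have h8 : (i:ℝ) * δ + j * l + l * κ ≤ s := by
    have h9 : (j:ℝ) * l + l * κ ≤ N * l := by nlinarith [h5.1, h5.2]
    have h10 : ((i:ℝ) + 1) * δ ≤ m * δ := by gcongr
    nlinarith
  have h11 : 0 ≤ (i:ℝ) * δ + j * l + l * κ := by
    have : 0 ≤ l * κ := mul_nonneg hl.le h5.1
    positivity
  rw [h0, sub_zero, abs_of_nonneg h11] at h2
  rw [dist_eq_norm z 1] at h1
  linarith

lemma FF_far {δ l s : ℝ} {m N K : ℕ} (hl : 0 < l) (hm : 0 < m) (hN : 0 < N) (hK : 0 < K)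
    (hδ : m * δ = s) (hr : N * l ≤ δ) {z : ℂ} (hz : 3 * s ≤ ‖z - 1‖) :
    FF δ l m N K z = 1 ∧ bF δ l m N K z = 0 := by
  have hNl : 0 < (N:ℝ) * l := mul_pos (by exact_mod_cast hN) hl
  have hδ0 : 0 < δ := by linarith
  have hm1 : (1:ℝ) ≤ m := by exact_mod_cast hm
  have hδs : δ ≤ s := by rw [← hδ]; nlinarith
  have h1 := Pset_far hδ0.le hm hδ z
  have h2 := Eset_far (δ := δ) hl hm hN hδ hr z
  have hrho : ∀ t : ℕ, δ / 2 ^ (t + 1) ≤ δ := fun t =>
    div_le_self hδ0.le (one_le_pow₀ (by norm_num))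
  have hK' : (0:ℝ) < K := by exact_mod_cast hK
  constructor
  · unfold FF vv
    have h3 : ∀ t ∈ Finset.range K, tent (δ / 2 ^ (t + 1)) (Pset δ m) z = 1 := by
      intro t _
      apply tent_eq_one (by positivity)
      have := hrho t
      linarith
    rw [Finset.sum_congr rfl h3, tent_eq_one hNl (by linarith)]
    simp [hK'.ne']
  · unfold bF bv
    have h3 : ∀ t ∈ Finset.range K, tb (δ / 2 ^ (t + 1)) (Pset δ m) z = 0 := by
      intro t _
      unfold tb
      rw [indicator_of_notMem]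
      intro hmem
      simp only [mem_ofPred_eq] at hmem
      have := hrho t
      linarith
    have h4 : tb (N * l) (Eset δ l m N) z = 0 := by
      unfold tb
      rw [indicator_of_notMem]
      intro hmem
      simp only [mem_ofPred_eq] at hmem
      linarith
    rw [Finset.sum_congr rfl h3, h4]
    simp

/-! ### logarithmic integral of the group function -/

lemma P_count {δ s : ℝ} {m : ℕ} (hδ0 : 0 < δ) (hm : 0 < m) (hδ : m * δ = s) (hs : s ≤ 1 / 4) (q : ℕ) :
    volume {x | x ∈ Ioc (-π) π ∧ infDist (circleMap 0 1 x) (Pset δ m) < δ / 2 * (1 / 4) ^ q} ≤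
      ENNReal.ofReal (2 * s * (1 / 4) ^ q) := by
  have hm1 : (1:ℝ) ≤ m := by exact_mod_cast hm
  have hδs : δ ≤ s := by rw [← hδ]; nlinarith
  have hq : (1 / 4 : ℝ) ^ q ≤ 1 := pow_le_one₀ (by norm_num) (by norm_num)
  have hq0 : (0 : ℝ) < (1 / 4 : ℝ) ^ q := by positivity
  refine (vol_le (Pset_nonempty δ hm) ((Finset.range m).image fun i : ℕ => (i:ℝ) * δ) (a := 0)
    (by nlinarith) ?_).trans ?_
  · rintro p ⟨i, hi, rfl⟩
    have hi' : i < m := hi
    refine ⟨i * δ, Finset.mem_image_of_mem _ (Finset.mem_range.2 hi'), i * δ, le_rfl, by simp,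
      by positivity, ?_, rfl⟩
    have h3 : (i:ℝ) * δ ≤ m * δ := by
      apply mul_le_mul_of_nonneg_right _ hδ0.le
      exact_mod_cast hi'.le
    linarith
  · apply ENNReal.ofReal_le_ofReal
    have hcard : (((Finset.range m).image fun i : ℕ => (i:ℝ) * δ).card : ℝ) ≤ m := by
      have := Finset.card_image_le (s := Finset.range m) (f := fun i : ℕ => (i:ℝ) * δ)
      rw [Finset.card_range] at this
      exact_mod_cast this
    calc (((Finset.range m).image fun i : ℕ => (i:ℝ) * δ).card : ℝ) * (0 + 4 * (δ / 2 * (1 / 4) ^ q))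
        ≤ m * (0 + 4 * (δ / 2 * (1 / 4) ^ q)) := by gcongr
      _ = 2 * (m * δ) * (1 / 4) ^ q := by ring
      _ = _ := by rw [hδ]

lemma E_count1 {δ l s : ℝ} {m N : ℕ} (hl : 0 < l) (hm : 0 < m) (hN : 0 < N)
    (hδ : m * δ = s) (hr : N * l ≤ δ) (hs : s ≤ 1 / 4) (q : ℕ) :
    volume {x | x ∈ Ioc (-π) π ∧ infDist (circleMap 0 1 x) (Eset δ l m N) < N * l * (1 / 4) ^ q} ≤
      ENNReal.ofReal (5 * m * (N * l)) := by
  have hNl : 0 < (N:ℝ) * l := mul_pos (by exact_mod_cast hN) hl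
  have hδ0 : 0 < δ := by linarith
  have hm1 : (1:ℝ) ≤ m := by exact_mod_cast hm
  have hδs : δ ≤ s := by rw [← hδ]; nlinarith
  have hq : (1 / 4 : ℝ) ^ q ≤ 1 := pow_le_one₀ (by norm_num) (by norm_num)
  have hq0 : (0 : ℝ) < (1 / 4 : ℝ) ^ q := by positivity
  refine (vol_le (Eset_nonempty δ l hm hN) ((Finset.range m).image fun i : ℕ => (i:ℝ) * δ) (a := N * l)
    (by nlinarith) ?_).trans ?_
  · rintro p ⟨i, hi, j, hj, κ, hκ, rfl⟩
    have h5 := KC_01 hκ
    have h6 : (j:ℝ) + 1 ≤ N := by exact_mod_cast hj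
    have h7 : (i:ℝ) + 1 ≤ m := by exact_mod_cast hi
    have h9 : (j:ℝ) * l + l * κ ≤ N * l := by nlinarith [h5.1, h5.2]
    have h10 : ((i:ℝ) + 1) * δ ≤ m * δ := by gcongr
    have h11 : 0 ≤ l * κ := mul_nonneg hl.le h5.1
    have h12 : 0 ≤ (j:ℝ) * l := by positivity
    have h13 : 0 ≤ (i:ℝ) * δ := by positivity
    refine ⟨i * δ, Finset.mem_image_of_mem _ (Finset.mem_range.2 hi), _, ?_, ?_, ?_, ?_, rfl⟩
    · linarith
    · linarith
    · linarith
    · nlinarith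
  · apply ENNReal.ofReal_le_ofReal
    have hcard : (((Finset.range m).image fun i : ℕ => (i:ℝ) * δ).card : ℝ) ≤ m := by
      have := Finset.card_image_le (s := Finset.range m) (f := fun i : ℕ => (i:ℝ) * δ)
      rw [Finset.card_range] at this
      exact_mod_cast this
    calc (((Finset.range m).image fun i : ℕ => (i:ℝ) * δ).card : ℝ) * (N * l + 4 * (N * l * (1 / 4) ^ q))
        ≤ m * (N * l + 4 * (N * l * 1)) := by gcongr
      _ = _ := by ring

lemma E_count2 {δ l s : ℝ} {m N : ℕ} (hl : 0 < l) (hm : 0 < m) (hN : 0 < N)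
    (hδ : m * δ = s) (hr : N * l ≤ δ) (hs : s ≤ 1 / 4) (q : ℕ) :
    volume {x | x ∈ Ioc (-π) π ∧ infDist (circleMap 0 1 x) (Eset δ l m N) < l * (1 / 4) ^ q} ≤
      ENNReal.ofReal (5 * m * (N * l) * (1 / 2) ^ q) := by
  have hNl : 0 < (N:ℝ) * l := mul_pos (by exact_mod_cast hN) hl
  have hδ0 : 0 < δ := by linarith
  have hm1 : (1:ℝ) ≤ m := by exact_mod_cast hm
  have hN1 : (1:ℝ) ≤ N := by exact_mod_cast hN
  have hδs : δ ≤ s := by rw [← hδ]; nlinarith
  have hq : (1 / 4 : ℝ) ^ q ≤ 1 := pow_le_one₀ (by norm_num) (by norm_num)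
  have hq0 : (0 : ℝ) < (1 / 4 : ℝ) ^ q := by positivity
  obtain ⟨T, hT, hcov⟩ := KC_cover q
  classical
  set T' : Finset ℝ := ((Finset.range m) ×ˢ ((Finset.range N) ×ˢ T)).image
    (fun p : ℕ × ℕ × ℝ => (p.1 : ℝ) * δ + p.2.1 * l + l * p.2.2) with hT'
  have hlr : l ≤ N * l := by nlinarith
  refine (vol_le (Eset_nonempty δ l hm hN) T' (a := l * (1 / 4) ^ q) (by nlinarith) ?_).trans ?_
  · rintro p ⟨i, hi, j, hj, κ, hκ, rfl⟩
    have h5 := KC_01 hκ
    have h6 : (j:ℝ) + 1 ≤ N := by exact_mod_cast hj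
    have h7 : (i:ℝ) + 1 ≤ m := by exact_mod_cast hi
    have h9 : (j:ℝ) * l + l * κ ≤ N * l := by nlinarith [h5.1, h5.2]
    have h10 : ((i:ℝ) + 1) * δ ≤ m * δ := by gcongr
    have h11 : 0 ≤ l * κ := mul_nonneg hl.le h5.1
    have h12 : 0 ≤ (j:ℝ) * l := by positivity
    have h13 : 0 ≤ (i:ℝ) * δ := by positivity
    obtain ⟨b, hb, hb1, hb2⟩ := hcov κ hκ
    refine ⟨i * δ + j * l + l * b, ?_, _, ?_, ?_, ?_, ?_, rfl⟩
    · rw [hT']
      exact Finset.mem_image.2 ⟨(i, j, b), by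
        simp only [Finset.mem_product, Finset.mem_range]
        exact ⟨hi, hj, hb⟩, rfl⟩
    · have : l * b ≤ l * κ := by gcongr
      linarith
    · have : l * κ ≤ l * (b + (1 / 4) ^ q) := by gcongr
      linarith
    · linarith
    · nlinarith
  · apply ENNReal.ofReal_le_ofReal
    have hcard : (T'.card : ℝ) ≤ m * (N * 2 ^ q) := by
      have h1 : T'.card ≤ m * (N * T.card) := by
        rw [hT']
        refine Finset.card_image_le.trans ?_
        rw [Finset.card_product, Finset.card_product, Finset.card_range, Finset.card_range]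
      have h2 : T'.card ≤ m * (N * 2 ^ q) := h1.trans (by gcongr)
      exact_mod_cast h2
    calc (T'.card : ℝ) * (l * (1 / 4) ^ q + 4 * (l * (1 / 4) ^ q))
        ≤ (m * (N * 2 ^ q)) * (l * (1 / 4) ^ q + 4 * (l * (1 / 4) ^ q)) := by gcongr
      _ = 5 * m * (N * l) * (2 ^ q * (1 / 4) ^ q) := by ring
      _ = _ := by rw [← mul_pow]; norm_num

end Pool.Agent.Helper57.Dir
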