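import Pool.Agent.Helper57.Dir.Real4

/-!
# The two-scale group: final existence statement
-/

set_option autoImplicit false

namespace Pool.Agent.Helper57.Dir

open Filter MeasureTheory Metric Real Set Topology

lemma geom_ofReal {A x : ℝ} (hA : 0 ≤ A) (hx0 : 0 ≤ x) (hx1 : x < 1) :
    ∑' q : ℕ, ENNReal.ofReal (A * x ^ q) = ENNReal.ofReal (A * (1 - x)⁻¹) := by
  rw [← ENNReal.ofReal_tsum_of_nonneg (fun q => by positivity)
    ((summable_geometric_of_lt_one hx0 hx1).mul_left A), tsum_mul_left,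
    tsum_geometric_of_lt_one hx0 hx1]

lemma P_sum {δ s : ℝ} {m : ℕ} (hδ0 : 0 < δ) (hm : 0 < m) (hδ : m * δ = s) (hs : s ≤ 1 / 4) :
    ∑' q : ℕ, volume {x | x ∈ Ioc (-π) π ∧ infDist (circleMap 0 1 x) (Pset δ m) < δ / 2 * (1 / 4) ^ q} ≤
      ENNReal.ofReal (3 * s) := by
  have hs0 : 0 < s := by
    rw [← hδ]
    have : (0:ℝ) < m := by exact_mod_cast hm
    positivity
  calc ∑' q : ℕ, volume {x | x ∈ Ioc (-π) π ∧ infDist (circleMap 0 1 x) (Pset δ m) < δ / 2 * (1 / 4) ^ q}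
      ≤ ∑' q : ℕ, ENNReal.ofReal (2 * s * (1 / 4) ^ q) := ENNReal.tsum_le_tsum (P_count hδ0 hm hδ hs)
    _ = ENNReal.ofReal (2 * s * (1 - 1 / 4)⁻¹) := geom_ofReal (by positivity) (by norm_num) (by norm_num)
    _ ≤ _ := by
        apply ENNReal.ofReal_le_ofReal
        norm_num
        linarith

lemma E_sum {δ l s : ℝ} {m k : ℕ} (hl : 0 < l) (hm : 0 < m)
    (hδ : m * δ = s) (hr : ((4 ^ k : ℕ) : ℝ) * l ≤ δ) (hs : s ≤ 1 / 4) :
    ∑' q : ℕ, volume {x | x ∈ Ioc (-π) π ∧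
      infDist (circleMap 0 1 x) (Eset δ l m (4 ^ k)) < ((4 ^ k : ℕ) : ℝ) * l * (1 / 4) ^ q} ≤
      ENNReal.ofReal (5 * m * (((4 ^ k : ℕ) : ℝ) * l) * (k + 2)) := by
  have hN : 0 < 4 ^ k := by positivity
  set r : ℝ := ((4 ^ k : ℕ) : ℝ) * l with hrdef
  have hr0 : 0 < r := by positivity
  set V : ℕ → ENNReal := fun q => volume {x | x ∈ Ioc (-π) π ∧
      infDist (circleMap 0 1 x) (Eset δ l m (4 ^ k)) < r * (1 / 4) ^ q} with hV
  have h1 : ∑ i ∈ Finset.range k, V i + ∑' i, V (i + k) = ∑' i, V i :=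
    Summable.sum_add_tsum_nat_add' ENNReal.summable
  rw [← h1]
  have h2 : ∀ q, V (q + k) ≤ ENNReal.ofReal (5 * m * r * (1 / 2) ^ q) := by
    intro q
    have := E_count2 (δ := δ) (N := 4 ^ k) hl hm hN hδ hr hs q
    have e : r * (1 / 4) ^ (q + k) = l * (1 / 4) ^ q := by
      rw [hrdef, pow_add]
      push_cast
      have : (4:ℝ) ^ k * (1 / 4) ^ k = 1 := by rw [← mul_pow]; norm_num
      calc (4:ℝ) ^ k * l * ((1 / 4) ^ q * (1 / 4) ^ k) = (4:ℝ) ^ k * (1 / 4) ^ k * (l * (1 / 4) ^ q) := by ring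
        _ = _ := by rw [this, one_mul]
    simp only [hV]
    rw [e]
    exact this
  calc ∑ i ∈ Finset.range k, V i + ∑' i, V (i + k)
      ≤ ∑ i ∈ Finset.range k, ENNReal.ofReal (5 * m * r) +
          ∑' q : ℕ, ENNReal.ofReal (5 * m * r * (1 / 2) ^ q) := by
        gcongr with i hi q
        · exact E_count1 hl hm hN hδ hr hs i
        · exact h2 _
    _ = ENNReal.ofReal (5 * m * r * (k + 2)) := by
        rw [geom_ofReal (by positivity) (by norm_num) (by norm_num), Finset.sum_const, Finset.card_range,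
          nsmul_eq_mul, ← ENNReal.ofReal_natCast, ← ENNReal.ofReal_mul (by positivity),
          ← ENNReal.ofReal_add (by positivity) (by norm_num; positivity)]
        congr 1
        norm_num
        ring

lemma FF_log {δ l : ℝ} {m N K : ℕ} (hδ : 0 < δ) (hl : 0 < l) (hN : 0 < N) (hK : 0 < K) (z : ℂ) :
    ENNReal.ofReal (-Real.log (FF δ l m N K z)) ≤
      ENNReal.ofReal (-Real.log (tent (δ / 2) (Pset δ m) z)) +
      ENNReal.ofReal (-Real.log (tent (N * l) (Eset δ l m N) z)) := by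
  have hNl : 0 < (N:ℝ) * l := mul_pos (by exact_mod_cast hN) hl
  by_cases h0 : FF δ l m N K z = 0
  · rw [h0]; simp
  · unfold FF at h0 ⊢
    have hv : vv δ K (Pset δ m) z ≠ 0 := left_ne_zero_of_mul h0
    have hw : tent (N * l) (Eset δ l m N) z ≠ 0 := right_ne_zero_of_mul h0
    rw [Real.log_mul hv hw, neg_add]
    refine (ENNReal.ofReal_add_le).trans ?_
    refine add_le_add ?_ le_rfl
    apply ENNReal.ofReal_le_ofReal
    apply neg_le_neg
    have ht : 0 < tent (δ / 2) (Pset δ m) z := by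
      have h1 := tent_nonneg (ρ := δ / 2) (by positivity) (Pset δ m) z
      rcases h1.lt_or_eq with h | h
      · exact h
      · exfalso
        apply hv
        have h2 : infDist z (Pset δ m) = 0 := by
          unfold tent at h
          have h3 : infDist z (Pset δ m) / (δ / 2) = 0 := by
            rcases min_choice 1 (infDist z (Pset δ m) / (δ / 2)) with h4 | h4
            · rw [h4] at h; norm_num at h
            · rw [h4] at h; exact h.symm
          have h5 : δ / 2 ≠ 0 := by positivity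
          rcases div_eq_zero_iff.1 h3 with h6 | h6
          · exact h6
          · exact absurd h6 h5
        have h6 := vv_le (K := K) hδ hK (S := Pset δ m) (z := z) (d := 0) h2.le
        rw [zero_mul, zero_div] at h6
        exact le_antisymm h6 (vv_nonneg hδ _ _ _)
    exact Real.log_le_log ht (vv_ge hδ hK _ _)

theorem group_exists {s δ : ℝ} {m : ℕ} (hs0 : 0 < s) (hs : s ≤ 1 / 4) (hm : 0 < m) (hδ : δ = s / m)
    {ε : ℝ} (hε : 0 < ε) :
    ∃ k : ℕ, 200 ≤ k ∧ 1 / 2 ^ k ≤ √δ ∧ ∃ F b : ℂ → ℝ, (∃ C, LipschitzWith C F) ∧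
      (∀ z, 0 ≤ F z ∧ F z ≤ 1) ∧ (∀ z, 3 * s ≤ ‖z - 1‖ → F z = 1 ∧ b z = 0) ∧
      (∀ l, l = 200 * δ / k / 4 ^ k → ∀ i : ℕ, i < m → ∀ j : ℕ, j < 4 ^ k → ∀ κ ∈ KC,
        F (circleMap 0 1 (i * δ + j * l + l * κ)) = 0) ∧
      Measurable b ∧ (∀ z, 0 ≤ b z) ∧ ∫⁻ z, ENNReal.ofReal (b z ^ 2) ≤ ENNReal.ofReal ε ∧
      (∀ z, SL F z (b z)) ∧
      (∀ᵐ x ∂(volume.restrict (Ioc (-π) π)), 0 < F (circleMap 0 1 x)) ∧
      ∫⁻ x in Ioc (-π) π, ENNReal.ofReal (-Real.log (F (circleMap 0 1 x))) ≤ ENNReal.ofReal (3000 * s) := by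
  have hm' : (0:ℝ) < m := by exact_mod_cast hm
  have hδ0 : 0 < δ := by rw [hδ]; positivity
  have hδm : m * δ = s := by rw [hδ]; field_simp
  -- choose K
  obtain ⟨K, hK1, hK2⟩ : ∃ K : ℕ, 0 < K ∧ 8 * (m * π) / K ≤ ε / 2 := by
    have h1 : Tendsto (fun K : ℕ => 8 * (m * π) / (K:ℝ)) atTop (𝓝 0) :=
      tendsto_const_div_atTop_nhds_zero_nat _
    have h2 := (h1.eventually (gt_mem_nhds (by positivity : (0:ℝ) < ε / 2))).and (eventually_gt_atTop 0)
    obtain ⟨K, hK⟩ := h2.exists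
    exact ⟨K, hK.2, hK.1.le⟩
  -- choose k
  obtain ⟨k, hk1, hk2, hk3⟩ : ∃ k : ℕ, 200 ≤ k ∧ 1 / 2 ^ k ≤ √δ ∧
      8 * (m * π) * (400 * 2 ^ K / k) ^ 2 ≤ ε / 2 := by
    have h1 : Tendsto (fun k : ℕ => 8 * (m * π) * (400 * 2 ^ K / (k:ℝ)) ^ 2) atTop
        (𝓝 (8 * (m * π) * 0 ^ 2)) :=
      ((tendsto_const_div_atTop_nhds_zero_nat (400 * 2 ^ K)).pow 2).const_mul _
    have h1' : (8 * (m * π) * 0 ^ 2 : ℝ) = 0 := by ring
    rw [h1'] at h1
    have h2 : Tendsto (fun k : ℕ => (1:ℝ) / 2 ^ k) atTop (𝓝 0) := by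
      have : (fun k : ℕ => (1:ℝ) / 2 ^ k) = fun k : ℕ => (1 / 2 : ℝ) ^ k := by
        ext k; rw [one_div_pow]
      rw [this]
      exact tendsto_pow_atTop_nhds_zero_of_lt_one (by norm_num) (by norm_num)
    have h3 := ((h1.eventually (gt_mem_nhds (by positivity : (0:ℝ) < ε / 2))).and
      (h2.eventually (gt_mem_nhds (Real.sqrt_pos.2 hδ0)))).and (eventually_ge_atTop 200)
    obtain ⟨k, hk⟩ := h3.exists
    exact ⟨k, hk.2, hk.1.2.le, hk.1.1.le⟩
  have hk' : (200:ℝ) ≤ k := by exact_mod_cast hk1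
  have hk0 : (0:ℝ) < k := by linarith
  set l : ℝ := 200 * δ / k / 4 ^ k with hl
  have hl0 : 0 < l := by positivity
  have hN : 0 < 4 ^ k := by positivity
  have hNl : ((4 ^ k : ℕ) : ℝ) * l = 200 * δ / k := by
    rw [hl]; push_cast; field_simp
  have hr : ((4 ^ k : ℕ) : ℝ) * l ≤ δ := by
    rw [hNl, div_le_iff₀ hk0]; nlinarith
  have hr0 : 0 < ((4 ^ k : ℕ) : ℝ) * l := by positivity
  refine ⟨k, hk1, hk2, FF δ l m (4 ^ k) K, bF δ l m (4 ^ k) K, FF_lip hδ0 hl0 hN hK1,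
    fun z => ⟨FF_nonneg hδ0 hl0 hN z, FF_le_one hl0 hN z⟩,
    fun z hz => FF_far hl0 hm hN hK1 hδm hr hz, ?_, bF_measurable _ _ _ _ _,
    fun z => bF_nonneg hδ0 hl0 hN z, ?_, fun z => FF_SL hδ0 hl0 hm hN hK1 z, ?_, ?_⟩
  · intro l' hl' i hi j hj κ hκ
    rw [hl']
    exact FF_zero ⟨i, hi, j, hj, κ, hκ, rfl⟩
  · refine (bF_energy hδ0 hl0 hm hN hK1).trans (ENNReal.ofReal_le_ofReal ?_)
    have e : 2 * (((4 ^ k : ℕ) : ℝ) * l) * 2 ^ K / δ = 400 * 2 ^ K / k := by
      rw [hNl]; field_simp; ring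
    rw [e]
    linarith
  · have h1 := ae_pos_of_tsum (c := δ / 2) (by positivity) (Pset δ m)
      (ne_top_of_le_ne_top ENNReal.ofReal_ne_top (P_sum hδ0 hm hδm hs))
    have h2 := ae_pos_of_tsum hr0 (Eset δ l m (4 ^ k))
      (ne_top_of_le_ne_top ENNReal.ofReal_ne_top (E_sum hl0 hm hδm hr hs))
    filter_upwards [h1, h2] with x hx1 hx2
    unfold FF
    exact mul_pos (hx1.trans_le (vv_ge hδ0 hK1 _ _)) hx2
  · have hmeas : Measurable fun x : ℝ => ENNReal.ofReal (-Real.log (tent (δ / 2) (Pset δ m) (circleMap 0 1 x))) := by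
      apply Measurable.ennreal_ofReal
      apply Measurable.neg
      apply Real.measurable_log.comp
      exact ((tent_lipschitz (by positivity) _).continuous.comp (continuous_circleMap 0 1)).measurable
    calc ∫⁻ x in Ioc (-π) π, ENNReal.ofReal (-Real.log (FF δ l m (4 ^ k) K (circleMap 0 1 x)))
        ≤ ∫⁻ x in Ioc (-π) π, (ENNReal.ofReal (-Real.log (tent (δ / 2) (Pset δ m) (circleMap 0 1 x))) +
          ENNReal.ofReal (-Real.log (tent (((4 ^ k : ℕ) : ℝ) * l) (Eset δ l m (4 ^ k)) (circleMap 0 1 x)))) := by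
          apply lintegral_mono
          intro x
          exact FF_log hδ0 hl0 hN hK1 _
      _ = (∫⁻ x in Ioc (-π) π, ENNReal.ofReal (-Real.log (tent (δ / 2) (Pset δ m) (circleMap 0 1 x)))) +
          (∫⁻ x in Ioc (-π) π, ENNReal.ofReal (-Real.log (tent (((4 ^ k : ℕ) : ℝ) * l)
            (Eset δ l m (4 ^ k)) (circleMap 0 1 x)))) := lintegral_add_left hmeas _
      _ ≤ ENNReal.ofReal (Real.log 4) * ENNReal.ofReal (3 * s) +
          ENNReal.ofReal (Real.log 4) * ENNReal.ofReal (5 * m * (((4 ^ k : ℕ) : ℝ) * l) * (k + 2)) := by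
          gcongr
          · refine (log_tent_lintegral_le (by positivity) _).trans ?_
            gcongr
            exact P_sum hδ0 hm hδm hs
          · refine (log_tent_lintegral_le hr0 _).trans ?_
            gcongr
            exact E_sum hl0 hm hδm hr hs
      _ = ENNReal.ofReal (Real.log 4 * (3 * s) + Real.log 4 * (5 * m * (((4 ^ k : ℕ) : ℝ) * l) * (k + 2))) := by
          have : 0 ≤ Real.log 4 := Real.log_nonneg (by norm_num)
          rw [ENNReal.ofReal_add (by positivity) (by positivity), ENNReal.ofReal_mul this, ENNReal.ofReal_mul this]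
      _ ≤ ENNReal.ofReal (3000 * s) := by
          apply ENNReal.ofReal_le_ofReal
          have hlog4 : Real.log 4 ≤ 2 := by
            have : (4:ℝ) = 2 ^ 2 := by norm_num
            rw [this, Real.log_pow]
            have := Real.log_two_lt_d9
            push_cast
            linarith
          have hlog0 : 0 ≤ Real.log 4 := Real.log_nonneg (by norm_num)
          have e1 : 5 * m * (((4 ^ k : ℕ) : ℝ) * l) * (k + 2) = 1000 * s * ((k + 2) / k) := by
            rw [hNl, ← hδm]; field_simp; ring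
          rw [e1]
          have h3 : ((k:ℝ) + 2) / k ≤ 101 / 100 := by
            rw [div_le_iff₀ hk0]; linarith
          have h4 : 1000 * s * ((k + 2) / k) ≤ 1010 * s := by nlinarith
          have h5 : 0 ≤ 1000 * s * ((k + 2) / k) := by positivity
          nlinarith

end Pool.Agent.Helper57.Dir
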